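import Mathlib
import Pool.Agent.NPC.Num

set_option autoImplicit false

/-!
# Sums over all bit strings of a given length
-/

namespace Pool.Agent.Q330.MS

open Finset Pool.Agent.NPC

/-- the sum of `f` over all bit strings of length `k` -/
def BS (k : ℕ) (f : List Bool → ℕ) : ℕ := ∑ w : Fin k → Bool, f (List.ofFn w)

lemma BS_zero (f : List Bool → ℕ) : BS 0 f = f [] := by
  simp [BS]

lemma BS_succ (k : ℕ) (f : List Bool → ℕ) :
    BS (k + 1) f = BS k (fun w => f (false :: w)) + BS k (fun w => f (true :: w)) := by
  unfold BS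
  rw [← (Fin.consEquiv (fun _ : Fin (k + 1) => Bool)).sum_comp, Fintype.sum_prod_type,
    Fintype.sum_bool, add_comm]
  congr 1
  · apply sum_congr rfl
    intro w _
    congr 1
    simp [Fin.consEquiv, List.ofFn_succ]
  · apply sum_congr rfl
    intro w _
    congr 1
    simp [Fin.consEquiv, List.ofFn_succ]

lemma BS_congr {k : ℕ} {f g : List Bool → ℕ} (h : ∀ w : List Bool, w.length = k → f w = g w) :
    BS k f = BS k g := by
  unfold BS
  exact sum_congr rfl fun w _ => h _ (List.length_ofFn)

lemma BS_le {k : ℕ} {f g : List Bool → ℕ} (h : ∀ w : List Bool, w.length = k → f w ≤ g w) :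
    BS k f ≤ BS k g := by
  unfold BS
  exact sum_le_sum fun w _ => h _ (List.length_ofFn)

lemma BS_add (k : ℕ) (f g : List Bool → ℕ) : BS k (fun w => f w + g w) = BS k f + BS k g := by
  unfold BS
  exact sum_add_distrib

lemma BS_mul_right (k : ℕ) (f : List Bool → ℕ) (c : ℕ) : BS k (fun w => f w * c) = BS k f * c := by
  unfold BS
  rw [sum_mul]

lemma BS_mul_left (k : ℕ) (f : List Bool → ℕ) (c : ℕ) : BS k (fun w => c * f w) = c * BS k f := by
  unfold BS
  rw [mul_sum]

lemma BS_const (k c : ℕ) : BS k (fun _ => c) = 2 ^ k * c := by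
  unfold BS
  rw [sum_const, card_univ, Fintype.card_fun, Fintype.card_bool, Fintype.card_fin, smul_eq_mul]

lemma BS_sum {ι : Type} (s : Finset ι) (k : ℕ) (f : ι → List Bool → ℕ) :
    BS k (fun w => ∑ i ∈ s, f i w) = ∑ i ∈ s, BS k (f i) := by
  unfold BS
  rw [sum_comm]

lemma BS_append (a b : ℕ) : ∀ f : List Bool → ℕ,
    BS (a + b) f = BS a (fun u => BS b (fun v => f (u ++ v))) := by
  induction a with
  | zero =>
    intro f
    rw [zero_add, BS_zero]
    rfl
  | succ a ih =>
    intro f
    have h : a + 1 + b = (a + b) + 1 := by omega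
    rw [h, BS_succ, BS_succ, ih, ih]
    rfl

lemma sum_range_two_mul (n : ℕ) (f : ℕ → ℕ) :
    ∑ v ∈ range (2 * n), f v = ∑ v ∈ range n, f (2 * v) + ∑ v ∈ range n, f (2 * v + 1) := by
  induction n with
  | zero => simp
  | succ n ih =>
    have : 2 * (n + 1) = 2 * n + 1 + 1 := by ring
    rw [this, sum_range_succ, sum_range_succ, ih, sum_range_succ, sum_range_succ]
    ring

/-- the little-endian value is uniform -/
lemma BS_val (b : ℕ) : ∀ f : ℕ → ℕ, BS b (fun w => f (valB w)) = ∑ v ∈ range (2 ^ b), f v := by
  induction b with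
  | zero =>
    intro f
    rw [BS_zero]
    simp
  | succ b ih =>
    intro f
    rw [BS_succ, pow_succ, mul_comm (2 ^ b) 2, sum_range_two_mul]
    have h1 := ih (fun v => f (2 * v))
    have h2 := ih (fun v => f (2 * v + 1))
    rw [← h1, ← h2]
    congr 1
    · apply BS_congr
      intro w _
      simp
    · apply BS_congr
      intro w _
      simp [add_comm]

/-- the big-endian value -/
def valE (w : List Bool) : ℕ := valB w.reverse

lemma valE_nil : valE [] = 0 := rfl

lemma valE_append_one (w : List Bool) (c : Bool) :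
    valE (w ++ [c]) = 2 * valE w + (if c then 1 else 0) := by
  unfold valE
  rw [List.reverse_append, List.reverse_singleton, List.singleton_append, valB_cons]
  ring

lemma valE_cons (c : Bool) (w : List Bool) :
    valE (c :: w) = 2 ^ w.length * (if c then 1 else 0) + valE w := by
  unfold valE
  rw [List.reverse_cons, valB_append, List.length_reverse]
  cases c <;> simp <;> ring

lemma valE_lt (w : List Bool) : valE w < 2 ^ w.length := by
  unfold valE
  have := valB_lt w.reverse
  rwa [List.length_reverse] at this

/-- the big-endian value is uniform -/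
lemma BS_valE (b : ℕ) : ∀ f : ℕ → ℕ, BS b (fun w => f (valE w)) = ∑ v ∈ range (2 ^ b), f v := by
  induction b with
  | zero =>
    intro f
    rw [BS_zero]
    simp [valE_nil]
  | succ b ih =>
    intro f
    have h0 : 2 ^ (b + 1) = 2 ^ b + 2 ^ b := by ring
    rw [BS_succ, h0, sum_range_add]
    have h1 := ih f
    have h2 := ih (fun v => f (2 ^ b + v))
    rw [← h1, ← h2]
    congr 1
    · apply BS_congr
      intro w _
      rw [valE_cons]
      simp
    · apply BS_congr
      intro w hw
      rw [valE_cons, hw]
      simp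

/-- the number of bit strings of length `k` with a property -/
lemma card_filter_eq_BS (k : ℕ) (p : List Bool → Prop) [DecidablePred p] :
    ((univ : Finset (Fin k → Bool)).filter (fun w => p (List.ofFn w))).card =
      BS k (fun w => if p w then 1 else 0) := by
  unfold BS
  rw [card_filter]

end Pool.Agent.Q330.MS
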