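import Mathlib
import Pool.Agent.NPC.Dec
import Pool.Agent.Q330.MS.Count

set_option autoImplicit false

/-!
# The algorithm

A system `S` consists, for every input `x`, of a number `S.m x` of elements and of an independence
oracle `S.I x` on the bit strings of length `S.m x` (characteristic vectors of sets). The algorithm
`D S x w` gets the input `x` and the coin flips `w`; it returns `none` if it has not yet halted
after these coin flips, and `some y` if it has halted with the output `y`.
-/

namespace Pool.Agent.Q330.MS

open Pool.Agent.NPC

/-- a family of independence oracles, computable in polynomial time -/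
structure Sys (X : Type) [TEnc X] where
  m : X → ℕ
  I : X → List Bool → Bool
  um : UPoly m
  pI : Poly (fun p : X × List Bool => I p.1 p.2)

variable {X : Type} [TEnc X] (S : Sys X)

/-- insert an element -/
def setT (m : ℕ) (y : List Bool) (j : ℕ) : List Bool :=
  (List.range m).map (fun k => bif decide (k = j) then true else y.getD k false)

/-- remove the element `i` and insert the element `j` -/
def mv (m : ℕ) (y : List Bool) (i j : ℕ) : List Bool :=
  (List.range m).map (fun k => bif decide (k = j) then true else
    bif decide (k = i) then false else y.getD k false)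

/-- a basis found by the greedy algorithm -/
def Sys.greedy (x : X) : List Bool :=
  (List.range (S.m x)).foldl (fun y j => bif S.I x (setT (S.m x) y j) then setT (S.m x) y j else y)
    (setT (S.m x) [] (S.m x))

/-- the number of elements -/
def cntT (y : List Bool) : ℕ := (y.filter (fun b => b)).length

/-- the basis oracle -/
def Sys.O (x : X) (y : List Bool) : Bool :=
  decide (y.length = S.m x) && (S.I x y && decide (cntT y = cntT (S.greedy x)))

/-- one step of the walk -/
def Sys.step (x : X) (y : List Bool) (i j : ℕ) : List Bool :=
  bif (y.getD i false && !(y.getD j false)) && (decide (j < S.m x) && S.O x (mv (S.m x) y i j))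
    then mv (S.m x) y i j else y

/-- the number of coin flips for an index -/
def Sys.b (x : X) : ℕ := (2 * S.m x).bits.length

/-- the number of indices -/
def Sys.N (x : X) : ℕ := 2 ^ S.b x

/-- the number of trigger bits -/
def Sys.K (x : X) : ℕ := (S.m x + 1) ^ 2

/-- the number of steps -/
def Sys.t (x : X) : ℕ := 2 * (4 * S.m x + 4) ^ 2 * (S.K x + S.m x)

/-- the number of coin flips of the walk -/
def Sys.R (x : X) : ℕ := S.t x * (2 * S.b x)

/-- the number given by `len` coin flips starting at position `pos` -/
def coin (w : List Bool) (pos len : ℕ) : ℕ :=
  valB ((List.range len).map (fun l => w.getD (pos + l) false))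

/-- the walk -/
def Sys.walkFrom (x : X) (w : List Bool) (y : List Bool) (n : ℕ) : List Bool :=
  (List.range n).foldl (fun y s => S.step x y (coin w (s * (2 * S.b x)) (S.b x))
    (coin w (s * (2 * S.b x) + S.b x) (S.b x))) y

/-- the result of the walk -/
def Sys.walk (x : X) (w : List Bool) : List Bool := S.walkFrom x w (S.greedy x) (S.t x)

/-- the bits of a number -/
def mask (m v : ℕ) : List Bool := (List.range m).map (fun i => v.bits.getD i false)

/-- all bases; the list is cut at length `L` -/
def Sys.basesL (x : X) (L : ℕ) : List (List Bool) :=
  ((List.range (min (2 ^ S.m x) L)).map (mask (S.m x))).filter (S.O x)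

/-- the initial table of the numbers of paths -/
def Sys.tab0 (x : X) (L : ℕ) : List (List Bool × ℕ) :=
  (S.basesL x L).map (fun y => (y, bif decide (y = S.greedy x) then 1 else 0))

/-- the contribution of an entry -/
def Sys.contrib (x : X) (y : List Bool) (z : List Bool × ℕ) : List ℕ :=
  (List.range (S.N x)).flatMap (fun i => (List.range (S.N x)).map (fun j =>
    bif decide (S.step x z.1 i j = y) then z.2 else 0))

/-- one step of the table -/
def Sys.tabStep (x : X) (T : List (List Bool × ℕ)) : List (List Bool × ℕ) :=
  T.map (fun e => (e.1, (T.flatMap (S.contrib x e.1)).sum))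

/-- the table of the numbers of paths -/
def Sys.tab (x : X) (L : ℕ) : List (List Bool × ℕ) := (S.tabStep x)^[S.t x] (S.tab0 x L)

/-- the remaining weight of a basis -/
def Sys.wt (x : X) (M k : ℕ) : ℕ := 2 ^ (S.R x + S.K x) - (2 ^ S.K x - 1) * k * M

/-- the test whether the dyadic interval `[v, v + 1] / P` lies in the interval `[A, A + a] / Z` -/
def inside (A a v P Z : ℕ) : Bool := decide (A * P ≤ v * Z) && decide ((v + 1) * Z ≤ (A + a) * P)

/-- the search for the interval -/
def findStep (v P Z : ℕ) (s : ℕ × Option (List Bool)) (e : List Bool × ℕ) :
    ℕ × Option (List Bool) :=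
  (s.1 + e.2, bif s.2.isSome then s.2 else bif inside s.1 e.2 v P Z then some e.1 else none)

/-- the search for the interval -/
def find (v P Z : ℕ) (T : List (List Bool × ℕ)) : Option (List Bool) :=
  (T.foldl (findStep v P Z) (0, none)).2

/-- the table of weights -/
def Sys.wtab (x : X) (L : ℕ) : List (List Bool × ℕ) :=
  (S.tab x L).map (fun e => (e.1, S.wt x (S.basesL x L).length e.2))

/-- the coin flips after the first `R + K` ones -/
def Sys.rest (x : X) (w : List Bool) : List Bool :=
  (List.range (w.length - (S.R x + S.K x))).map (fun l => w.getD (S.R x + S.K x + l) false)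

/-- the output in the exceptional case -/
def Sys.res (x : X) (w : List Bool) : Option (List Bool) :=
  find (valE (S.rest x w)) (2 ^ (w.length - (S.R x + S.K x)))
    ((S.basesL x w.length).length * 2 ^ S.R x) (S.wtab x w.length)

/-- whether one of the trigger bits is `true` -/
def Sys.trig (x : X) (w : List Bool) : Bool :=
  ((List.range (S.K x)).map (fun l => w.getD (S.R x + l) false)).any (fun b => b)

/-- **The algorithm.** -/
def Sys.D (x : X) (w : List Bool) : Option (List Bool) :=
  bif decide (w.length < S.R x + S.K x) then none else
    bif S.trig x w then some (S.walk x w) else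
      bif decide (w.length < 2 ^ S.m x) then none else S.res x w

end Pool.Agent.Q330.MS
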