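import Mathlib
import Pool.Agent.Q330.MS.Code

set_option autoImplicit false

/-!
# The algorithm runs in polynomial time
-/

namespace Pool.Agent.Q330.MS

open Pool.Agent.NPC Pool.Agent.NPC.Poly

section General

variable {α β γ : Type} [TEnc α] [TEnc β] [TEnc γ]

lemma poly_two_pow {n : α → ℕ} (hn : UPoly n) : Poly (fun a => 2 ^ n a) := by
  have h1 : Poly (fun a => valB (List.replicate (n a) false ++ [true])) := by
    apply valBits
    apply append _ (const _)
    have h2 : Poly (fun a => (List.replicate (n a) ()).map (fun _ => false)) :=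
      map hn (const _)
    exact h2.congr fun a => by simp
  exact h1.congr fun a => by rw [valB_replicate_false]; simp

lemma upoly_pow {n : α → ℕ} (hn : UPoly n) (k : ℕ) : UPoly (fun a => n a ^ k) :=
  (hn.eval (Polynomial.X ^ k)).congr fun a => by simp

lemma upoly_congr {m n : α → ℕ} (hn : UPoly n) (h : ∀ a, n a = m a) : UPoly m :=
  Poly.congr hn fun a => by rw [h]

lemma poly_isSome {o : α → Option β} (ho : Poly o) : Poly (fun a => (o a).isSome) :=
  Poly.isSome ho

lemma sz_map_le {δ : Type} [TEnc δ] (l : List β) (f : β → δ) (B : ℕ) (h : ∀ a ∈ l, sz (f a) ≤ B) :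
    sz (l.map f) ≤ l.length * (B + 1) + 1 := by
  have := sz_le_length_mul (l.map f) B (by
    intro a ha
    rw [List.mem_map] at ha
    obtain ⟨b, hb, rfl⟩ := ha
    exact h b hb)
  rwa [List.length_map] at this

end General

variable {X : Type} [TEnc X] (S : Sys X) {α : Type} [TEnc α]

lemma poly_setT {m : α → ℕ} {y : α → List Bool} {j : α → ℕ} (hm : UPoly m) (hy : Poly y)
    (hj : Poly j) : Poly (fun a => setT (m a) (y a) (j a)) := by
  unfold setT
  apply map (F := fun a k => bif decide (k = j a) then true else (y a).getD k false) hm.range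
  apply Poly.cond
  · exact decide_eq (snd id) (hj.comp (fst id))
  · exact const _
  · exact getD (hy.comp (fst id)) (snd id) (const _)

lemma poly_mv {m : α → ℕ} {y : α → List Bool} {i j : α → ℕ} (hm : UPoly m) (hy : Poly y)
    (hi : Poly i) (hj : Poly j) : Poly (fun a => mv (m a) (y a) (i a) (j a)) := by
  unfold mv
  apply map (F := fun a k => bif decide (k = j a) then true else
    bif decide (k = i a) then false else (y a).getD k false) hm.range
  apply Poly.cond
  · exact decide_eq (snd id) (hj.comp (fst id))
  · exact const _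
  · apply Poly.cond
    · exact decide_eq (snd id) (hi.comp (fst id))
    · exact const _
    · exact getD (hy.comp (fst id)) (snd id) (const _)

lemma length_setT (m : ℕ) (y : List Bool) (j : ℕ) : (setT m y j).length = m := by
  simp [setT]

lemma length_mv (m : ℕ) (y : List Bool) (i j : ℕ) : (mv m y i j).length = m := by
  simp [mv]

lemma Sys.greedy_aux (x : X) (l : List ℕ) (y : List Bool) (hy : y.length = S.m x) :
    (l.foldl (fun y j => bif S.I x (setT (S.m x) y j) then setT (S.m x) y j else y) y).length =
      S.m x := by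
  induction l generalizing y with
  | nil => exact hy
  | cons j l ih =>
    rw [List.foldl_cons]
    apply ih
    cases S.I x (setT (S.m x) y j)
    · exact hy
    · exact length_setT _ _ _

lemma Sys.length_greedy (x : X) : (S.greedy x).length = S.m x :=
  S.greedy_aux x _ _ (length_setT _ _ _)

lemma Sys.poly_greedy : Poly S.greedy := by
  obtain ⟨q, hq⟩ := S.um.sz_le
  unfold Sys.greedy
  apply foldl (l := fun x => List.range (S.m x)) (s := fun x => setT (S.m x) [] (S.m x))
    (F := fun x y j => bif S.I x (setT (S.m x) y j) then setT (S.m x) y j else y) S.um.range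
    (poly_setT S.um (const _) S.um.toPoly) _ (Polynomial.C 4 * q + Polynomial.C 1)
  · intro x k _
    refine (sz_listBool_le _).trans ?_
    rw [S.greedy_aux x _ _ (length_setT _ _ _)]
    have h1 := hq x
    have h2 := length_lt_sz (List.replicate (S.m x) ())
    rw [List.length_replicate] at h2
    simp only [Polynomial.eval_add, Polynomial.eval_mul, Polynomial.eval_C]
    omega
  · have hset : Poly (fun p : X × List Bool × ℕ => setT (S.m p.1) p.2.1 p.2.2) :=
      poly_setT (S.um.comp (fst id)) (fst (snd id)) (snd (snd id))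
    apply Poly.cond
    · exact S.pI.comp (pair (fst id) hset)
    · exact hset
    · exact fst (snd id)

lemma poly_cntT {y : α → List Bool} (hy : Poly y) : Poly (fun a => cntT (y a)) := by
  unfold cntT
  exact length (filter (p := fun _ b => b) hy (snd id))

lemma Sys.poly_O {x : α → X} {y : α → List Bool} (hx : Poly x) (hy : Poly y) :
    Poly (fun a => S.O (x a) (y a)) := by
  unfold Sys.O
  apply Poly.and
  · exact decide_eq (length hy) (S.um.toPoly.comp hx)
  · apply Poly.and
    · exact S.pI.comp (pair hx hy)
    · exact decide_eq (poly_cntT hy) (poly_cntT (S.poly_greedy.comp hx))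

lemma Sys.poly_step {x : α → X} {y : α → List Bool} {i j : α → ℕ} (hx : Poly x) (hy : Poly y)
    (hi : Poly i) (hj : Poly j) : Poly (fun a => S.step (x a) (y a) (i a) (j a)) := by
  have hmv := poly_mv (S.um.comp hx) hy hi hj
  unfold Sys.step
  apply Poly.cond _ hmv hy
  apply Poly.and
  · exact and (getD hy hi (const _)) (not (getD hy hj (const _)))
  · exact and (decide_lt hj (S.um.toPoly.comp hx)) (S.poly_O hx hmv)

lemma Sys.upoly_b : UPoly S.b := by
  unfold Sys.b
  exact UPoly.length (natBits (mul (const 2) S.um.toPoly))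

lemma Sys.N_le (x : X) : S.N x ≤ 4 * S.m x + 1 := by
  unfold Sys.N Sys.b
  rw [Nat.size_eq_bits_len]
  rcases Nat.eq_zero_or_pos (S.m x) with h | h
  · rw [h]
    simp
  · have h1 : (2 * S.m x).size ≠ 0 := by
      rw [Ne, Nat.size_eq_zero]
      omega
    obtain ⟨k, hk⟩ := Nat.exists_eq_succ_of_ne_zero h1
    have h2 : 2 ^ k ≤ 2 * S.m x := Nat.lt_size.1 (by omega)
    rw [hk, pow_succ]
    omega

lemma Sys.upoly_N : UPoly S.N := by
  apply UPoly.of_le (n := fun x => 4 * S.m x + 1)
  · exact poly_two_pow S.upoly_b
  · exact UPoly.add (UPoly.mul (UPoly.const 4) S.um) (UPoly.const 1)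
  · exact S.N_le

lemma Sys.upoly_K : UPoly S.K := upoly_pow (UPoly.add S.um (UPoly.const 1)) 2

lemma Sys.upoly_t : UPoly S.t :=
  UPoly.mul (UPoly.mul (UPoly.const 2) (upoly_pow (UPoly.add (UPoly.mul (UPoly.const 4) S.um)
    (UPoly.const 4)) 2)) (UPoly.add S.upoly_K S.um)

lemma Sys.upoly_R : UPoly S.R := UPoly.mul S.upoly_t (UPoly.mul (UPoly.const 2) S.upoly_b)

lemma poly_coin {w : α → List Bool} {pos len : α → ℕ} (hw : Poly w) (hpos : Poly pos)
    (hlen : UPoly len) : Poly (fun a => coin (w a) (pos a) (len a)) := by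
  unfold coin
  apply valBits
  apply map (F := fun a l => (w a).getD (pos a + l) false) hlen.range
  exact getD (hw.comp (fst id)) (add (hpos.comp (fst id)) (snd id)) (const _)

lemma Sys.length_step (x : X) (y : List Bool) (i j : ℕ) (hy : y.length = S.m x) :
    (S.step x y i j).length = S.m x := by
  unfold Sys.step
  cases (y.getD i false && !(y.getD j false)) && (decide (j < S.m x) && S.O x (mv (S.m x) y i j))
  · exact hy
  · exact length_mv _ _ _ _

lemma Sys.length_walkFrom (x : X) (w y : List Bool) (n : ℕ) (hy : y.length = S.m x) :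
    (S.walkFrom x w y n).length = S.m x := by
  unfold Sys.walkFrom
  induction n with
  | zero => exact hy
  | succ n ih =>
    rw [List.range_succ, List.foldl_append, List.foldl_cons, List.foldl_nil]
    exact S.length_step x _ _ _ ih

lemma Sys.poly_walk : Poly (fun p : X × List Bool => S.walk p.1 p.2) := by
  obtain ⟨q, hq⟩ := S.um.sz_le
  unfold Sys.walk Sys.walkFrom
  apply foldl (l := fun p : X × List Bool => List.range (S.t p.1)) (s := fun p => S.greedy p.1)
    (F := fun p y s => S.step p.1 y (coin p.2 (s * (2 * S.b p.1)) (S.b p.1))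
      (coin p.2 (s * (2 * S.b p.1) + S.b p.1) (S.b p.1)))
    (S.upoly_t.comp (fst id)).range (S.poly_greedy.comp (fst id)) _
    (Polynomial.C 4 * q.comp Polynomial.X + Polynomial.C 1)
  · intro p k hk
    rw [List.length_range] at hk
    rw [List.take_range, min_eq_left hk]
    refine (sz_listBool_le _).trans ?_
    have h3 := S.length_walkFrom p.1 p.2 (S.greedy p.1) k (S.length_greedy p.1)
    unfold Sys.walkFrom at h3
    rw [h3]
    have h1 := hq p.1
    have h2 := length_lt_sz (List.replicate (S.m p.1) ())
    rw [List.length_replicate] at h2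
    have h4 : sz p.1 ≤ sz p := by
      have : sz p = sz p.1 + sz p.2 + 1 := sz_pair p.1 p.2
      omega
    have h5 := eval_mono q h4
    simp only [Polynomial.eval_add, Polynomial.eval_mul, Polynomial.eval_C, Polynomial.eval_comp,
      Polynomial.eval_X]
    omega
  · have hb : UPoly (fun p : (X × List Bool) × List Bool × ℕ => S.b p.1.1) :=
      S.upoly_b.comp (fst (fst id))
    have hw : Poly (fun p : (X × List Bool) × List Bool × ℕ => p.1.2) := snd (fst id)
    have hs : Poly (fun p : (X × List Bool) × List Bool × ℕ => p.2.2 * (2 * S.b p.1.1)) :=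
      mul (snd (snd id)) (mul (const 2) hb.toPoly)
    exact S.poly_step (fst (fst id)) (fst (snd id)) (poly_coin hw hs hb)
      (poly_coin hw (add hs hb.toPoly) hb)

lemma poly_mask {m v : α → ℕ} (hm : UPoly m) (hv : Poly v) : Poly (fun a => mask (m a) (v a)) := by
  unfold mask
  apply map (F := fun a i => (v a).bits.getD i false) hm.range
  exact getD ((natBits hv).comp (fst id)) (snd id) (const _)

lemma Sys.poly_basesL {x : α → X} {L : α → ℕ} (hx : Poly x) (hL : UPoly L) :
    Poly (fun a => S.basesL (x a) (L a)) := by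
  unfold Sys.basesL
  have hm : UPoly (fun a => S.m (x a)) := S.um.comp hx
  have h1 : UPoly (fun a => min (2 ^ S.m (x a)) (L a)) :=
    UPoly.of_le (min (poly_two_pow hm) hL.toPoly) hL (fun a => min_le_right _ _)
  apply filter (p := fun a y => S.O (x a) y)
  · apply map (F := fun a v => mask (S.m (x a)) v) h1.range
    exact poly_mask (hm.comp (fst id)) (snd id)
  · exact S.poly_O (hx.comp (fst id)) (snd id)

lemma Sys.poly_tab0 {x : α → X} {L : α → ℕ} (hx : Poly x) (hL : UPoly L) :
    Poly (fun a => S.tab0 (x a) (L a)) := by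
  unfold Sys.tab0
  apply map (F := fun a y => (y, bif decide (y = S.greedy (x a)) then 1 else 0))
    (S.poly_basesL hx hL)
  apply pair (snd id)
  apply Poly.cond _ (const 1) (const 0)
  exact decide_eq (snd id) ((S.poly_greedy.comp hx).comp (fst id))

lemma Sys.poly_contrib {x : α → X} {y : α → List Bool} {z : α → List Bool × ℕ} (hx : Poly x)
    (hy : Poly y) (hz : Poly z) : Poly (fun a => S.contrib (x a) (y a) (z a)) := by
  unfold Sys.contrib
  have hN : UPoly (fun a => S.N (x a)) := S.upoly_N.comp hx
  apply flatMap (F := fun a i => (List.range (S.N (x a))).map (fun j =>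
    bif decide (S.step (x a) (z a).1 i j = y a) then (z a).2 else 0)) hN.range
  apply map (F := fun (p : α × ℕ) j =>
    bif decide (S.step (x p.1) (z p.1).1 p.2 j = y p.1) then (z p.1).2 else 0)
    (hN.comp (fst id)).range
  apply Poly.cond
  · apply decide_eq
    · exact S.poly_step (hx.comp (fst (fst id))) ((fst hz).comp (fst (fst id))) (snd (fst id))
        (snd id)
    · exact hy.comp (fst (fst id))
  · exact (snd hz).comp (fst (fst id))
  · exact const 0

lemma Sys.poly_tabStep {x : α → X} {T : α → List (List Bool × ℕ)} (hx : Poly x) (hT : Poly T) :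
    Poly (fun a => S.tabStep (x a) (T a)) := by
  unfold Sys.tabStep
  apply map (F := fun a e => (e.1, ((T a).flatMap (S.contrib (x a) e.1)).sum)) hT
  apply pair (fst (snd id))
  apply sum
  apply flatMap (F := fun (p : α × List Bool × ℕ) z => S.contrib (x p.1) p.2.1 z)
    (hT.comp (fst id))
  exact S.poly_contrib (hx.comp (fst (fst id))) (fst (snd (fst id))) (snd id)

/-- invariant of the tables -/
def TabOK (m L B : ℕ) (T : List (List Bool × ℕ)) : Prop :=
  T.length ≤ L ∧ ∀ e ∈ T, e.1.length = m ∧ e.2 ≤ B

lemma Sys.tabOK_step (x : X) {L B : ℕ} {T : List (List Bool × ℕ)} (h : TabOK (S.m x) L B T) :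
    TabOK (S.m x) L (L * (S.N x * S.N x) * B) (S.tabStep x T) := by
  obtain ⟨h1, h2⟩ := h
  unfold Sys.tabStep
  refine ⟨by rw [List.length_map]; exact h1, ?_⟩
  intro e he
  rw [List.mem_map] at he
  obtain ⟨e', he', rfl⟩ := he
  refine ⟨(h2 e' he').1, ?_⟩
  have h3 : ∀ n ∈ T.flatMap (S.contrib x e'.1), n ≤ B := by
    intro n hn
    rw [List.mem_flatMap] at hn
    obtain ⟨z, hz, hn⟩ := hn
    unfold Sys.contrib at hn
    rw [List.mem_flatMap] at hn
    obtain ⟨i, _, hn⟩ := hn
    rw [List.mem_map] at hn
    obtain ⟨j, _, rfl⟩ := hn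
    cases decide (S.step x z.1 i j = e'.1)
    · exact Nat.zero_le _
    · exact (h2 z hz).2
  have h4 : (T.flatMap (S.contrib x e'.1)).length = T.length * (S.N x * S.N x) := by
    rw [List.length_flatMap]
    have : (T.map (fun a => (S.contrib x e'.1 a).length)) = T.map (fun _ => S.N x * S.N x) := by
      apply List.map_congr_left
      intro z _
      unfold Sys.contrib
      simp
    rw [this]
    simp
  have h5 := List.sum_le_card_nsmul _ _ h3
  rw [h4, smul_eq_mul] at h5
  exact h5.trans (Nat.mul_le_mul_right _ (Nat.mul_le_mul_right _ h1))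

lemma Sys.tabOK_0 (x : X) (L : ℕ) : TabOK (S.m x) L 1 (S.tab0 x L) := by
  unfold Sys.tab0
  constructor
  · rw [List.length_map]
    unfold Sys.basesL
    refine (List.length_filter_le _ _).trans ?_
    rw [List.length_map, List.length_range]
    exact min_le_right _ _
  · intro e he
    rw [List.mem_map] at he
    obtain ⟨y, hy, rfl⟩ := he
    constructor
    · unfold Sys.basesL at hy
      rw [List.mem_filter, List.mem_map] at hy
      obtain ⟨⟨v, _, rfl⟩, _⟩ := hy
      simp [mask]
    · cases decide (y = S.greedy x)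
      · exact Nat.zero_le _
      · exact le_rfl

lemma Sys.tabOK_iter (x : X) (L k : ℕ) :
    TabOK (S.m x) L ((L * (S.N x * S.N x)) ^ k) ((S.tabStep x)^[k] (S.tab0 x L)) := by
  induction k with
  | zero => exact S.tabOK_0 x L
  | succ k ih =>
    rw [Function.iterate_succ_apply', pow_succ, mul_comm ((L * (S.N x * S.N x)) ^ k)]
    exact S.tabOK_step x ih

lemma TabOK.sz_le {m L C : ℕ} {T : List (List Bool × ℕ)} (h : TabOK m L (2 ^ C) T) :
    sz T ≤ L * (4 * m + 4 * C + 10) + 1 := by
  have h1 := sz_le_length_mul T (4 * m + 4 * C + 9) (by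
    intro e he
    obtain ⟨h2, h3⟩ := h.2 e he
    have h4 := sz_listBool_le e.1
    have h5 := sz_nat_le e.2
    have h60 : 0 < 2 ^ C := by positivity
    have h6 : e.2.size ≤ C + 1 := Nat.size_le.2 (by rw [pow_succ]; omega)
    have h7 : sz e = sz e.1 + sz e.2 + 1 := sz_pair e.1 e.2
    omega)
  exact h1.trans (Nat.add_le_add_right (Nat.mul_le_mul_right _ h.1) 1)

lemma Sys.poly_tab {x : α → X} {L : α → ℕ} (hx : Poly x) (hL : UPoly L) :
    Poly (fun a => S.tab (x a) (L a)) := by
  unfold Sys.tab
  have ht : UPoly (fun a => S.t (x a)) := S.upoly_t.comp hx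
  have hm : UPoly (fun a => S.m (x a)) := S.um.comp hx
  have hb : UPoly (fun a => S.b (x a)) := S.upoly_b.comp hx
  -- a bound for the sizes
  have hU : UPoly (fun a => L a * (4 * S.m (x a) + 4 * ((L a + 2 * S.b (x a)) * S.t (x a)) + 10)
      + 1) :=
    UPoly.add (UPoly.mul hL (UPoly.add (UPoly.add (UPoly.mul (UPoly.const 4) hm)
      (UPoly.mul (UPoly.const 4) (UPoly.mul (UPoly.add hL (UPoly.mul (UPoly.const 2) hb)) ht)))
      (UPoly.const 10))) (UPoly.const 1)
  obtain ⟨q, hq⟩ := hU.sz_le
  have h1 := iterLen (l := fun a => List.replicate (S.t (x a)) ()) (s := fun a => S.tab0 (x a) (L a))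
    (F := fun a T => S.tabStep (x a) T) ht (S.poly_tab0 hx hL)
    (S.poly_tabStep (hx.comp (fst id)) (snd id)) q (by
      intro a k hk
      rw [List.length_replicate] at hk
      have h2 := S.tabOK_iter (x a) (L a) k
      have h3 : (L a * (S.N (x a) * S.N (x a))) ^ k ≤ 2 ^ ((L a + 2 * S.b (x a)) * S.t (x a)) := by
        have h4 : L a ≤ 2 ^ L a := Nat.lt_two_pow_self.le
        calc (L a * (S.N (x a) * S.N (x a))) ^ k ≤
            (2 ^ L a * (S.N (x a) * S.N (x a))) ^ k :=
              Nat.pow_le_pow_left (Nat.mul_le_mul_right _ h4) _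
          _ = 2 ^ ((L a + 2 * S.b (x a)) * k) := by
              unfold Sys.N
              rw [← pow_add, ← pow_add, ← pow_mul]
              congr 1
              ring
          _ ≤ _ := Nat.pow_le_pow_right (by norm_num) (Nat.mul_le_mul_left _ hk)
      have h5 : TabOK (S.m (x a)) (L a) (2 ^ ((L a + 2 * S.b (x a)) * S.t (x a)))
          ((S.tabStep (x a))^[k] (S.tab0 (x a) (L a))) :=
        ⟨h2.1, fun e he => ⟨(h2.2 e he).1, (h2.2 e he).2.trans h3⟩⟩
      refine h5.sz_le.trans (le_trans ?_ (hq a))
      have h6 := length_lt_sz (List.replicate (L a * (4 * S.m (x a) + 4 * ((L a + 2 * S.b (x a)) *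
        S.t (x a)) + 10) + 1) ())
      rw [List.length_replicate] at h6
      exact h6.le)
  exact h1.congr fun a => by rw [List.length_replicate]

lemma poly_inside {A a v P Z : α → ℕ} (hA : Poly A) (ha : Poly a) (hv : Poly v) (hP : Poly P)
    (hZ : Poly Z) : Poly (fun x => inside (A x) (a x) (v x) (P x) (Z x)) := by
  unfold inside
  exact and (decide_le (mul hA hP) (mul hv hZ))
    (decide_le (mul (succ hv) hZ) (mul (add hA ha) hP))

lemma findStep_key (v P Z : ℕ) : ∀ (T : List (List Bool × ℕ)) (s : ℕ × Option (List Bool)),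
    (T.foldl (findStep v P Z) s).1 = s.1 + (T.map Prod.snd).sum ∧
    ((T.foldl (findStep v P Z) s).2 = s.2 ∨
      ∃ e ∈ T, (T.foldl (findStep v P Z) s).2 = some e.1) := by
  intro T
  induction T with
  | nil => intro s; exact ⟨by simp, Or.inl rfl⟩
  | cons e T ih =>
    intro s
    rw [List.foldl_cons]
    obtain ⟨h1, h2⟩ := ih (findStep v P Z s e)
    constructor
    · rw [h1, List.map_cons, List.sum_cons]
      simp only [findStep]
      ring
    · rcases h2 with h2 | ⟨e', he', h2⟩
      · rw [h2]
        simp only [findStep]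
        cases h : s.2.isSome
        · cases h' : inside s.1 e.2 v P Z
          · left
            rw [Option.isSome_eq_false_iff, Option.isNone_iff_eq_none] at h
            simp [h]
          · right
            exact ⟨e, List.mem_cons_self, by simp⟩
        · left
          simp
      · right
        exact ⟨e', List.mem_cons_of_mem _ he', h2⟩

lemma sz_sum_le (l : List ℕ) : sz l.sum ≤ 4 * sz l + 1 := by
  have key : ∀ l : List ℕ, l.sum.size ≤ sz l := by
    intro l
    induction l with
    | nil => simp
    | cons x l ih =>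
      rw [List.sum_cons]
      have h1 := Nat.lt_size_self x
      have h2 := Nat.lt_size_self l.sum
      have h3 : x + l.sum < 2 ^ (x.size + l.sum.size + 1) := by
        have h4 : 2 ^ x.size ≤ 2 ^ (x.size + l.sum.size) := Nat.pow_le_pow_right (by norm_num)
          (by omega)
        have h5 : 2 ^ l.sum.size ≤ 2 ^ (x.size + l.sum.size) := Nat.pow_le_pow_right (by norm_num)
          (by omega)
        rw [pow_succ]
        omega
      have h4 := Nat.size_le.2 h3
      have h5 := size_le_sz x
      simp
      omega
  have := sz_nat_le l.sum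
  have := key l
  omega

lemma sz_map_snd_le (T : List (List Bool × ℕ)) : sz (T.map Prod.snd) ≤ sz T := by
  induction T with
  | nil => simp
  | cons e T ih =>
    have : sz e = sz e.1 + sz e.2 + 1 := sz_pair e.1 e.2
    simp
    omega

lemma poly_find {v P Z : α → ℕ} {T : α → List (List Bool × ℕ)} (hv : Poly v) (hP : Poly P)
    (hZ : Poly Z) (hT : Poly T) : Poly (fun a => find (v a) (P a) (Z a) (T a)) := by
  unfold find
  obtain ⟨q, hq⟩ := hT.sz_le
  apply snd
  apply foldl (l := T) (s := fun _ => ((0, none) : ℕ × Option (List Bool)))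
    (F := fun a s e => findStep (v a) (P a) (Z a) s e) hT (const _) _
    (Polynomial.C 6 * q + Polynomial.C 10)
  · intro a k _
    obtain ⟨h1, h2⟩ := findStep_key (v a) (P a) (Z a) ((T a).take k) (0, none)
    set s := ((T a).take k).foldl (findStep (v a) (P a) (Z a)) (0, none) with hs
    have h3 : sz s = sz s.1 + sz s.2 + 1 := sz_pair s.1 s.2
    have h4 : sz s.1 ≤ 4 * q.eval (sz a) + 1 := by
      rw [h1, zero_add]
      refine (sz_sum_le _).trans ?_
      have h5 := sz_map_snd_le ((T a).take k)
      have h6 := sz_take_le (T a) k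
      have h7 := hq a
      omega
    have h5 : sz s.2 ≤ q.eval (sz a) + 5 := by
      rcases h2 with h2 | ⟨e, he, h2⟩
      · rw [h2]
        simp
      · rw [h2]
        have h6 := sz_le_of_mem he
        have h7 := sz_take_le (T a) k
        have h8 := hq a
        have h9 : sz e = sz e.1 + sz e.2 + 1 := sz_pair e.1 e.2
        simp
        omega
    simp only [Polynomial.eval_add, Polynomial.eval_mul, Polynomial.eval_C]
    have h6 : sz (((T a).take k).foldl (fun s e => findStep (v a) (P a) (Z a) s e) (0, none)) =
      sz s := rfl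
    omega
  · unfold findStep
    apply pair
    · exact add (fst (fst (snd id))) (snd (snd (snd id)))
    · apply Poly.cond
      · exact poly_isSome (snd (fst (snd id)))
      · exact snd (fst (snd id))
      · apply Poly.cond
        · exact poly_inside (fst (fst (snd id))) (snd (snd (snd id))) (hv.comp (fst id))
            (hP.comp (fst id)) (hZ.comp (fst id))
        · exact some (fst (snd (snd id)))
        · exact const _

lemma Sys.poly_wt {x : α → X} {M k : α → ℕ} (hx : Poly x) (hM : Poly M) (hk : Poly k) :
    Poly (fun a => S.wt (x a) (M a) (k a)) := by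
  unfold Sys.wt
  have hR : UPoly (fun a => S.R (x a)) := S.upoly_R.comp hx
  have hK : UPoly (fun a => S.K (x a)) := S.upoly_K.comp hx
  exact sub (poly_two_pow (UPoly.add hR hK)) (mul (mul (sub (poly_two_pow hK) (const 1)) hk) hM)

lemma Sys.poly_wtab {x : α → X} {L : α → ℕ} (hx : Poly x) (hL : UPoly L) :
    Poly (fun a => S.wtab (x a) (L a)) := by
  unfold Sys.wtab
  apply map (F := fun a (e : List Bool × ℕ) =>
    (e.1, S.wt (x a) (S.basesL (x a) (L a)).length e.2)) (S.poly_tab hx hL)
  apply pair (fst (snd id))
  exact S.poly_wt (hx.comp (fst id)) ((length (S.poly_basesL hx hL)).comp (fst id))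
    (snd (snd id))

lemma upoly_sub {m n : α → ℕ} (hm : UPoly m) (hn : Poly n) : UPoly (fun a => m a - n a) :=
  UPoly.of_le (sub hm.toPoly hn) hm (fun _ => Nat.sub_le _ _)

lemma Sys.upoly_rest : UPoly (fun p : X × List Bool => p.2.length - (S.R p.1 + S.K p.1)) :=
  upoly_sub (UPoly.length (snd id)) (add (S.upoly_R.comp (fst id)).toPoly
    (S.upoly_K.comp (fst id)).toPoly)

lemma Sys.poly_rest : Poly (fun p : X × List Bool => S.rest p.1 p.2) := by
  unfold Sys.rest
  apply map (F := fun (p : X × List Bool) l => p.2.getD (S.R p.1 + S.K p.1 + l) false)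
    S.upoly_rest.range
  refine getD (snd (fst id)) (add (add ?_ ?_) (snd id)) (const _)
  · exact (S.upoly_R.comp (fst (fst id))).toPoly
  · exact (S.upoly_K.comp (fst (fst id))).toPoly

lemma Sys.poly_res : Poly (fun p : X × List Bool => S.res p.1 p.2) := by
  unfold Sys.res
  have hL : UPoly (fun p : X × List Bool => p.2.length) := UPoly.length (snd id)
  apply poly_find
  · unfold valE
    exact valBits (reverse S.poly_rest)
  · exact poly_two_pow S.upoly_rest
  · exact mul (length (S.poly_basesL (fst id) hL)) (poly_two_pow (S.upoly_R.comp (fst id)))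
  · exact S.poly_wtab (fst id) hL

lemma Sys.poly_trig : Poly (fun p : X × List Bool => S.trig p.1 p.2) := by
  unfold Sys.trig
  apply any (p := fun _ b => b)
  · apply map (F := fun (p : X × List Bool) l => p.2.getD (S.R p.1 + l) false)
      (S.upoly_K.comp (fst id)).range
    exact getD (snd (fst id)) (add (S.upoly_R.comp (fst (fst id))).toPoly (snd id)) (const _)
  · exact snd id

/-- **The algorithm runs in polynomial time.** -/
theorem Sys.poly_D : Poly (fun p : X × List Bool => S.D p.1 p.2) := by
  unfold Sys.D
  have hR : UPoly (fun p : X × List Bool => S.R p.1) := S.upoly_R.comp (fst id)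
  have hK : UPoly (fun p : X × List Bool => S.K p.1) := S.upoly_K.comp (fst id)
  have hm : UPoly (fun p : X × List Bool => S.m p.1) := S.um.comp (fst id)
  apply Poly.cond
  · exact decide_lt (length (snd id)) (add hR.toPoly hK.toPoly)
  · exact const _
  · apply Poly.cond S.poly_trig
    · exact some S.poly_walk
    · apply Poly.cond
      · exact decide_lt (length (snd id)) (poly_two_pow hm)
      · exact const _
      · exact S.poly_res

end Pool.Agent.Q330.MS
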