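import Mathlib

set_option autoImplicit false

/-!
# The linear algebra of the trickle-down argument
-/

namespace Pool.Agent.Q330.MS

open Finset Matrix

variable {α : Type} [Fintype α] [DecidableEq α]

/-- If a symmetric nonnegative matrix `A` with row sums `w` satisfies `A ≤ A W⁻¹ A` and its graph has
diameter at most two, then `A` is negative semidefinite on the orthogonal complement of `w`. -/
theorem trickle (A : α → α → ℝ) (w : α → ℝ) (hsymm : ∀ e f, A e f = A f e)
    (hnn : ∀ e f, 0 ≤ A e f) (hw : ∀ e, w e = ∑ f, A e f)
    (hle : ∀ g : α → ℝ, ∑ e, ∑ f, A e f * g e * g f ≤ ∑ i, (∑ f, A i f * g f) ^ 2 / w i)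
    (hconn : ∀ e f, 0 < w e → 0 < w f → e ≠ f → 0 < A e f ∨ ∃ h, 0 < A e h ∧ 0 < A f h)
    (g : α → ℝ) (hg : ∑ e, w e * g e = 0) : ∑ e, ∑ f, A e f * g e * g f ≤ 0 := by
  have hw0 : ∀ e, 0 ≤ w e := fun e => by rw [hw]; exact sum_nonneg fun f _ => hnn e f
  have hz : ∀ e f, w e = 0 → A e f = 0 := by
    intro e f he
    rw [hw] at he
    exact (sum_eq_zero_iff_of_nonneg (fun f _ => hnn e f)).1 he f (mem_univ f)
  have hz' : ∀ e f, w f = 0 → A e f = 0 := fun e f hf => by rw [hsymm]; exact hz f e hf
  set s : α → ℝ := fun e => Real.sqrt (w e) with hs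
  have hss : ∀ e, s e * s e = w e := fun e => Real.mul_self_sqrt (hw0 e)
  have hs0 : ∀ e, w e ≠ 0 → s e ≠ 0 := fun e he h => he (by rw [← hss, h, zero_mul])
  set N : Matrix α α ℝ := Matrix.of fun e f => A e f / (s e * s f) with hN
  have hH : N.IsHermitian := by
    ext e f
    simp only [Matrix.conjTranspose_apply, hN, Matrix.of_apply, star_trivial]
    rw [hsymm f e, mul_comm (s f)]
  -- the eigenvectors of positive eigenvalues
  have key : ∀ (μ : ℝ) (v : α → ℝ), 0 < μ → N *ᵥ v = μ • v → ∃ κ : ℝ, ∀ e, v e = κ * s e := by
    intro μ v hμ hv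
    have hv' : ∀ e, ∑ f, A e f / (s e * s f) * v f = μ * v e := by
      intro e
      have := congrFun hv e
      simpa [Matrix.mulVec, dotProduct, hN] using this
    have hv0 : ∀ e, w e = 0 → v e = 0 := by
      intro e he
      have h1 := hv' e
      have h2 : ∑ f, A e f / (s e * s f) * v f = 0 := by
        apply sum_eq_zero
        intro f _
        rw [hz e f he]
        simp
      rw [h2] at h1
      rcases mul_eq_zero.1 h1.symm with h | h
      · exact absurd h hμ.ne'
      · exact h
    set u : α → ℝ := fun e => v e / s e with hu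
    have huv : ∀ e, v e = s e * u e := by
      intro e
      by_cases he : w e = 0
      · rw [hv0 e he, hu]
        simp [hv0 e he]
      · simp only [hu]
        field_simp [hs0 e he]
    have hAu : ∀ e, ∑ f, A e f * u f = μ * (w e * u e) := by
      intro e
      by_cases he : w e = 0
      · rw [he, zero_mul, mul_zero]
        apply sum_eq_zero
        intro f _
        rw [hz e f he, zero_mul]
      · have h1 := hv' e
        have h2 : ∑ f, A e f * u f = s e * ∑ f, A e f / (s e * s f) * v f := by
          rw [mul_sum]
          apply sum_congr rfl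
          intro f _
          simp only [hu]
          by_cases hf : w f = 0
          · rw [hz' e f hf]
            simp
          · field_simp [hs0 e he, hs0 f hf]
        rw [h2, h1, huv e, ← hss]
        ring
    have hE : ∑ e, ∑ f, A e f * u e * u f = μ * ∑ e, w e * u e ^ 2 := by
      rw [mul_sum]
      apply sum_congr rfl
      intro e _
      have : ∑ f, A e f * u e * u f = u e * ∑ f, A e f * u f := by
        rw [mul_sum]
        exact sum_congr rfl fun f _ => by ring
      rw [this, hAu]
      ring
    have hR : ∑ i, (∑ f, A i f * u f) ^ 2 / w i = μ ^ 2 * ∑ e, w e * u e ^ 2 := by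
      rw [mul_sum]
      apply sum_congr rfl
      intro e _
      rw [hAu]
      by_cases he : w e = 0
      · rw [he]; simp
      · field_simp
    have hle' := hle u
    rw [hE, hR] at hle'
    set S := ∑ e, w e * u e ^ 2 with hS
    have hS0 : 0 ≤ S := sum_nonneg fun e _ => mul_nonneg (hw0 e) (sq_nonneg _)
    rcases hS0.eq_or_lt with hS1 | hS1
    · -- then `u` vanishes where `w` does not
      refine ⟨0, fun e => ?_⟩
      rw [zero_mul]
      by_cases he : w e = 0
      · exact hv0 e he
      · have h1 := (sum_eq_zero_iff_of_nonneg (fun e _ => mul_nonneg (hw0 e)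
          (sq_nonneg (u e)))).1 hS1.symm e (mem_univ e)
        rcases mul_eq_zero.1 h1 with h | h
        · exact absurd h he
        · rw [huv, pow_eq_zero_iff (by norm_num)] at *
          rw [h, mul_zero]
    · have hμ1 : 1 ≤ μ := by
        by_contra hcon
        push Not at hcon
        have h1 : μ * (1 - μ) * S ≤ 0 := by nlinarith
        have h2 : 0 < μ * (1 - μ) * S := by
          apply mul_pos (mul_pos hμ (by linarith)) hS1
        linarith
      have hD : ∑ e, ∑ f, A e f * (u e - u f) ^ 2 = 2 * (1 - μ) * S := by
        have h1 : ∑ e, ∑ f, A e f * (u e - u f) ^ 2 = ∑ e, ∑ f, A e f * u e ^ 2 +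
            ∑ e, ∑ f, A e f * u f ^ 2 - 2 * ∑ e, ∑ f, A e f * u e * u f := by
          rw [mul_sum, ← sum_add_distrib, ← sum_sub_distrib]
          apply sum_congr rfl
          intro e _
          rw [mul_sum, ← sum_add_distrib, ← sum_sub_distrib]
          exact sum_congr rfl fun f _ => by ring
        have h2 : ∑ e, ∑ f, A e f * u e ^ 2 = S := by
          rw [hS]
          apply sum_congr rfl
          intro e _
          rw [hw, sum_mul]
        have h3 : ∑ e, ∑ f, A e f * u f ^ 2 = S := by
          rw [sum_comm, ← h2]
          exact sum_congr rfl fun e _ => sum_congr rfl fun f _ => by rw [hsymm f e]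
        rw [h1, h2, h3, hE]
        ring
      have hD0 : ∑ e, ∑ f, A e f * (u e - u f) ^ 2 = 0 := by
        apply le_antisymm
        · rw [hD]
          nlinarith
        · exact sum_nonneg fun e _ => sum_nonneg fun f _ => mul_nonneg (hnn e f) (sq_nonneg _)
      have hadj : ∀ e f, 0 < A e f → u e = u f := by
        intro e f hef
        have h1 := (sum_eq_zero_iff_of_nonneg (fun e _ => sum_nonneg fun f _ =>
          mul_nonneg (hnn e f) (sq_nonneg (u e - u f)))).1 hD0 e (mem_univ e)
        have h2 := (sum_eq_zero_iff_of_nonneg (fun f _ =>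
          mul_nonneg (hnn e f) (sq_nonneg (u e - u f)))).1 h1 f (mem_univ f)
        rcases mul_eq_zero.1 h2 with h | h
        · exact absurd h hef.ne'
        · have := (pow_eq_zero_iff (two_ne_zero)).1 h
          linarith
      obtain ⟨e0, he0⟩ : ∃ e0, 0 < w e0 := by
        by_contra hcon
        push Not at hcon
        have : S = 0 := by
          rw [hS]
          apply sum_eq_zero
          intro e _
          rw [le_antisymm (hcon e) (hw0 e), zero_mul]
        exact hS1.ne' this
      refine ⟨u e0, fun e => ?_⟩
      by_cases he : w e = 0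
      · rw [hv0 e he]
        simp [hs, he]
      · have he' : 0 < w e := lt_of_le_of_ne (hw0 e) (Ne.symm he)
        have hue : u e = u e0 := by
          by_cases h : e = e0
          · rw [h]
          · rcases hconn e e0 he' he0 h with h1 | ⟨k, h1, h2⟩
            · exact hadj _ _ h1
            · rw [hadj _ _ h1, hadj _ _ h2]
        rw [huv, hue, mul_comm]
  -- spectral decomposition
  set x : EuclideanSpace ℝ α := WithLp.toLp 2 (fun e => s e * g e) with hx
  set b := hH.eigenvectorBasis with hb
  have hquad : ∑ e, ∑ f, A e f * g e * g f = ∑ j, hH.eigenvalues j * (inner ℝ x (b j)) ^ 2 := by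
    have h1 : ∑ e, ∑ f, A e f * g e * g f =
        inner ℝ x (WithLp.toLp 2 (N *ᵥ (fun e => s e * g e)) : EuclideanSpace ℝ α) := by
      rw [EuclideanSpace.inner_eq_star_dotProduct]
      simp only [dotProduct, Matrix.mulVec, hx, star_trivial, Pi.star_apply]
      apply sum_congr rfl
      intro e _
      rw [sum_mul]
      apply sum_congr rfl
      intro f _
      simp only [hN, Matrix.of_apply]
      by_cases he : w e = 0
      · rw [hz e f he]; simp
      · by_cases hf : w f = 0
        · rw [hz' e f hf]; simp
        · field_simp [hs0 e he, hs0 f hf]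
    rw [h1, ← b.sum_inner_mul_inner]
    apply sum_congr rfl
    intro j _
    have h2 : inner ℝ (b j) (WithLp.toLp 2 (N *ᵥ (fun e => s e * g e)) : EuclideanSpace ℝ α) =
        hH.eigenvalues j * inner ℝ x (b j) := by
      rw [EuclideanSpace.inner_eq_star_dotProduct, EuclideanSpace.inner_eq_star_dotProduct]
      simp only [star_trivial]
      have h3 := hH.mulVec_eigenvectorBasis j
      have h4 : (N *ᵥ (fun e => s e * g e)) ⬝ᵥ (b j).ofLp =
          (fun e => s e * g e) ⬝ᵥ (N *ᵥ (b j).ofLp) := by
        rw [Matrix.dotProduct_mulVec, ← Matrix.mulVec_transpose]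
        congr 2
        exact ((Matrix.conjTranspose_eq_transpose_of_trivial N).symm.trans hH).symm
      rw [h4]
      have h5 : N *ᵥ (b j).ofLp = hH.eigenvalues j • (b j).ofLp := h3
      rw [h5, dotProduct_smul, smul_eq_mul]
      congr 1
      rw [dotProduct_comm]
    rw [h2]
    ring
  rw [hquad]
  apply sum_nonpos
  intro j _
  rcases le_or_gt (hH.eigenvalues j) 0 with h | h
  · exact mul_nonpos_of_nonpos_of_nonneg h (sq_nonneg _)
  · obtain ⟨κ, hκ⟩ := key (hH.eigenvalues j) (b j).ofLp h (hH.mulVec_eigenvectorBasis j)
    have h1 : inner ℝ x (b j) = 0 := by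
      rw [EuclideanSpace.inner_eq_star_dotProduct]
      simp only [dotProduct, star_trivial, hx]
      calc ∑ e, (b j).ofLp e * (s e * g e) = ∑ e, κ * (w e * g e) := by
            apply sum_congr rfl
            intro e _
            rw [hκ, ← hss]
            ring
        _ = κ * ∑ e, w e * g e := by rw [mul_sum]
        _ = 0 := by rw [hg, mul_zero]
    rw [h1]
    simp

end Pool.Agent.Q330.MS
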