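import Mathlib
import Pool.Agent.Q330.MS.Trick

set_option autoImplicit false

/-!
# Matroids given by independent finite sets; numbers of bases
-/

namespace Pool.Agent.Q330.MS

open Finset

/-- A matroid of rank `r` on a finite set, given by its independent sets. -/
structure Mat (α : Type) [DecidableEq α] (r : ℕ) where
  Ind : Finset α → Prop
  empty : Ind ∅
  down : ∀ ⦃A B : Finset α⦄, A ⊆ B → Ind B → Ind A
  exch : ∀ ⦃A B : Finset α⦄, Ind A → Ind B → A.card < B.card → ∃ e ∈ B, e ∉ A ∧ Ind (insert e A)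
  exB : ∃ B, Ind B ∧ B.card = r
  le : ∀ B, Ind B → B.card ≤ r

variable {α : Type} [Fintype α] [DecidableEq α] {r : ℕ} (M : Mat α r)

open Classical in
/-- the bases -/
noncomputable def Mat.bases : Finset (Finset α) := univ.filter (fun B => M.Ind B ∧ B.card = r)

lemma Mat.mem_bases {B : Finset α} : B ∈ M.bases ↔ M.Ind B ∧ B.card = r := by
  classical
  simp [Mat.bases]

/-- the bases containing `T` -/
noncomputable def Mat.up (T : Finset α) : Finset (Finset α) := M.bases.filter (fun B => T ⊆ B)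

lemma Mat.mem_up {T B : Finset α} : B ∈ M.up T ↔ B ∈ M.bases ∧ T ⊆ B := by
  simp [Mat.up]

lemma Mat.extend (T : Finset α) (hT : M.Ind T) : ∃ B ∈ M.bases, T ⊆ B := by
  obtain ⟨k, hk⟩ : ∃ k, k = r - T.card := ⟨_, rfl⟩
  induction k generalizing T with
  | zero =>
    have := M.le T hT
    exact ⟨T, M.mem_bases.2 ⟨hT, by omega⟩, Subset.rfl⟩
  | succ k ih =>
    obtain ⟨B, hB, hB'⟩ := M.exB
    obtain ⟨e, _, he, hI⟩ := M.exch hT hB (by omega)
    obtain ⟨B', h1, h2⟩ := ih (insert e T) hI (by rw [card_insert_of_notMem he]; omega)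
    exact ⟨B', h1, (subset_insert e T).trans h2⟩

/-- the number of bases containing `T` -/
noncomputable def Mat.c (T : Finset α) : ℝ := (M.up T).card

lemma Mat.c_nonneg (T : Finset α) : 0 ≤ M.c T := Nat.cast_nonneg _

lemma Mat.c_pos {T : Finset α} : 0 < M.c T ↔ M.Ind T := by
  unfold Mat.c
  rw [Nat.cast_pos, card_pos]
  constructor
  · rintro ⟨B, hB⟩
    rw [M.mem_up, M.mem_bases] at hB
    exact M.down hB.2 hB.1.1
  · intro h
    obtain ⟨B, h1, h2⟩ := M.extend T h
    exact ⟨B, M.mem_up.2 ⟨h1, h2⟩⟩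

lemma Mat.card_of_up {T B : Finset α} (h : B ∈ M.up T) : B.card = r :=
  (M.mem_bases.1 (M.mem_up.1 h).1).2

/-- double counting -/
lemma Mat.sum_up {T : Finset α} (F : Finset α → α → ℝ) :
    ∑ i ∈ univ.filter (fun i => i ∉ T), ∑ B ∈ M.up (insert i T), F B i =
      ∑ B ∈ M.up T, ∑ i ∈ B \ T, F B i := by
  rw [sum_sigma', sum_sigma']
  refine sum_bij' (fun x _ => ⟨x.2, x.1⟩) (fun x _ => ⟨x.2, x.1⟩) ?_ ?_ ?_ ?_ ?_
  · rintro ⟨i, B⟩ h
    simp only [mem_sigma, mem_filter, mem_univ, true_and, M.mem_up, insert_subset_iff,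
      mem_sdiff] at h ⊢
    exact ⟨⟨h.2.1, h.2.2.2⟩, h.2.2.1, h.1⟩
  · rintro ⟨B, i⟩ h
    simp only [mem_sigma, mem_filter, mem_univ, true_and, M.mem_up, insert_subset_iff,
      mem_sdiff] at h ⊢
    exact ⟨h.2.2, h.1.1, h.2.1, h.1.2⟩
  · intro _ _; rfl
  · intro _ _; rfl
  · intro _ _; rfl

lemma Mat.card_sdiff_up {T B : Finset α} (h : B ∈ M.up T) : ((B \ T).card : ℝ) = r - T.card := by
  have h1 := M.card_of_up h
  have h2 := (M.mem_up.1 h).2
  rw [card_sdiff_of_subset h2, h1, Nat.cast_sub (h1 ▸ card_le_card h2)]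

lemma Mat.sum_c (T : Finset α) : ∑ i ∈ univ.filter (fun i => i ∉ T), M.c (insert i T) =
    (r - T.card) * M.c T := by
  have h := M.sum_up (T := T) (fun _ _ => (1 : ℝ))
  simp only [sum_const, nsmul_eq_mul, mul_one] at h
  unfold Mat.c
  rw [h, ← nsmul_one (M.up T).card, ← sum_const, mul_sum]
  apply sum_congr rfl
  intro B hB
  rw [M.card_sdiff_up hB, mul_one]

/-- the number of bases containing `T` and two further elements -/
noncomputable def Mat.A (T : Finset α) (e f : α) : ℝ :=
  if e ≠ f ∧ e ∉ T ∧ f ∉ T then M.c (insert e (insert f T)) else 0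

lemma Mat.A_symm (T : Finset α) (e f : α) : M.A T e f = M.A T f e := by
  unfold Mat.A
  rw [Finset.insert_comm]
  congr 1
  apply propext
  constructor
  · rintro ⟨h1, h2, h3⟩; exact ⟨h1.symm, h3, h2⟩
  · rintro ⟨h1, h2, h3⟩; exact ⟨h1.symm, h3, h2⟩

lemma Mat.A_nonneg (T : Finset α) (e f : α) : 0 ≤ M.A T e f := by
  unfold Mat.A
  split_ifs
  · exact M.c_nonneg _
  · exact le_rfl

/-- the row sums -/
lemma Mat.row (T : Finset α) (e : α) :
    ∑ f, M.A T e f = if e ∉ T then (r - T.card - 1) * M.c (insert e T) else 0 := by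
  by_cases he : e ∈ T
  · rw [if_neg (by simpa using he)]
    apply sum_eq_zero
    intro f _
    unfold Mat.A
    rw [if_neg]
    tauto
  · rw [if_pos he]
    have h := M.sum_c (insert e T)
    rw [card_insert_of_notMem he] at h
    push_cast at h
    have h2 : (r : ℝ) - T.card - 1 = r - (T.card + 1) := by ring
    rw [h2, ← h, sum_filter]
    apply sum_congr rfl
    intro f _
    unfold Mat.A
    by_cases h1 : f ∈ insert e T
    · rw [if_neg (not_not.2 h1), if_neg]
      rw [mem_insert] at h1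
      rintro ⟨h3, _, h4⟩
      rcases h1 with h1 | h1
      · exact h3 h1.symm
      · exact h4 h1
    · rw [if_pos h1, if_pos, Finset.insert_comm]
      rw [mem_insert] at h1
      push Not at h1
      exact ⟨h1.1.symm, he, h1.2⟩

/-- the matrices of the one-element contractions add up -/
lemma Mat.sum_A (T : Finset α) (e f : α) :
    ∑ i ∈ univ.filter (fun i => i ∉ T), M.A (insert i T) e f = (r - T.card - 2) * M.A T e f := by
  by_cases h : e ≠ f ∧ e ∉ T ∧ f ∉ T
  · have h1 : (insert e (insert f T)).card = T.card + 2 := by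
      rw [card_insert_of_notMem, card_insert_of_notMem h.2.2]
      rw [mem_insert]
      push Not
      exact ⟨h.1, h.2.1⟩
    have h2 := M.sum_c (insert e (insert f T))
    rw [h1] at h2
    push_cast at h2
    have h3 : (r : ℝ) - T.card - 2 = r - (T.card + 2) := by ring
    have h4 : M.A T e f = M.c (insert e (insert f T)) := by
      unfold Mat.A
      rw [if_pos h]
    rw [h3, h4, ← h2, sum_filter, sum_filter]
    apply sum_congr rfl
    intro i _
    unfold Mat.A
    by_cases hi : i ∈ insert e (insert f T)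
    · rw [if_neg (not_not.2 hi)]
      simp only [mem_insert] at hi
      by_cases hiT : i ∈ T
      · rw [if_neg (not_not.2 hiT)]
      · rw [if_pos hiT, if_neg]
        simp only [mem_insert]
        rintro ⟨_, h5, h6⟩
        rcases hi with hi | hi | hi
        · exact h5 (Or.inl hi.symm)
        · exact h6 (Or.inl hi.symm)
        · exact hiT hi
    · rw [if_pos hi]
      simp only [mem_insert] at hi
      push Not at hi
      rw [if_pos hi.2.2, if_pos]
      · congr 1
        ext x
        simp only [mem_insert]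
        tauto
      · refine ⟨h.1, ?_, ?_⟩
        · rw [mem_insert]; push Not; exact ⟨hi.1.symm, h.2.1⟩
        · rw [mem_insert]; push Not; exact ⟨hi.2.1.symm, h.2.2⟩
  · have h4 : M.A T e f = 0 := by
      unfold Mat.A
      rw [if_neg h]
    rw [h4, mul_zero]
    apply sum_eq_zero
    intro i _
    unfold Mat.A
    rw [if_neg]
    rintro ⟨h5, h6, h7⟩
    rw [mem_insert] at h6 h7
    push Not at h6 h7
    exact h ⟨h5, h6.2, h7.2⟩

/-- parallel elements of a contraction -/
lemma Mat.par {T : Finset α} {e f h : α} (hf : M.Ind (insert f T))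
    (heT : e ∉ T) (hhT : h ∉ T) (hfT : f ∉ T) (heh : e ≠ h)
    (h1 : ¬ M.Ind (insert e (insert f T))) (h2 : ¬ M.Ind (insert h (insert f T))) :
    ¬ M.Ind (insert e (insert h T)) := by
  intro h3
  obtain ⟨x, hx, hx', hx''⟩ := M.exch hf h3 (by
    rw [card_insert_of_notMem hfT, card_insert_of_notMem, card_insert_of_notMem hhT]
    · omega
    · rw [mem_insert]; push Not; exact ⟨heh, heT⟩)
  rw [mem_insert, mem_insert] at hx
  rcases hx with rfl | rfl | hx
  · exact h1 hx''
  · exact h2 hx''
  · exact hx' (mem_insert_of_mem hx)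

/-- The graph has diameter two. -/
lemma Mat.conn {T : Finset α} (hT : T.card + 2 ≤ r) {e f : α} (he : M.Ind (insert e T))
    (hf : M.Ind (insert f T)) (heT : e ∉ T) (hfT : f ∉ T) (hef : e ≠ f) :
    0 < M.A T e f ∨ ∃ h, 0 < M.A T e h ∧ 0 < M.A T f h := by
  by_cases h1 : M.Ind (insert e (insert f T))
  · left
    unfold Mat.A
    rw [if_pos ⟨hef, heT, hfT⟩]
    exact M.c_pos.2 h1
  · right
    obtain ⟨B, hB, hB'⟩ := M.exB
    obtain ⟨h, h2, h3, h4⟩ := M.exch he hB (by rw [card_insert_of_notMem heT]; omega)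
    rw [mem_insert] at h3
    push Not at h3
    have hhf : h ≠ f := by
      rintro rfl
      rw [Finset.insert_comm] at h4
      exact h1 h4
    have h5 : M.Ind (insert f (insert h T)) := by
      by_contra hcon
      refine M.par (T := T) (e := h) (f := f) (h := e) hf h3.2 heT hfT h3.1 ?_ h1 h4
      rwa [Finset.insert_comm]
    refine ⟨h, ?_, ?_⟩
    · unfold Mat.A
      rw [if_pos ⟨h3.1.symm, heT, h3.2⟩, Finset.insert_comm]
      exact M.c_pos.2 h4
    · unfold Mat.A
      rw [if_pos ⟨hhf.symm, hfT, h3.2⟩]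
      exact M.c_pos.2 h5

end Pool.Agent.Q330.MS
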