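import Mathlib
import Pool.Agent.Q330.MS.Mat

set_option autoImplicit false

/-!
# The Hodge-Riemann property of the numbers of bases
-/

namespace Pool.Agent.Q330.MS

open Finset

section Per

variable {α : Type} [Fintype α] [DecidableEq α]

/-- the inequality for complete multipartite graphs -/
theorem per_ineq (rel : α → α → Prop) [DecidableRel rel] (hs : ∀ e f, rel e f → rel f e)
    (ht : ∀ e f h, rel e f → rel f h → rel e h) (g : α → ℝ)
    (hg : ((univ.filter (fun e => rel e e)).card : ℝ) * ∑ e ∈ univ.filter (fun e => rel e e), g e =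
      ∑ e, ∑ f, (if rel e f then (1 : ℝ) else 0) * g e) :
    (∑ e ∈ univ.filter (fun e => rel e e), g e) ^ 2 ≤
      ∑ e, ∑ f, (if rel e f then (1 : ℝ) else 0) * g e * g f := by
  set S := univ.filter (fun e => rel e e) with hS
  set D : α → α → ℝ := fun e f => if rel e f then (1 : ℝ) else 0 with hD
  have hmem : ∀ e, e ∈ S ↔ rel e e := fun e => by simp [hS]
  have hDS : ∀ e f, e ∉ S → D e f = 0 := by
    intro e f he
    simp only [hD]
    rw [if_neg]
    intro h
    exact he ((hmem e).2 (ht e f e h (hs e f h)))
  have hDsymm : ∀ e f, D e f = D f e := by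
    intro e f
    simp only [hD]
    congr 1
    exact propext ⟨hs e f, hs f e⟩
  set n : α → ℝ := fun e => ∑ f, D e f with hn
  set h : α → ℝ := fun e => ∑ f, D e f * g f with hh
  have hnpos : ∀ e ∈ S, 0 < n e := by
    intro e he
    have h1 : D e e ≤ n e := single_le_sum (f := fun f => D e f) (fun f _ => by
      simp only [hD]; split_ifs <;> norm_num) (mem_univ e)
    have h2 : D e e = 1 := by simp only [hD]; rw [if_pos ((hmem e).1 he)]
    linarith
  have hneq : ∀ e f, rel e f → n e = n f := by
    intro e f hef
    simp only [hn, hD]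
    apply sum_congr rfl
    intro x _
    congr 1
    exact propext ⟨fun h => ht f e x (hs e f hef) h, fun h => ht e f x hef h⟩
  have hQ : ∑ e, ∑ f, D e f * g e * g f = ∑ e ∈ S, h e ^ 2 / n e := by
    have h1 : ∀ e ∈ S, h e ^ 2 / n e =
        ∑ f, ∑ f', (D e f * D e f' / n e) * g f * g f' := by
      intro e _
      rw [sq, hh]
      simp only
      rw [sum_mul_sum, sum_div]
      apply sum_congr rfl
      intro f _
      rw [sum_div]
      apply sum_congr rfl
      intro f' _
      ring
    rw [sum_congr rfl h1, sum_comm (s := S)]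
    apply sum_congr rfl
    intro f _
    rw [sum_comm (s := S)]
    apply sum_congr rfl
    intro f' _
    rw [← sum_mul, ← sum_mul]
    congr 2
    by_cases hff : rel f f'
    · have h2 : ∀ e ∈ S, D e f * D e f' / n e = D f e / n f := by
        intro e _
        by_cases hef : rel e f
        · rw [hneq e f hef]
          have h3 : D e f = 1 := by simp only [hD]; rw [if_pos hef]
          have h4 : D e f' = 1 := by simp only [hD]; rw [if_pos (ht e f f' hef hff)]
          have h5 : D f e = 1 := by rw [hDsymm, h3]
          rw [h3, h4, h5, one_mul]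
        · have h3 : D e f = 0 := by simp only [hD]; rw [if_neg hef]
          rw [hDsymm f e, h3]
          simp
      rw [sum_congr rfl h2, ← sum_div]
      have h3 : ∑ e ∈ S, D f e = n f := by
        simp only [hn]
        apply sum_subset (subset_univ S)
        intro e _ he
        rw [hDsymm, hDS e f he]
      have h4 : f ∈ S := (hmem f).2 (ht f f' f hff (hs f f' hff))
      rw [h3, div_self (hnpos f h4).ne']
      simp only [hD]
      rw [if_pos hff]
    · have h3 : D f f' = 0 := by simp only [hD]; rw [if_neg hff]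
      rw [h3]
      symm
      apply sum_eq_zero
      intro e _
      by_cases hef : rel e f
      · have h4 : D e f' = 0 := by
          simp only [hD]
          rw [if_neg]
          intro h5
          exact hff (ht f e f' (hs e f hef) h5)
        rw [h4]
        simp
      · have h4 : D e f = 0 := by simp only [hD]; rw [if_neg hef]
        rw [h4]
        simp
  rw [hQ]
  rcases S.eq_empty_or_nonempty with hSe | hSne
  · rw [hSe]
    simp
  have hnS : ∑ e ∈ S, n e ≤ (S.card : ℝ) ^ 2 := by
    have h1 : ∀ e ∈ S, n e ≤ S.card := by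
      intro e _
      have h2 : n e = ∑ f ∈ S, D e f := by
        simp only [hn]
        symm
        apply sum_subset (subset_univ S)
        intro f _ hf
        rw [hDsymm, hDS f e hf]
      rw [h2, card_eq_sum_ones]
      push_cast
      apply sum_le_sum
      intro f _
      simp only [hD]
      split_ifs <;> norm_num
    calc ∑ e ∈ S, n e ≤ ∑ e ∈ S, (S.card : ℝ) := sum_le_sum h1
      _ = (S.card : ℝ) ^ 2 := by rw [sum_const, nsmul_eq_mul, sq]
  have hnSpos : 0 < ∑ e ∈ S, n e := sum_pos hnpos hSne
  have hh1 : ∑ e ∈ S, h e = (S.card : ℝ) * ∑ e ∈ S, g e := by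
    rw [hg]
    have h1 : ∑ e ∈ S, h e = ∑ e, h e := by
      apply sum_subset (subset_univ S)
      intro e _ he
      simp only [hh]
      apply sum_eq_zero
      intro f _
      rw [hDS e f he, zero_mul]
    rw [h1]
    simp only [hh]
    rw [sum_comm]
    apply sum_congr rfl
    intro e _
    apply sum_congr rfl
    intro f _
    have := hDsymm f e
    simp only [hD] at this ⊢
    rw [this]
  have hcs : (∑ e ∈ S, h e) ^ 2 / ∑ e ∈ S, n e ≤ ∑ e ∈ S, h e ^ 2 / n e :=
    sq_sum_div_le_sum_sq_div S h hnpos
  rw [hh1, mul_pow, div_le_iff₀ hnSpos] at hcs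
  have hX : 0 ≤ ∑ e ∈ S, h e ^ 2 / n e :=
    sum_nonneg fun e he => div_nonneg (sq_nonneg _) (hnpos e he).le
  have hcard : (0 : ℝ) < (S.card : ℝ) ^ 2 := by
    have : (0 : ℝ) < S.card := by exact_mod_cast hSne.card_pos
    positivity
  have := hcs.trans (mul_le_mul_of_nonneg_left hnS hX)
  rw [mul_comm] at this
  exact le_of_mul_le_mul_right this hcard

end Per

variable {α : Type} [Fintype α] [DecidableEq α] {r : ℕ} (M : Mat α r)

/-- The Hodge-Riemann property at `T` -/
def Mat.HR (T : Finset α) : Prop := ∀ g : α → ℝ, ∑ e, ∑ f, M.A T e f * g e = 0 →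
  ∑ e, ∑ f, M.A T e f * g e * g f ≤ 0

lemma Mat.c_full {T : Finset α} (hT : T.card = r) (h : M.Ind T) : M.c T = 1 := by
  unfold Mat.c
  have : M.up T = {T} := by
    ext B
    rw [M.mem_up, M.mem_bases, mem_singleton]
    constructor
    · rintro ⟨⟨_, h1⟩, h2⟩
      exact (eq_of_subset_of_card_le h2 (by omega)).symm
    · rintro rfl
      exact ⟨⟨h, hT⟩, Subset.rfl⟩
  rw [this]
  simp

lemma Mat.c_zero {T : Finset α} (h : ¬ M.Ind T) : M.c T = 0 := by
  have h1 := M.c_nonneg T
  have h2 := (not_congr (M.c_pos (T := T))).2 h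
  linarith [not_lt.1 h2]

theorem Mat.HR_base {T : Finset α} (hT : T.card + 2 = r) : M.HR T := by
  classical
  intro g hg
  obtain ⟨rel, hrel⟩ : ∃ rel : α → α → Prop, ∀ e f, rel e f ↔ (e ∉ T ∧ M.Ind (insert e T)) ∧
    (f ∉ T ∧ M.Ind (insert f T)) ∧ (e = f ∨ ¬ M.Ind (insert e (insert f T))) :=
    ⟨_, fun _ _ => Iff.rfl⟩
  have hs : ∀ e f, rel e f → rel f e := by
    intro e f hef
    rw [hrel] at hef ⊢
    obtain ⟨h1, h2, h3⟩ := hef
    refine ⟨h2, h1, ?_⟩
    rcases h3 with h3 | h3
    · exact Or.inl h3.symm
    · right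
      rwa [Finset.insert_comm]
  have ht : ∀ e f h, rel e f → rel f h → rel e h := by
    intro e f h hef hfh
    rw [hrel] at hef hfh ⊢
    obtain ⟨h1, h2, h3⟩ := hef
    obtain ⟨_, h4, h5⟩ := hfh
    refine ⟨h1, h4, ?_⟩
    rcases h3 with rfl | h3
    · exact h5
    · rcases h5 with rfl | h5
      · exact Or.inr h3
      · by_cases heh : e = h
        · exact Or.inl heh
        · right
          refine M.par h2.2 h1.1 h4.1 h2.1 heh h3 ?_
          rwa [Finset.insert_comm]
  set S := univ.filter (fun e => rel e e) with hS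
  have hmem : ∀ e, e ∈ S ↔ (e ∉ T ∧ M.Ind (insert e T)) := by
    intro e
    rw [hS, mem_filter, hrel]
    simp
  have hA : ∀ e f, M.A T e f = (if e ∈ S then (1 : ℝ) else 0) * (if f ∈ S then (1 : ℝ) else 0) -
      (if rel e f then (1 : ℝ) else 0) := by
    intro e f
    by_cases he : e ∈ S
    · by_cases hf : f ∈ S
      · rw [if_pos he, if_pos hf]
        have he' := (hmem e).1 he
        have hf' := (hmem f).1 hf
        by_cases hr : rel e f
        · rw [if_pos hr]
          unfold Mat.A
          rcases ((hrel e f).1 hr).2.2 with h | h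
          · rw [if_neg (fun h' => h'.1 h)]; norm_num
          · split_ifs
            · rw [M.c_zero h]; norm_num
            · norm_num
        · rw [if_neg hr]
          have h1 : e ≠ f ∧ M.Ind (insert e (insert f T)) := by
            by_contra hcon
            apply hr
            rw [hrel]
            refine ⟨he', hf', ?_⟩
            tauto
          unfold Mat.A
          rw [if_pos ⟨h1.1, he'.1, hf'.1⟩, M.c_full _ h1.2]
          · norm_num
          · rw [card_insert_of_notMem, card_insert_of_notMem hf'.1]
            · omega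
            · rw [mem_insert]; push Not; exact ⟨h1.1, he'.1⟩
      · rw [if_neg hf, mul_zero, if_neg, sub_zero]
        · unfold Mat.A
          split_ifs with h
          · apply M.c_zero
            intro h1
            exact hf ((hmem f).2 ⟨h.2.2, M.down (subset_insert _ _) h1⟩)
          · rfl
        · intro h
          exact hf ((hmem f).2 ((hrel e f).1 h).2.1)
    · rw [if_neg he, zero_mul, if_neg, sub_zero]
      · unfold Mat.A
        split_ifs with h
        · apply M.c_zero
          intro h1
          rw [Finset.insert_comm] at h1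
          exact he ((hmem e).2 ⟨h.2.1, M.down (subset_insert _ _) h1⟩)
        · rfl
      · intro h
        exact he ((hmem e).2 ((hrel e f).1 h).1)
  have h1 : ∑ e, ∑ f, M.A T e f * g e = (S.card : ℝ) * ∑ e ∈ S, g e -
      ∑ e, ∑ f, (if rel e f then (1 : ℝ) else 0) * g e := by
    have h2 : ∀ e, ∑ f, M.A T e f * g e = (if e ∈ S then g e else 0) * S.card -
        ∑ f, (if rel e f then (1 : ℝ) else 0) * g e := by
      intro e
      have h3 : (S.card : ℝ) = ∑ f, (if f ∈ S then (1 : ℝ) else 0) := by simp
      rw [h3, mul_sum, ← sum_sub_distrib]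
      apply sum_congr rfl
      intro f _
      rw [hA]
      split_ifs <;> ring
    rw [sum_congr rfl fun e _ => h2 e, sum_sub_distrib, ← sum_mul, sum_ite_mem, univ_inter]
    ring
  have h2 : ∑ e, ∑ f, M.A T e f * g e * g f = (∑ e ∈ S, g e) ^ 2 -
      ∑ e, ∑ f, (if rel e f then (1 : ℝ) else 0) * g e * g f := by
    have h3 : ∑ e ∈ S, g e = ∑ e, (if e ∈ S then g e else 0) := by simp
    rw [sq, h3, sum_mul_sum, ← sum_sub_distrib]
    apply sum_congr rfl
    intro e _
    rw [← sum_sub_distrib]
    apply sum_congr rfl
    intro f _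
    rw [hA]
    split_ifs <;> ring
  rw [h2]
  have h3 := per_ineq rel hs ht g (by
    rw [← hS]
    linarith)
  rw [← hS] at h3
  linarith

/-- `HR` in the form of an inequality for all functions -/
lemma Mat.HR_all {T : Finset α} (h : M.HR T) (g : α → ℝ) :
    ∑ e, ∑ f, M.A T e f * g e * g f ≤
      (∑ e, ∑ f, M.A T e f * g e) ^ 2 / ∑ e, ∑ f, M.A T e f := by
  set q := ∑ e, ∑ f, M.A T e f with hq
  have hq0 : 0 ≤ q := sum_nonneg fun e _ => sum_nonneg fun f _ => M.A_nonneg T e f
  have hexp : ∀ x : ℝ, ∑ e, ∑ f, M.A T e f * (g e - x) * (g f - x) =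
      ∑ e, ∑ f, M.A T e f * g e * g f - x * ∑ e, ∑ f, M.A T e f * g f -
        x * ∑ e, ∑ f, M.A T e f * g e + x ^ 2 * ∑ e, ∑ f, M.A T e f := by
    intro x
    rw [mul_sum, mul_sum, mul_sum, ← sum_sub_distrib, ← sum_sub_distrib, ← sum_add_distrib]
    apply sum_congr rfl
    intro e _
    rw [mul_sum, mul_sum, mul_sum, ← sum_sub_distrib, ← sum_sub_distrib, ← sum_add_distrib]
    exact sum_congr rfl fun f _ => by ring
  rcases hq0.eq_or_lt with h0 | h0
  · have hz : ∀ e f, M.A T e f = 0 := by
      intro e f
      have h1 := (sum_eq_zero_iff_of_nonneg (fun e _ => sum_nonneg fun f _ =>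
        M.A_nonneg T e f)).1 (hq ▸ h0.symm) e (mem_univ e)
      exact (sum_eq_zero_iff_of_nonneg (fun f _ => M.A_nonneg T e f)).1 h1 f (mem_univ f)
    rw [← h0, div_zero]
    apply le_of_eq
    apply sum_eq_zero
    intro e _
    apply sum_eq_zero
    intro f _
    rw [hz]
    ring
  · set L := ∑ e, ∑ f, M.A T e f * g e with hL
    have hL' : ∑ e, ∑ f, M.A T e f * g f = L := by
      rw [hL, sum_comm]
      exact sum_congr rfl fun e _ => sum_congr rfl fun f _ => by rw [M.A_symm]
    have h1 := h (fun e => g e - L / q) (by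
      have : ∑ e, ∑ f, M.A T e f * (g e - L / q) = L - q * (L / q) := by
        rw [hL, hq, sum_mul, ← sum_sub_distrib]
        apply sum_congr rfl
        intro e _
        rw [sum_mul, ← sum_sub_distrib]
        exact sum_congr rfl fun f _ => by ring
      rw [this]
      field_simp
      ring)
    have h2 : ∑ e, ∑ f, M.A T e f * (g e - L / q) * (g f - L / q) =
        ∑ e, ∑ f, M.A T e f * g e * g f - L / q * L - L / q * L + (L / q) ^ 2 * q := by
      rw [hexp, hL', ← hq]
    rw [h2] at h1
    have h3 : L / q * L = L ^ 2 / q := by ring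
    have h4 : (L / q) ^ 2 * q = L ^ 2 / q := by field_simp
    rw [h3, h4] at h1
    linarith

theorem Mat.HR_step {T : Finset α} (hT : T.card + 3 ≤ r) (h : ∀ i, i ∉ T → M.HR (insert i T)) :
    M.HR T := by
  intro g hg
  have hr : (T.card : ℝ) + 3 ≤ r := by exact_mod_cast hT
  set w : α → ℝ := fun e => ∑ f, M.A T e f with hw
  have hg' : ∑ e, w e * g e = 0 := by
    rw [← hg]
    apply sum_congr rfl
    intro e _
    rw [hw, sum_mul]
  apply trickle (M.A T) w (M.A_symm T) (M.A_nonneg T) (fun e => rfl) ?_ ?_ g hg'
  · intro g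
    have h1 : ∀ i, i ∉ T → ∑ e, ∑ f, M.A (insert i T) e f * g e * g f ≤
        (r - T.card - 2) * ((∑ f, M.A T i f * g f) ^ 2 / w i) := by
      intro i hi
      refine (M.HR_all (h i hi) g).trans (le_of_eq ?_)
      have h2 : ∀ e, ∑ f, M.A (insert i T) e f = (r - T.card - 2) * M.A T i e := by
        intro e
        rw [M.row, card_insert_of_notMem hi]
        unfold Mat.A
        by_cases he : e ∉ insert i T
        · rw [if_pos he, if_pos, Finset.insert_comm]
          · push_cast
            ring
          · rw [mem_insert] at he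
            push Not at he
            exact ⟨he.1.symm, hi, he.2⟩
        · rw [if_neg he, if_neg, mul_zero]
          rintro ⟨h3, _, h4⟩
          apply he
          rw [mem_insert]
          push Not
          exact ⟨h3.symm, h4⟩
      have h3 : ∑ e, ∑ f, M.A (insert i T) e f = (r - T.card - 2) * w i := by
        rw [hw, mul_sum]
        exact sum_congr rfl fun e _ => h2 e
      have h4 : ∑ e, ∑ f, M.A (insert i T) e f * g e =
          (r - T.card - 2) * ∑ f, M.A T i f * g f := by
        rw [mul_sum]
        apply sum_congr rfl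
        intro e _
        rw [← sum_mul, h2]
        ring
      rw [h3, h4]
      have h5 : (r : ℝ) - T.card - 2 ≠ 0 := by
        intro h6
        linarith
      by_cases h6 : w i = 0
      · rw [h6]; simp
      · field_simp
    have h2 : (r - T.card - 2) * ∑ e, ∑ f, M.A T e f * g e * g f =
        ∑ i ∈ univ.filter (fun i => i ∉ T), ∑ e, ∑ f, M.A (insert i T) e f * g e * g f := by
      rw [mul_sum, sum_comm]
      apply sum_congr rfl
      intro e _
      rw [mul_sum, sum_comm]
      apply sum_congr rfl
      intro f _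
      rw [← sum_mul, ← sum_mul, M.sum_A]
      ring
    have h3 : (r - T.card - 2 : ℝ) * ∑ e, ∑ f, M.A T e f * g e * g f ≤
        (r - T.card - 2) * ∑ i, (∑ f, M.A T i f * g f) ^ 2 / w i := by
      rw [h2, mul_sum]
      calc _ ≤ ∑ i ∈ univ.filter (fun i => i ∉ T),
          ((r - T.card - 2) * ((∑ f, M.A T i f * g f) ^ 2 / w i) : ℝ) :=
            sum_le_sum fun i hi => h1 i (mem_filter.1 hi).2
        _ ≤ _ := by
            apply sum_le_sum_of_subset_of_nonneg (filter_subset _ _)
            intro i _ _
            apply mul_nonneg (by linarith)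
            apply div_nonneg (sq_nonneg _)
            exact sum_nonneg fun f _ => M.A_nonneg T i f
    exact le_of_mul_le_mul_left h3 (by linarith)
  · intro e f he hf hef
    have key : ∀ x, 0 < w x → x ∉ T ∧ M.Ind (insert x T) := by
      intro x hx
      rw [hw] at hx
      simp only at hx
      rw [M.row] at hx
      by_cases h1 : x ∈ T
      · rw [if_neg (not_not.2 h1)] at hx
        exact absurd hx (lt_irrefl _)
      · rw [if_pos h1] at hx
        refine ⟨h1, M.c_pos.1 ?_⟩
        by_contra h2
        have h3 := M.c_nonneg (insert x T)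
        have h4 : M.c (insert x T) = 0 := by linarith [not_lt.1 h2]
        rw [h4, mul_zero] at hx
        exact lt_irrefl _ hx
    exact M.conn (by omega) (key e he).2 (key f hf).2 (key e he).1 (key f hf).1 hef

theorem Mat.HR_of_card (k : ℕ) : ∀ T : Finset α, T.card + 2 + k = r → M.HR T := by
  induction k with
  | zero => intro T hT; exact M.HR_base hT
  | succ k ih =>
    intro T hT
    apply M.HR_step (by omega)
    intro i hi
    apply ih
    rw [card_insert_of_notMem hi]
    omega

end Pool.Agent.Q330.MS
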