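import Mathlib
import Pool.Agent.Q330.MS.HR

set_option autoImplicit false

/-!
# The spectral gap of the basis exchange graph
-/

namespace Pool.Agent.Q330.MS

open Finset

variable {α : Type} [Fintype α] [DecidableEq α] {r : ℕ} (M : Mat α r)

/-- the sum of `f` over the bases containing `T` -/
noncomputable def Mat.F (f : Finset α → ℝ) (T : Finset α) : ℝ := ∑ B ∈ M.up T, f B

/-- the variance sum of `f` over the bases containing `T` -/
noncomputable def Mat.V (f : Finset α → ℝ) (T : Finset α) : ℝ :=
  ∑ B ∈ M.up T, f B ^ 2 - M.F f T ^ 2 / M.c T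

lemma Mat.F_zero {f : Finset α → ℝ} {T : Finset α} (h : M.c T = 0) : M.F f T = 0 := by
  unfold Mat.c at h
  have : M.up T = ∅ := by
    rw [← card_eq_zero]
    exact_mod_cast h
  unfold Mat.F
  rw [this, sum_empty]

lemma Mat.V_shift (f : Finset α → ℝ) (x : ℝ) (T : Finset α) :
    M.V (fun B => f B - x) T = M.V f T := by
  by_cases h : M.c T = 0
  · have : M.up T = ∅ := by
      unfold Mat.c at h
      rw [← card_eq_zero]
      exact_mod_cast h
    unfold Mat.V Mat.F
    rw [this]
    simp
  · unfold Mat.V
    have h1 : M.F (fun B => f B - x) T = M.F f T - M.c T * x := by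
      unfold Mat.F Mat.c
      rw [sum_sub_distrib, sum_const, nsmul_eq_mul]
    have h2 : ∑ B ∈ M.up T, (f B - x) ^ 2 = ∑ B ∈ M.up T, f B ^ 2 - 2 * x * M.F f T +
        M.c T * x ^ 2 := by
      unfold Mat.F Mat.c
      have h3 : ∀ B ∈ M.up T, (f B - x) ^ 2 = f B ^ 2 - 2 * x * f B + x ^ 2 := by
        intro B _
        ring
      rw [sum_congr rfl h3, sum_add_distrib, sum_sub_distrib, sum_const, nsmul_eq_mul, mul_sum]
    rw [h1, h2]
    field_simp
    ring

lemma Mat.sum_F (f : Finset α → ℝ) (T : Finset α) :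
    ∑ i ∈ univ.filter (fun i => i ∉ T), M.F f (insert i T) = (r - T.card) * M.F f T := by
  have h := M.sum_up (T := T) (fun B _ => f B)
  unfold Mat.F
  rw [h, mul_sum]
  apply sum_congr rfl
  intro B hB
  rw [sum_const, nsmul_eq_mul, M.card_sdiff_up hB]

/-- one level up -/
lemma Mat.level_one {T : Finset α} (hT : T.card + 2 ≤ r) (f : Finset α → ℝ) (hf : M.F f T = 0) :
    ∑ i ∈ univ.filter (fun i => i ∉ T), M.F f (insert i T) ^ 2 / M.c (insert i T) ≤
      ∑ B ∈ M.up T, f B ^ 2 := by
  obtain ⟨k, hk⟩ := Nat.exists_eq_add_of_le hT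
  have hHR := M.HR_of_card k T (by omega)
  set g : α → ℝ := fun i => if i ∉ T then M.F f (insert i T) / M.c (insert i T) else 0 with hg
  set X := ∑ i ∈ univ.filter (fun i => i ∉ T), M.F f (insert i T) ^ 2 / M.c (insert i T) with hX
  set Y := ∑ B ∈ M.up T, f B ^ 2 with hY
  have hcg : ∀ i, i ∉ T → M.c (insert i T) * g i = M.F f (insert i T) := by
    intro i hi
    simp only [hg]
    rw [if_pos hi]
    by_cases h : M.c (insert i T) = 0
    · rw [h, M.F_zero h, zero_mul]
    · field_simp
  have hX1 : X = ∑ B ∈ M.up T, f B * ∑ i ∈ B \ T, g i := by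
    have h := M.sum_up (T := T) (fun B i => f B * g i)
    have h2 : ∑ B ∈ M.up T, f B * ∑ i ∈ B \ T, g i = ∑ B ∈ M.up T, ∑ i ∈ B \ T, f B * g i :=
      sum_congr rfl fun B _ => mul_sum _ _ _
    rw [h2, ← h, hX]
    apply sum_congr rfl
    intro i hi
    have hi' := (mem_filter.1 hi).2
    rw [← sum_mul]
    have h3 : ∑ B ∈ M.up (insert i T), f B = M.F f (insert i T) := rfl
    rw [h3]
    simp only [hg]
    rw [if_pos hi']
    ring
  have hX2 : X = ∑ i ∈ univ.filter (fun i => i ∉ T), M.c (insert i T) * g i ^ 2 := by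
    rw [hX]
    apply sum_congr rfl
    intro i hi
    have hi' := (mem_filter.1 hi).2
    rw [sq (g i), ← mul_assoc, hcg i hi']
    simp only [hg]
    rw [if_pos hi']
    ring
  set Z := ∑ B ∈ M.up T, (∑ i ∈ B \ T, g i) ^ 2 with hZ
  have hZ1 : Z = X + ∑ e, ∑ f, M.A T e f * g e * g f := by
    have h1 : Z = ∑ i ∈ univ.filter (fun i => i ∉ T), ∑ B ∈ M.up (insert i T),
        (g i * ∑ j ∈ B \ T, g j) := by
      rw [M.sum_up (T := T) (fun B i => g i * ∑ j ∈ B \ T, g j), hZ]
      apply sum_congr rfl
      intro B _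
      rw [sq, sum_mul]
    have h2 : ∀ i ∈ univ.filter (fun i => i ∉ T), ∑ B ∈ M.up (insert i T),
        (g i * ∑ j ∈ B \ T, g j) = M.c (insert i T) * g i ^ 2 + ∑ j, M.A T i j * g i * g j := by
      intro i hi
      have hi' := (mem_filter.1 hi).2
      have h3 : ∀ B ∈ M.up (insert i T), g i * ∑ j ∈ B \ T, g j =
          g i ^ 2 + g i * ∑ j ∈ B \ insert i T, g j := by
        intro B hB
        have h4 : i ∈ B := (M.mem_up.1 hB).2 (mem_insert_self _ _)
        have h5 : B \ T = insert i (B \ insert i T) := by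
          ext x
          simp only [mem_sdiff, mem_insert]
          constructor
          · rintro ⟨h6, h7⟩
            by_cases h8 : x = i
            · exact Or.inl h8
            · exact Or.inr ⟨h6, by tauto⟩
          · rintro (rfl | ⟨h6, h7⟩)
            · exact ⟨h4, hi'⟩
            · exact ⟨h6, by tauto⟩
        rw [h5, sum_insert (by simp)]
        ring
      rw [sum_congr rfl h3, sum_add_distrib, sum_const, nsmul_eq_mul, ← mul_sum]
      congr 1
      rw [← M.sum_up (T := insert i T) (fun _ j => g j)]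
      have h6 : ∑ j, M.A T i j * g i * g j = g i * ∑ j, M.A T i j * g j := by
        rw [mul_sum]
        exact sum_congr rfl fun j _ => by ring
      rw [h6]
      congr 1
      rw [sum_filter]
      apply sum_congr rfl
      intro j _
      by_cases hj : j ∈ insert i T
      · rw [if_neg (not_not.2 hj)]
        unfold Mat.A
        rw [if_neg, zero_mul]
        rintro ⟨h7, _, h8⟩
        rw [mem_insert] at hj
        rcases hj with hj | hj
        · exact h7 hj.symm
        · exact h8 hj
      · rw [if_pos hj, sum_const, nsmul_eq_mul]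
        rw [mem_insert] at hj
        push Not at hj
        unfold Mat.A
        rw [if_pos ⟨hj.1.symm, hi', hj.2⟩, Finset.insert_comm]
        rfl
    rw [h1, sum_congr rfl h2, sum_add_distrib, ← hX2]
    congr 1
    apply sum_subset (filter_subset _ _)
    intro e _ he
    have he' : e ∈ T := by
      by_contra h
      exact he (mem_filter.2 ⟨mem_univ _, h⟩)
    apply sum_eq_zero
    intro j _
    unfold Mat.A
    rw [if_neg, zero_mul, zero_mul]
    tauto
  have hZ2 : Z ≤ X := by
    rw [hZ1]
    have := hHR g (by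
      have h1 : ∀ e, ∑ f, M.A T e f * g e =
          (if e ∉ T then (r - T.card - 1) * M.F f (insert e T) else 0) := by
        intro e
        rw [← sum_mul, M.row]
        by_cases he : e ∉ T
        · rw [if_pos he, if_pos he, mul_assoc, hcg e he]
        · rw [if_neg he, if_neg he, zero_mul]
      rw [sum_congr rfl fun e _ => h1 e, ← sum_filter, ← mul_sum, M.sum_F, hf]
      ring)
    linarith
  have hcs : X ^ 2 ≤ Y * Z := by
    rw [hX1, hY, hZ]
    exact sum_mul_sq_le_sq_mul_sq _ _ _
  have hX0 : 0 ≤ X := by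
    rw [hX]
    exact sum_nonneg fun i _ => div_nonneg (sq_nonneg _) (M.c_nonneg _)
  have hY0 : 0 ≤ Y := sum_nonneg fun B _ => sq_nonneg _
  have h1 : X ^ 2 ≤ Y * X := hcs.trans (mul_le_mul_of_nonneg_left hZ2 hY0)
  rcases hX0.eq_or_lt with h2 | h2
  · rw [← h2]
    exact hY0
  · rw [sq] at h1
    exact le_of_mul_le_mul_right h1 h2

/-- the sets of size `r - 1` containing `T` -/
def low (r : ℕ) (T : Finset α) : Finset (Finset α) :=
  univ.filter (fun S => T ⊆ S ∧ S.card + 1 = r)

lemma mem_low {r : ℕ} {T S : Finset α} : S ∈ low r T ↔ T ⊆ S ∧ S.card + 1 = r := by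
  simp [low]

/-- The variance is at most the sum of the local variances. -/
theorem Mat.var_le (k : ℕ) : ∀ (T : Finset α) (f : Finset α → ℝ), T.card + k + 1 = r →
    M.V f T ≤ ∑ S ∈ low r T, M.V f S := by
  induction k with
  | zero =>
    intro T f hT
    have : low r T = {T} := by
      ext S
      rw [mem_low, mem_singleton]
      constructor
      · rintro ⟨h1, h2⟩
        exact (eq_of_subset_of_card_le h1 (by omega)).symm
      · rintro rfl
        exact ⟨Subset.rfl, hT⟩
    rw [this, sum_singleton]
  | succ k ih =>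
    intro T f₀ hT
    -- normalise
    by_cases hc : M.c T = 0
    · have hnn : ∀ S, 0 ≤ M.V f₀ S := by
        intro S
        unfold Mat.V
        by_cases h : M.c S = 0
        · rw [h, div_zero, sub_zero]
          exact sum_nonneg fun B _ => sq_nonneg _
        · have hpos : 0 < M.c S := lt_of_le_of_ne (M.c_nonneg S) (Ne.symm h)
          rw [sub_nonneg, div_le_iff₀ hpos]
          have := sq_sum_le_card_mul_sum_sq (s := M.up S) (f := f₀)
          unfold Mat.F Mat.c
          linarith
      have h1 : M.V f₀ T = 0 := by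
        have h2 : M.up T = ∅ := by
          unfold Mat.c at hc
          rw [← card_eq_zero]
          exact_mod_cast hc
        unfold Mat.V Mat.F
        rw [h2]
        simp
      rw [h1]
      exact sum_nonneg fun S _ => hnn S
    set f : Finset α → ℝ := fun B => f₀ B - M.F f₀ T / M.c T with hfdef
    have hfV : ∀ S, M.V f₀ S = M.V f S := fun S => (M.V_shift f₀ _ S).symm
    have hfF : M.F f T = 0 := by
      unfold Mat.F
      simp only [hfdef]
      rw [sum_sub_distrib, sum_const, nsmul_eq_mul]
      have : ((M.up T).card : ℝ) = M.c T := rfl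
      rw [this]
      have : ∑ B ∈ M.up T, f₀ B = M.F f₀ T := rfl
      rw [this]
      field_simp
      ring
    rw [hfV, sum_congr rfl fun S _ => hfV S]
    set Y := ∑ B ∈ M.up T, f B ^ 2 with hY
    have hVT : M.V f T = Y := by
      unfold Mat.V
      rw [hfF]
      simp [hY]
    have hX := M.level_one (T := T) (by omega) f hfF
    have hk : (r : ℝ) - T.card = k + 2 := by
      have : (r : ℝ) = T.card + (k + 1) + 1 := by exact_mod_cast hT.symm
      rw [this]
      ring
    have h1 : ∑ i ∈ univ.filter (fun i => i ∉ T), M.V f (insert i T) = (k + 2) * Y -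
        ∑ i ∈ univ.filter (fun i => i ∉ T), M.F f (insert i T) ^ 2 / M.c (insert i T) := by
      unfold Mat.V
      rw [sum_sub_distrib]
      congr 1
      have h := M.sum_up (T := T) (fun B _ => f B ^ 2)
      rw [h, hY, mul_sum]
      apply sum_congr rfl
      intro B hB
      rw [sum_const, nsmul_eq_mul, M.card_sdiff_up hB, hk]
    have h2 : ∑ i ∈ univ.filter (fun i => i ∉ T), M.V f (insert i T) ≤
        ∑ i ∈ univ.filter (fun i => i ∉ T), ∑ S ∈ low r (insert i T), M.V f S := by
      apply sum_le_sum
      intro i hi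
      apply ih
      rw [card_insert_of_notMem (mem_filter.1 hi).2]
      omega
    have h3 : ∑ i ∈ univ.filter (fun i => i ∉ T), ∑ S ∈ low r (insert i T), M.V f S =
        (k + 1) * ∑ S ∈ low r T, M.V f S := by
      have h4 : ∑ i ∈ univ.filter (fun i => i ∉ T), ∑ S ∈ low r (insert i T), M.V f S =
          ∑ S ∈ low r T, ∑ i ∈ S \ T, M.V f S := by
        rw [sum_sigma', sum_sigma']
        refine sum_bij' (fun x _ => ⟨x.2, x.1⟩) (fun x _ => ⟨x.2, x.1⟩) ?_ ?_ ?_ ?_ ?_
        · rintro ⟨i, B⟩ h
          simp only [mem_sigma, mem_filter, mem_univ, true_and, mem_low, insert_subset_iff,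
            mem_sdiff] at h ⊢
          exact ⟨⟨h.2.1.2, h.2.2⟩, h.2.1.1, h.1⟩
        · rintro ⟨B, i⟩ h
          simp only [mem_sigma, mem_filter, mem_univ, true_and, mem_low, insert_subset_iff,
            mem_sdiff] at h ⊢
          exact ⟨h.2.2, ⟨h.2.1, h.1.1⟩, h.1.2⟩
        · intro _ _; rfl
        · intro _ _; rfl
        · intro _ _; rfl
      rw [h4, mul_sum]
      apply sum_congr rfl
      intro S hS
      rw [mem_low] at hS
      rw [sum_const, nsmul_eq_mul, card_sdiff_of_subset hS.1]
      have h5 : S.card - T.card = k + 1 := by omega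
      rw [h5]
      push_cast
      ring
    rw [h1, h3] at h2
    rw [hVT]
    have hk1 : (0 : ℝ) < k + 1 := by positivity
    have h6 : ((k : ℝ) + 1) * Y ≤ (k + 1) * ∑ S ∈ low r T, M.V f S := by linarith
    exact le_of_mul_le_mul_left h6 hk1

end Pool.Agent.Q330.MS
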