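import Mathlib
import Pool.Agent.Q330.MS.Gap

set_option autoImplicit false

/-!
# The basis exchange walk
-/

namespace Pool.Agent.Q330.MS

open Finset

variable {α : Type} [Fintype α] [DecidableEq α] {r : ℕ} (M : Mat α r)

/-- remove the first element and add the second -/
def move (B : Finset α) (p : α × α) : Finset α := insert p.2 (B.erase p.1)

/-- the moves from `B` which lead to bases -/
noncomputable def Mat.moves (B : Finset α) : Finset (α × α) :=
  univ.filter (fun p => p.1 ∈ B ∧ p.2 ∉ B ∧ move B p ∈ M.bases)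

lemma Mat.mem_moves {B : Finset α} {p : α × α} :
    p ∈ M.moves B ↔ p.1 ∈ B ∧ p.2 ∉ B ∧ move B p ∈ M.bases := by
  simp [Mat.moves]

/-- the Laplacian of the exchange graph -/
noncomputable def Mat.Lap (f : Finset α → ℝ) (B : Finset α) : ℝ :=
  ∑ p ∈ M.moves B, (f B - f (move B p))

/-- the Dirichlet form -/
noncomputable def Mat.E (f : Finset α → ℝ) : ℝ :=
  ∑ B ∈ M.bases, ∑ p ∈ M.moves B, (f B - f (move B p)) ^ 2

lemma move_swap {B : Finset α} {p : α × α} (h1 : p.1 ∈ B) (h2 : p.2 ∉ B) :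
    move (move B p) p.swap = B := by
  unfold move
  ext x
  simp only [mem_insert, mem_erase, Prod.fst_swap, Prod.snd_swap]
  constructor
  · rintro (rfl | ⟨h3, h4 | h4⟩)
    · exact h1
    · exact absurd h4 h3
    · exact h4.2
  · intro hx
    by_cases h3 : x = p.1
    · exact Or.inl h3
    · refine Or.inr ⟨?_, Or.inr ⟨h3, hx⟩⟩
      rintro rfl
      exact h2 hx

/-- symmetry of the moves -/
lemma Mat.sum_moves (G : Finset α → Finset α → ℝ) :
    ∑ B ∈ M.bases, ∑ p ∈ M.moves B, G B (move B p) =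
      ∑ B ∈ M.bases, ∑ p ∈ M.moves B, G (move B p) B := by
  rw [sum_sigma', sum_sigma']
  refine sum_bij' (fun x _ => ⟨move x.1 x.2, x.2.swap⟩) (fun x _ => ⟨move x.1 x.2, x.2.swap⟩)
    ?_ ?_ ?_ ?_ ?_
  · rintro ⟨B, p⟩ h
    simp only [mem_sigma, M.mem_moves] at h ⊢
    refine ⟨h.2.2.2, ?_, ?_, ?_⟩
    · simp [move]
    · simp only [move, Prod.snd_swap, mem_insert, mem_erase, ne_eq, not_true_eq_false, false_and,
        or_false]
      intro h1
      exact h.2.2.1 (h1 ▸ h.2.1)
    · rw [move_swap h.2.1 h.2.2.1]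
      exact h.1
  · rintro ⟨B, p⟩ h
    simp only [mem_sigma, M.mem_moves] at h ⊢
    refine ⟨h.2.2.2, ?_, ?_, ?_⟩
    · simp [move]
    · simp only [move, Prod.snd_swap, mem_insert, mem_erase, ne_eq, not_true_eq_false, false_and,
        or_false]
      intro h1
      exact h.2.2.1 (h1 ▸ h.2.1)
    · rw [move_swap h.2.1 h.2.2.1]
      exact h.1
  · rintro ⟨B, p⟩ h
    simp only [mem_sigma, M.mem_moves] at h
    simp only [move_swap h.2.1 h.2.2.1, Prod.swap_swap]
  · rintro ⟨B, p⟩ h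
    simp only [mem_sigma, M.mem_moves] at h
    simp only [move_swap h.2.1 h.2.2.1, Prod.swap_swap]
  · rintro ⟨B, p⟩ h
    simp only [mem_sigma, M.mem_moves] at h
    simp only [move_swap h.2.1 h.2.2.1]

lemma Mat.sum_Lap (f : Finset α → ℝ) : ∑ B ∈ M.bases, M.Lap f B = 0 := by
  have h := M.sum_moves (fun B B' => f B - f B')
  unfold Mat.Lap
  have h2 : ∑ B ∈ M.bases, ∑ p ∈ M.moves B, (f (move B p) - f B) =
      - ∑ B ∈ M.bases, ∑ p ∈ M.moves B, (f B - f (move B p)) := by
    rw [← sum_neg_distrib]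
    apply sum_congr rfl
    intro B _
    rw [← sum_neg_distrib]
    exact sum_congr rfl fun p _ => by ring
  rw [h2] at h
  linarith

lemma Mat.inner_Lap (f : Finset α → ℝ) : 2 * ∑ B ∈ M.bases, f B * M.Lap f B = M.E f := by
  have h := M.sum_moves (fun B B' => f B * (f B - f B'))
  have h1 : ∑ B ∈ M.bases, f B * M.Lap f B =
      ∑ B ∈ M.bases, ∑ p ∈ M.moves B, f B * (f B - f (move B p)) := by
    apply sum_congr rfl
    intro B _
    unfold Mat.Lap
    rw [mul_sum]
  have h2 : M.E f = ∑ B ∈ M.bases, ∑ p ∈ M.moves B, f B * (f B - f (move B p)) +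
      ∑ B ∈ M.bases, ∑ p ∈ M.moves B, f (move B p) * (f (move B p) - f B) := by
    unfold Mat.E
    rw [← sum_add_distrib]
    apply sum_congr rfl
    intro B _
    rw [← sum_add_distrib]
    exact sum_congr rfl fun p _ => by ring
  rw [h2, h1, ← h]
  ring

lemma Mat.norm_Lap (f : Finset α → ℝ) :
    ∑ B ∈ M.bases, M.Lap f B ^ 2 ≤ (Fintype.card α : ℝ) ^ 2 * M.E f := by
  unfold Mat.E
  rw [mul_sum]
  apply sum_le_sum
  intro B _
  unfold Mat.Lap
  have h := sq_sum_le_card_mul_sum_sq (s := M.moves B) (f := fun p => f B - f (move B p))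
  refine h.trans ?_
  apply mul_le_mul_of_nonneg_right _ (sum_nonneg fun p _ => sq_nonneg _)
  have h1 : (M.moves B).card ≤ Fintype.card α ^ 2 := by
    refine (card_le_univ _).trans ?_
    rw [Fintype.card_prod, sq]
  exact_mod_cast h1

lemma Mat.sum_low (G : Finset α → Finset α → ℝ) :
    ∑ S ∈ low r (∅ : Finset α), ∑ B ∈ M.up S, G S B =
      ∑ B ∈ M.bases, ∑ i ∈ B, G (B.erase i) B := by
  rw [sum_sigma', sum_sigma']
  symm
  refine sum_bij (fun x _ => ⟨x.1.erase x.2, x.1⟩) ?_ ?_ ?_ ?_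
  · rintro ⟨B, i⟩ h
    simp only [mem_sigma, mem_low, M.mem_up] at h ⊢
    have hB := (M.mem_bases.1 h.1).2
    have hpos := card_pos.2 ⟨i, h.2⟩
    refine ⟨⟨empty_subset _, ?_⟩, h.1, erase_subset _ _⟩
    rw [card_erase_of_mem h.2]
    omega
  · rintro ⟨B, i⟩ h ⟨B', i'⟩ h' heq
    simp only [mem_sigma] at h h'
    simp only [Sigma.mk.injEq, heq_eq_eq] at heq
    obtain ⟨h1, rfl⟩ := heq
    have : i = i' := by
      by_contra hne
      have h2 : i ∈ B.erase i' := mem_erase.2 ⟨hne, h.2⟩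
      rw [← h1] at h2
      exact notMem_erase i B h2
    rw [this]
  · rintro ⟨S, B⟩ h
    simp only [mem_sigma, mem_low, M.mem_up] at h
    have hB := (M.mem_bases.1 h.2.1).2
    have h1 : (B \ S).card = 1 := by
      rw [card_sdiff_of_subset h.2.2]
      omega
    obtain ⟨i, hi⟩ := card_eq_one.1 h1
    have hiB : i ∈ B \ S := by rw [hi]; exact mem_singleton_self i
    rw [mem_sdiff] at hiB
    refine ⟨⟨B, i⟩, ?_, ?_⟩
    · simp only [mem_sigma]
      exact ⟨h.2.1, hiB.1⟩
    · have : B.erase i = S := by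
        rw [← sdiff_singleton_eq_erase, ← hi, Finset.sdiff_sdiff_eq_self h.2.2]
      simp only [this]
  · rintro ⟨B, i⟩ h
    rfl

lemma Mat.sum_up_low {S : Finset α} (hS : S.card + 1 = r) (H : Finset α → ℝ) :
    ∑ B ∈ M.up S, H B =
      ∑ j ∈ univ.filter (fun j => j ∉ S ∧ insert j S ∈ M.bases), H (insert j S) := by
  symm
  refine sum_bij (fun j _ => insert j S) ?_ ?_ ?_ ?_
  · intro j hj
    simp only [mem_filter, mem_univ, true_and] at hj
    exact M.mem_up.2 ⟨hj.2, subset_insert _ _⟩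
  · intro j hj j' hj' h
    simp only [mem_filter, mem_univ, true_and] at hj hj'
    have h1 : j ∈ insert j' S := h ▸ mem_insert_self j S
    rw [mem_insert] at h1
    rcases h1 with h1 | h1
    · exact h1
    · exact absurd h1 hj.1
  · intro B hB
    have hB' := M.card_of_up hB
    have hSB := (M.mem_up.1 hB).2
    have h1 : (B \ S).card = 1 := by
      rw [card_sdiff_of_subset hSB]
      omega
    obtain ⟨i, hi⟩ := card_eq_one.1 h1
    have hiB : i ∈ B \ S := by rw [hi]; exact mem_singleton_self i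
    rw [mem_sdiff] at hiB
    have h2 : insert i S = B := by
      rw [insert_eq, ← hi, sdiff_union_of_subset hSB]
    refine ⟨i, ?_, h2⟩
    simp only [mem_filter, mem_univ, true_and]
    exact ⟨hiB.2, h2 ▸ (M.mem_up.1 hB).1⟩
  · intro j _
    rfl

/-- The spectral gap of the exchange graph is at least one. -/
theorem Mat.gap (f : Finset α → ℝ) (hf : ∑ B ∈ M.bases, f B = 0) :
    2 * ∑ B ∈ M.bases, f B ^ 2 ≤ M.E f := by
  have hE0 : 0 ≤ M.E f := sum_nonneg fun B _ => sum_nonneg fun p _ => sq_nonneg _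
  rcases Nat.eq_zero_or_pos r with hr | hr
  · have h1 : M.bases = {∅} := by
      ext B
      rw [M.mem_bases, mem_singleton]
      constructor
      · exact fun h => card_eq_zero.1 (h.2.trans hr)
      · rintro rfl
        exact ⟨M.empty, card_empty.trans hr.symm⟩
    rw [h1, sum_singleton] at hf
    have h2 : ∑ B ∈ M.bases, f B ^ 2 = 0 := by
      rw [h1, sum_singleton, hf]
      norm_num
    rw [h2]
    linarith
  · have hup : M.up ∅ = M.bases := by
      ext B
      rw [M.mem_up]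
      simp
    have h1 := M.var_le (r - 1) ∅ f (by rw [card_empty]; omega)
    have h2 : M.V f ∅ = ∑ B ∈ M.bases, f B ^ 2 := by
      unfold Mat.V Mat.F
      rw [hup, hf]
      simp
    rw [h2] at h1
    have h3 : ∀ S ∈ low r (∅ : Finset α), 2 * M.V f S ≤
        ∑ B ∈ M.up S, ∑ B' ∈ M.up S, (f B - f B') ^ 2 := by
      intro S _
      have h4 : ∑ B ∈ M.up S, ∑ B' ∈ M.up S, (f B - f B') ^ 2 =
          2 * (M.c S * ∑ B ∈ M.up S, f B ^ 2 - M.F f S ^ 2) := by
        have h5 : ∀ B ∈ M.up S, ∑ B' ∈ M.up S, (f B - f B') ^ 2 =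
            M.c S * f B ^ 2 - 2 * f B * M.F f S + ∑ B' ∈ M.up S, f B' ^ 2 := by
          intro B _
          have h6 : ∀ B' ∈ M.up S, (f B - f B') ^ 2 = f B ^ 2 - 2 * f B * f B' + f B' ^ 2 := by
            intro B' _
            ring
          rw [sum_congr rfl h6, sum_add_distrib, sum_sub_distrib, sum_const, nsmul_eq_mul,
            ← mul_sum]
          rfl
        rw [sum_congr rfl h5, sum_add_distrib, sum_sub_distrib, ← mul_sum, ← sum_mul, ← mul_sum,
          sum_const, nsmul_eq_mul]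
        have h7 : ((M.up S).card : ℝ) = M.c S := rfl
        have h8 : ∑ B ∈ M.up S, f B = M.F f S := rfl
        rw [h7, h8]
        ring
      rw [h4]
      unfold Mat.V
      by_cases hc : M.up S = ∅
      · unfold Mat.F Mat.c
        rw [hc]
        simp
      · have hc1 : 1 ≤ M.c S := by
          unfold Mat.c
          have := card_pos.2 (nonempty_iff_ne_empty.2 hc)
          exact_mod_cast this
        have hcpos : 0 < M.c S := by linarith
        have h9 : 0 ≤ M.c S * ∑ B ∈ M.up S, f B ^ 2 - M.F f S ^ 2 := by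
          have := sq_sum_le_card_mul_sum_sq (s := M.up S) (f := f)
          unfold Mat.F Mat.c
          linarith
        have h10 : ∑ B ∈ M.up S, f B ^ 2 - M.F f S ^ 2 / M.c S =
            (M.c S * ∑ B ∈ M.up S, f B ^ 2 - M.F f S ^ 2) / M.c S := by
          field_simp
        rw [h10]
        apply mul_le_mul_of_nonneg_left _ (by norm_num)
        exact div_le_self h9 hc1
    have h4 : ∑ S ∈ low r (∅ : Finset α), ∑ B ∈ M.up S, ∑ B' ∈ M.up S, (f B - f B') ^ 2 =
        M.E f := by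
      rw [M.sum_low (fun S B => ∑ B' ∈ M.up S, (f B - f B') ^ 2)]
      unfold Mat.E
      apply sum_congr rfl
      intro B hB
      have hBc := (M.mem_bases.1 hB).2
      have h5 : ∀ i ∈ B, ∑ B' ∈ M.up (B.erase i), (f B - f B') ^ 2 =
          ∑ j ∈ univ.filter (fun j => j ∉ B ∧ insert j (B.erase i) ∈ M.bases),
            (f B - f (insert j (B.erase i))) ^ 2 := by
        intro i hi
        have hpos := card_pos.2 ⟨i, hi⟩
        rw [M.sum_up_low (by rw [card_erase_of_mem hi]; omega)]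
        symm
        apply sum_subset
        · intro j
          simp only [mem_filter, mem_univ, true_and, mem_erase]
          rintro ⟨h6, h7⟩
          exact ⟨fun h8 => h6 h8.2, h7⟩
        · intro j
          simp only [mem_filter, mem_univ, true_and, mem_erase]
          rintro ⟨h6, h7⟩ h8
          have h9 : j = i := by
            by_contra hne
            by_cases hjB : j ∈ B
            · exact h6 ⟨hne, hjB⟩
            · exact h8 ⟨hjB, h7⟩
          rw [h9, insert_erase hi]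
          ring
      rw [sum_congr rfl h5, sum_sigma']
      symm
      refine sum_bij' (fun p _ => (⟨p.1, p.2⟩ : (_ : α) × α)) (fun x _ => (x.1, x.2)) ?_ ?_ ?_ ?_ ?_
      · intro p hp
        rw [M.mem_moves] at hp
        simp only [mem_sigma, mem_filter, mem_univ, true_and]
        exact hp
      · intro x hx
        simp only [mem_sigma, mem_filter, mem_univ, true_and] at hx
        rw [M.mem_moves]
        exact hx
      · intro p _; rfl
      · intro x _; rfl
      · intro p _; rfl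
    calc 2 * ∑ B ∈ M.bases, f B ^ 2 ≤ 2 * ∑ S ∈ low r (∅ : Finset α), M.V f S :=
          mul_le_mul_of_nonneg_left h1 (by norm_num)
      _ = ∑ S ∈ low r (∅ : Finset α), 2 * M.V f S := mul_sum _ _ _
      _ ≤ _ := sum_le_sum h3
      _ = M.E f := h4

/-- The contraction of one step of the walk with `N ^ 2` equally likely proposals. -/
theorem Mat.contract (N : ℕ) (hN : 2 * Fintype.card α ≤ N) (hN0 : 1 ≤ N) (f : Finset α → ℝ)
    (hf : ∑ B ∈ M.bases, f B = 0) :
    ∑ B ∈ M.bases, ((N : ℝ) ^ 2 * f B - M.Lap f B) ^ 2 ≤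
      (N : ℝ) ^ 2 * ((N : ℝ) ^ 2 - 1) * ∑ B ∈ M.bases, f B ^ 2 := by
  have h1 := M.gap f hf
  have h2 := M.inner_Lap f
  have h3 := M.norm_Lap f
  have hE0 : 0 ≤ M.E f := sum_nonneg fun B _ => sum_nonneg fun p _ => sq_nonneg _
  have h4 : ∑ B ∈ M.bases, ((N : ℝ) ^ 2 * f B - M.Lap f B) ^ 2 =
      (N : ℝ) ^ 4 * ∑ B ∈ M.bases, f B ^ 2 - 2 * (N : ℝ) ^ 2 * ∑ B ∈ M.bases, f B * M.Lap f B +
        ∑ B ∈ M.bases, M.Lap f B ^ 2 := by
    rw [mul_sum, mul_sum, ← sum_sub_distrib, ← sum_add_distrib]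
    exact sum_congr rfl fun B _ => by ring
  rw [h4]
  have h5 : (Fintype.card α : ℝ) ^ 2 * M.E f ≤ (N : ℝ) ^ 2 / 4 * M.E f := by
    apply mul_le_mul_of_nonneg_right _ hE0
    have : 2 * (Fintype.card α : ℝ) ≤ N := by exact_mod_cast hN
    have h0 : (0 : ℝ) ≤ Fintype.card α := Nat.cast_nonneg _
    nlinarith
  have hN1 : (0 : ℝ) < (N : ℝ) ^ 2 := by
    have : (0 : ℝ) < N := by exact_mod_cast hN0
    positivity
  have h6 : (N : ℝ) ^ 2 * (2 * ∑ B ∈ M.bases, f B ^ 2) ≤ (N : ℝ) ^ 2 * M.E f :=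
    mul_le_mul_of_nonneg_left h1 hN1.le
  have h7 : (N : ℝ) ^ 2 * (2 * ∑ B ∈ M.bases, f B * M.Lap f B) = (N : ℝ) ^ 2 * M.E f := by
    rw [h2]
  have h8 : 0 ≤ (N : ℝ) ^ 2 * M.E f := mul_nonneg hN1.le hE0
  nlinarith

end Pool.Agent.Q330.MS
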