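import Mathlib
import Pool.Agent.Q330.MS.Code

set_option autoImplicit false

/-!
# The search for the interval
-/

namespace Pool.Agent.Q330.MS

open Finset

section

variable {v P Z : ℕ}

lemma findStep_some (T : List (List Bool × ℕ)) (A : ℕ) (y : List Bool) :
    (T.foldl (findStep v P Z) (A, some y)).2 = some y := by
  induction T generalizing A with
  | nil => rfl
  | cons e T ih =>
    rw [List.foldl_cons]
    exact ih _

lemma findStep_none (T : List (List Bool × ℕ)) (A : ℕ) (e : List Bool × ℕ) :
    ((e :: T).foldl (findStep v P Z) (A, none)).2 =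
      if inside A e.2 v P Z = true then some e.1 else (T.foldl (findStep v P Z) (A + e.2, none)).2
    := by
  rw [List.foldl_cons]
  by_cases h : inside A e.2 v P Z = true
  · rw [if_pos h]
    have : findStep v P Z (A, none) e = (A + e.2, some e.1) := by
      simp [findStep, h]
    rw [this, findStep_some]
  · rw [if_neg h]
    have h' : inside A e.2 v P Z = false := by simpa using h
    have : findStep v P Z (A, none) e = (A + e.2, none) := by
      simp [findStep, h']
    rw [this]

lemma inside_iff {A a : ℕ} : inside A a v P Z = true ↔ A * P ≤ v * Z ∧ (v + 1) * Z ≤ (A + a) * P := by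
  simp [inside]

lemma findStep_iff (hZ : 0 < Z) (T : List (List Bool × ℕ)) (y : List Bool) : ∀ A : ℕ,
    ((T.foldl (findStep v P Z) (A, none)).2 = some y ↔
      ∃ T1 a T2, T = T1 ++ (y, a) :: T2 ∧ inside (A + (T1.map Prod.snd).sum) a v P Z = true) := by
  induction T with
  | nil =>
    intro A
    simp
  | cons e T ih =>
    intro A
    rw [findStep_none]
    by_cases h : inside A e.2 v P Z = true
    · rw [if_pos h]
      constructor
      · intro h1
        rw [Option.some.injEq] at h1
        exact ⟨[], e.2, T, by rw [← h1]; rfl, by simpa using h⟩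
      · rintro ⟨T1, a, T2, h1, h2⟩
        cases T1 with
        | nil =>
          simp only [List.nil_append, List.cons.injEq] at h1
          rw [h1.1]
        | cons e' T1 =>
          exfalso
          simp only [List.cons_append, List.cons.injEq] at h1
          rw [inside_iff] at h h2
          rw [List.map_cons, List.sum_cons, ← h1.1] at h2
          have h3 : (A + e.2) * P ≤ (A + (e.2 + (T1.map Prod.snd).sum)) * P :=
            Nat.mul_le_mul_right _ (by omega)
          nlinarith [h.2, h2.1]
    · rw [if_neg h, ih]
      constructor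
      · rintro ⟨T1, a, T2, h1, h2⟩
        refine ⟨e :: T1, a, T2, by rw [h1]; rfl, ?_⟩
        rw [List.map_cons, List.sum_cons, ← add_assoc]
        exact h2
      · rintro ⟨T1, a, T2, h1, h2⟩
        cases T1 with
        | nil =>
          exfalso
          simp only [List.nil_append, List.cons.injEq] at h1
          apply h
          rw [h1.1]
          simpa using h2
        | cons e' T1 =>
          simp only [List.cons_append, List.cons.injEq] at h1
          refine ⟨T1, a, T2, h1.2, ?_⟩
          rw [List.map_cons, List.sum_cons, ← add_assoc, ← h1.1] at h2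
          exact h2

lemma find_iff (hZ : 0 < Z) (T : List (List Bool × ℕ)) (y : List Bool) :
    find v P Z T = some y ↔
      ∃ T1 a T2, T = T1 ++ (y, a) :: T2 ∧ inside (T1.map Prod.snd).sum a v P Z = true := by
  unfold find
  rw [findStep_iff hZ T y 0]
  simp only [zero_add]

end

lemma inside_refine {A a v P Z : ℕ} (c : Bool) (h : inside A a v P Z = true) :
    inside A a (2 * v + (if c then 1 else 0)) (P * 2) Z = true := by
  rw [inside_iff] at h ⊢
  obtain ⟨h1, h2⟩ := h
  have hc : (if c then 1 else 0) ≤ 1 := by cases c <;> simp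
  constructor
  · calc A * (P * 2) = (A * P) * 2 := by ring
      _ ≤ (v * Z) * 2 := Nat.mul_le_mul_right _ h1
      _ = 2 * v * Z := by ring
      _ ≤ _ := Nat.mul_le_mul_right _ (by omega)
  · calc (2 * v + (if c then 1 else 0) + 1) * Z ≤ (2 * (v + 1)) * Z :=
          Nat.mul_le_mul_right _ (by omega)
      _ = ((v + 1) * Z) * 2 := by ring
      _ ≤ ((A + a) * P) * 2 := Nat.mul_le_mul_right _ h2
      _ = _ := by ring

lemma find_refine {v P Z : ℕ} (hZ : 0 < Z) {T : List (List Bool × ℕ)} {y : List Bool} (c : Bool)
    (h : find v P Z T = some y) : find (2 * v + (if c then 1 else 0)) (P * 2) Z T = some y := by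
  rw [find_iff hZ] at h ⊢
  obtain ⟨T1, a, T2, h1, h2⟩ := h
  exact ⟨T1, a, T2, h1, inside_refine c h2⟩

/-- the number of dyadic intervals inside an interval -/
lemma card_inside_le {A a P Z : ℕ} (hZ : 0 < Z) :
    Z * ((range P).filter (fun v => inside A a v P Z = true)).card ≤ a * P := by
  set s := (range P).filter (fun v => inside A a v P Z = true) with hs
  rcases s.eq_empty_or_nonempty with h | h
  · rw [h]
    simp
  · have h1 := s.min'_mem h
    have h2 := s.max'_mem h
    set v0 := s.min' h
    set v1 := s.max' h
    rw [hs, mem_filter, inside_iff] at h1 h2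
    have h3 : s ⊆ Icc v0 v1 := fun v hv => mem_Icc.2 ⟨s.min'_le v hv, s.le_max' v hv⟩
    have h4 := card_le_card h3
    rw [Nat.card_Icc] at h4
    have h5 : v0 ≤ v1 := s.min'_le _ (s.max'_mem h)
    have h6 : Z * s.card + v0 * Z ≤ (v1 + 1) * Z := by
      have : s.card + v0 ≤ v1 + 1 := by omega
      calc Z * s.card + v0 * Z = (s.card + v0) * Z := by ring
        _ ≤ _ := Nat.mul_le_mul_right _ this
    have h7 : (A + a) * P = A * P + a * P := by ring
    have h8 := h1.2.1
    have h9 := h2.2.2
    omega

lemma card_inside_ge {A a P Z : ℕ} (hZ : 0 < Z) (hA : A + a ≤ Z) :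
    a * P ≤ Z * (((range P).filter (fun v => inside A a v P Z = true)).card + 2) := by
  set s := (range P).filter (fun v => inside A a v P Z = true) with hs
  set lo := A * P / Z + 1 with hlo
  set hi := (A + a) * P / Z with hhi
  have h1 : Ico lo hi ⊆ s := by
    intro v hv
    rw [mem_Ico] at hv
    have h2 : hi ≤ P := by
      rw [hhi]
      apply Nat.div_le_of_le_mul
      exact Nat.mul_le_mul_right _ hA
    rw [hs, mem_filter, mem_range, inside_iff]
    refine ⟨by omega, ?_, ?_⟩
    · have h3 : A * P < (A * P / Z + 1) * Z := by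
        have := Nat.lt_div_mul_add (a := A * P) hZ
        calc A * P < A * P / Z * Z + Z := this
          _ = _ := by ring
      exact h3.le.trans (Nat.mul_le_mul_right _ hv.1)
    · calc (v + 1) * Z ≤ hi * Z := Nat.mul_le_mul_right _ hv.2
        _ ≤ _ := Nat.div_mul_le_self _ _
  have h2 := card_le_card h1
  rw [Nat.card_Ico] at h2
  have h3 : (A + a) * P < hi * Z + Z := Nat.lt_div_mul_add hZ
  have h4 : A * P / Z * Z ≤ A * P := Nat.div_mul_le_self _ _
  have h5 : lo * Z ≤ A * P + Z := by
    calc lo * Z = A * P / Z * Z + Z := by rw [hlo]; ring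
      _ ≤ _ := by omega
  have h6 : hi * Z ≤ (s.card + lo) * Z := Nat.mul_le_mul_right _ (by omega)
  have h7 : (s.card + lo) * Z = s.card * Z + lo * Z := by ring
  have h8 : Z * (s.card + 2) = s.card * Z + Z + Z := by ring
  have h9 : (A + a) * P = A * P + a * P := by ring
  omega

/-- the number of `v` for which the search finds `y` -/
def fcount (P Z : ℕ) (T : List (List Bool × ℕ)) (y : List Bool) : ℕ :=
  ((range P).filter (fun v => find v P Z T = some y)).card

lemma fcount_eq {P Z : ℕ} (hZ : 0 < Z) {T1 T2 : List (List Bool × ℕ)} {y : List Bool} {a : ℕ}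
    (hn : ((T1 ++ (y, a) :: T2).map Prod.fst).Nodup) :
    fcount P Z (T1 ++ (y, a) :: T2) y =
      ((range P).filter (fun v => inside (T1.map Prod.snd).sum a v P Z = true)).card := by
  unfold fcount
  congr 1
  apply filter_congr
  intro v _
  rw [find_iff hZ]
  constructor
  · rintro ⟨T1', a', T2', h1, h2⟩
    have key : ∀ (L1 L1' L2 L2' : List (List Bool × ℕ)),
        ((L1 ++ (y, a) :: L2).map Prod.fst).Nodup → L1 ++ (y, a) :: L2 = L1' ++ (y, a') :: L2' →
        L1 = L1' ∧ a = a' := by
      intro L1
      induction L1 with
      | nil =>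
        intro L1' L2 L2' hn h
        cases L1' with
        | nil =>
          simp only [List.nil_append, List.cons.injEq, Prod.mk.injEq, true_and] at h
          exact ⟨rfl, h.1⟩
        | cons e L =>
          exfalso
          simp only [List.nil_append, List.cons_append, List.cons.injEq] at h
          simp only [List.nil_append, List.map_cons, List.nodup_cons] at hn
          apply hn.1
          rw [h.2]
          simp
      | cons e L1 ih =>
        intro L1' L2 L2' hn h
        cases L1' with
        | nil =>
          exfalso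
          simp only [List.nil_append, List.cons_append, List.cons.injEq] at h
          simp only [List.cons_append, List.map_cons, List.nodup_cons] at hn
          apply hn.1
          rw [h.1]
          simp
        | cons e' L1' =>
          simp only [List.cons_append, List.cons.injEq] at h
          simp only [List.cons_append, List.map_cons, List.nodup_cons] at hn
          obtain ⟨h3, h4⟩ := ih L1' L2 L2' hn.2 h.2
          exact ⟨by rw [h.1, h3], h4⟩
    obtain ⟨h3, h4⟩ := key T1 T1' T2 T2' hn h1
    rw [h3, h4]
    exact h2
  · intro h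
    exact ⟨T1, a, T2, rfl, h⟩

lemma fcount_le {P Z : ℕ} (hZ : 0 < Z) {T : List (List Bool × ℕ)} {y : List Bool} {a : ℕ}
    (hn : (T.map Prod.fst).Nodup) (hy : (y, a) ∈ T) : Z * fcount P Z T y ≤ a * P := by
  obtain ⟨T1, T2, rfl⟩ := List.append_of_mem hy
  rw [fcount_eq hZ hn]
  exact card_inside_le hZ

lemma fcount_ge {P Z : ℕ} (hZ : 0 < Z) {T : List (List Bool × ℕ)} {y : List Bool} {a : ℕ}
    (hn : (T.map Prod.fst).Nodup) (hy : (y, a) ∈ T) (hsum : (T.map Prod.snd).sum ≤ Z) :
    a * P ≤ Z * (fcount P Z T y + 2) := by
  obtain ⟨T1, T2, rfl⟩ := List.append_of_mem hy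
  rw [fcount_eq hZ hn]
  apply card_inside_ge hZ
  rw [List.map_append, List.map_cons, List.sum_append, List.sum_cons] at hsum
  simp only at hsum
  omega

end Pool.Agent.Q330.MS
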