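import Mathlib
import Pool.Agent.Q330.MS.Chain
import Pool.Agent.Q330.MS.CodePoly

set_option autoImplicit false

/-!
# Semantics of the algorithm
-/

namespace Pool.Agent.Q330.MS

open Finset Pool.Agent.NPC

/-- the set with a given characteristic vector -/
def toSet (m : ℕ) (y : List Bool) : Finset (Fin m) := univ.filter (fun i => y.getD i false = true)

/-- the characteristic vector -/
def ofSet {m : ℕ} (B : Finset (Fin m)) : List Bool := List.ofFn (fun i => decide (i ∈ B))

lemma mem_toSet {m : ℕ} {y : List Bool} {i : Fin m} :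
    i ∈ toSet m y ↔ y.getD i false = true := by
  simp [toSet]

lemma length_ofSet {m : ℕ} (B : Finset (Fin m)) : (ofSet B).length = m := List.length_ofFn

lemma getD_ofSet {m : ℕ} (B : Finset (Fin m)) (i : Fin m) :
    (ofSet B).getD i false = decide (i ∈ B) := by
  rw [List.getD_eq_getElem _ _ (by rw [length_ofSet]; exact i.2)]
  simp [ofSet]

lemma toSet_ofSet {m : ℕ} (B : Finset (Fin m)) : toSet m (ofSet B) = B := by
  ext i
  rw [mem_toSet, getD_ofSet]
  simp

lemma toSet_inj {m : ℕ} {y z : List Bool} (hy : y.length = m) (hz : z.length = m)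
    (h : toSet m y = toSet m z) : y = z := by
  apply List.ext_getElem (hy.trans hz.symm)
  intro i h1 h2
  have h3 : (⟨i, hy ▸ h1⟩ : Fin m) ∈ toSet m y ↔ (⟨i, hy ▸ h1⟩ : Fin m) ∈ toSet m z := by rw [h]
  rw [mem_toSet, mem_toSet, List.getD_eq_getElem _ _ h1, List.getD_eq_getElem _ _ h2] at h3
  cases h4 : y[i] <;> cases h5 : z[i] <;> simp_all

lemma ofSet_toSet {m : ℕ} {y : List Bool} (hy : y.length = m) : ofSet (toSet m y) = y :=
  toSet_inj (length_ofSet _) hy (toSet_ofSet _)

lemma getD_map_range (m : ℕ) (f : ℕ → Bool) (i : Fin m) :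
    ((List.range m).map f).getD i false = f i := by
  rw [List.getD_eq_getElem _ _ (by simp)]
  simp

lemma toSet_setT {m : ℕ} (y : List Bool) (j : Fin m) :
    toSet m (setT m y j) = insert j (toSet m y) := by
  ext i
  rw [mem_toSet, setT, getD_map_range, mem_insert, mem_toSet]
  by_cases h : i = j
  · simp [h]
  · have : (i : ℕ) ≠ j := fun h' => h (Fin.ext h')
    simp [h, this]

lemma toSet_mv {m : ℕ} (y : List Bool) (i j : Fin m) :
    toSet m (mv m y i j) = move (toSet m y) (i, j) := by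
  ext k
  rw [mem_toSet, mv, getD_map_range]
  simp only [move, mem_insert, mem_erase, mem_toSet]
  by_cases h : k = j
  · simp [h]
  · have h' : (k : ℕ) ≠ j := fun h' => h (Fin.ext h')
    by_cases h2 : k = i
    · subst h2
      simp [h, h']
    · have h2' : (k : ℕ) ≠ i := fun h' => h2 (Fin.ext h')
      simp [h, h', h2, h2']

lemma cntT_eq {m : ℕ} {y : List Bool} (hy : y.length = m) : cntT y = (toSet m y).card := by
  subst hy
  unfold cntT toSet
  rw [← List.countP_eq_length_filter]
  induction y with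
  | nil => simp
  | cons b y ih =>
    rw [List.countP_cons]
    change _ = ((univ : Finset (Fin (y.length + 1))).filter
      (fun i : Fin (y.length + 1) => (b :: y).getD (i : ℕ) false = true)).card
    rw [Fin.card_filter_univ_succ]
    simp only [Fin.val_zero, List.getD_cons_zero, Fin.val_succ, List.getD_cons_succ]
    rw [ih]
    cases b <;> simp

variable {X : Type} [TEnc X] (S : Sys X)

lemma getD_replicate_setT (m : ℕ) : toSet m (setT m [] m) = ∅ := by
  ext i
  rw [mem_toSet, setT, getD_map_range]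
  have : (i : ℕ) ≠ m := i.2.ne
  simp [this]

/-- the oracle `S.I x` is the independence oracle of the matroid `M` -/
def Sys.OK (x : X) {r : ℕ} (M : Mat (Fin (S.m x)) r) : Prop :=
  ∀ y : List Bool, y.length = S.m x → (S.I x y = true ↔ M.Ind (toSet (S.m x) y))

variable {S}
variable {x : X} {r : ℕ} {M : Mat (Fin (S.m x)) r}

lemma Sys.greedy_inv (h : S.OK x M) (n : ℕ) (hn : n ≤ S.m x) :
    ∃ y, (List.range n).foldl (fun y j => bif S.I x (setT (S.m x) y j) then setT (S.m x) y j else y)
      (setT (S.m x) [] (S.m x)) = y ∧ y.length = S.m x ∧ M.Ind (toSet (S.m x) y) ∧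
      ∀ j : Fin (S.m x), (j : ℕ) < n → j ∉ toSet (S.m x) y →
        ¬ M.Ind (insert j (toSet (S.m x) y)) := by
  induction n with
  | zero =>
    refine ⟨_, rfl, length_setT _ _ _, ?_, fun j hj => absurd hj (Nat.not_lt_zero _)⟩
    rw [List.range_zero, List.foldl_nil, getD_replicate_setT]
    exact M.empty
  | succ n ih =>
    obtain ⟨y, h1, h2, h3, h4⟩ := ih (by omega)
    rw [List.range_succ, List.foldl_append, List.foldl_cons, List.foldl_nil, h1]
    have hset := toSet_setT (m := S.m x) y ⟨n, hn⟩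
    simp only at hset
    have hI := h (setT (S.m x) y n) (length_setT _ _ _)
    rw [hset] at hI
    cases hc : S.I x (setT (S.m x) y n)
    · refine ⟨y, by simp, h2, h3, ?_⟩
      intro j hj hjy
      by_cases hjn : (j : ℕ) = n
      · have : j = ⟨n, hn⟩ := Fin.ext hjn
        rw [this, ← hI, hc]
        simp
      · exact h4 j (by omega) hjy
    · refine ⟨setT (S.m x) y n, by simp, length_setT _ _ _, ?_, ?_⟩
      · rw [hset]
        exact hI.1 hc
      · intro j hj hjy
        rw [hset] at hjy ⊢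
        rw [mem_insert] at hjy
        push Not at hjy
        intro h5
        refine h4 j ?_ hjy.2 (M.down ?_ h5)
        · have : (j : ℕ) ≠ n := fun h6 => hjy.1 (Fin.ext h6)
          omega
        · exact insert_subset_insert _ (subset_insert _ _)

lemma Sys.greedy_basis (h : S.OK x M) : toSet (S.m x) (S.greedy x) ∈ M.bases := by
  obtain ⟨y, h1, h2, h3, h4⟩ := Sys.greedy_inv h (S.m x) le_rfl
  unfold Sys.greedy
  rw [h1, M.mem_bases]
  refine ⟨h3, ?_⟩
  by_contra hne
  have hlt : (toSet (S.m x) y).card < r := lt_of_le_of_ne (M.le _ h3) hne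
  obtain ⟨B, hB, hB'⟩ := M.exB
  obtain ⟨e, _, he, hI⟩ := M.exch h3 hB (by omega)
  exact h4 e e.2 he hI

lemma Sys.O_iff (h : S.OK x M) (y : List Bool) :
    S.O x y = true ↔ y.length = S.m x ∧ toSet (S.m x) y ∈ M.bases := by
  unfold Sys.O
  rw [Bool.and_eq_true, Bool.and_eq_true, decide_eq_true_eq, decide_eq_true_eq]
  apply and_congr_right
  intro hy
  rw [h y hy, cntT_eq hy, cntT_eq (S.length_greedy x), M.mem_bases,
    (M.mem_bases.1 (Sys.greedy_basis h)).2]

lemma Sys.step_eq (h : S.OK x M) {y : List Bool} (hy : y.length = S.m x) (i j : ℕ) :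
    (∃ p ∈ M.moves (toSet (S.m x) y), (p.1 : ℕ) = i ∧ (p.2 : ℕ) = j ∧
      toSet (S.m x) (S.step x y i j) = move (toSet (S.m x) y) p) ∨
    ((∀ p ∈ M.moves (toSet (S.m x) y), ¬ ((p.1 : ℕ) = i ∧ (p.2 : ℕ) = j)) ∧
      S.step x y i j = y) := by
  unfold Sys.step
  cases hc : (y.getD i false && !(y.getD j false)) &&
    (decide (j < S.m x) && S.O x (mv (S.m x) y i j))
  · right
    refine ⟨?_, rfl⟩
    rintro p hp ⟨rfl, rfl⟩
    rw [M.mem_moves] at hp
    obtain ⟨h1, h2, h3⟩ := hp
    rw [mem_toSet] at h1 h2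
    have h4 : S.O x (mv (S.m x) y p.1 p.2) = true := by
      rw [Sys.O_iff h, toSet_mv]
      exact ⟨length_mv _ _ _ _, h3⟩
    rw [h1, h4] at hc
    have h5 : y.getD (p.2 : ℕ) false = false := by simpa using h2
    rw [h5] at hc
    simp at hc
  · left
    rw [Bool.and_eq_true, Bool.and_eq_true, Bool.and_eq_true, decide_eq_true_eq,
      Bool.not_eq_true', Sys.O_iff h] at hc
    obtain ⟨⟨h1, h2⟩, h3, h4, h5⟩ := hc
    have hi : i < S.m x := by
      by_contra hcon
      rw [List.getD_eq_default _ _ (by omega)] at h1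
      exact absurd h1 (by simp)
    have h6 := toSet_mv (m := S.m x) y ⟨i, hi⟩ ⟨j, h3⟩
    simp only at h6
    refine ⟨(⟨i, hi⟩, ⟨j, h3⟩), ?_, rfl, rfl, ?_⟩
    · rw [M.mem_moves, mem_toSet, mem_toSet, ← h6]
      exact ⟨h1, by simp only; rw [h2]; simp, h5⟩
    · simp only [cond_true]
      exact h6

lemma Sys.step_basis (h : S.OK x M) {y : List Bool} (hy : y.length = S.m x)
    (hyB : toSet (S.m x) y ∈ M.bases) (i j : ℕ) : toSet (S.m x) (S.step x y i j) ∈ M.bases := by
  rcases Sys.step_eq h hy i j with ⟨p, hp, _, _, h1⟩ | ⟨_, h1⟩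
  · rw [h1]
    exact (M.mem_moves.1 hp).2.2
  · rw [h1]
    exact hyB

lemma Sys.walk_basis (h : S.OK x M) (w : List Bool) (n : ℕ) :
    toSet (S.m x) (S.walkFrom x w (S.greedy x) n) ∈ M.bases := by
  induction n with
  | zero => exact Sys.greedy_basis h
  | succ n ih =>
    have h1 := S.length_walkFrom x w (S.greedy x) n (S.length_greedy x)
    unfold Sys.walkFrom at ih h1 ⊢
    rw [List.range_succ, List.foldl_append, List.foldl_cons, List.foldl_nil]
    exact Sys.step_basis h h1 ih _ _

/-- sums over the proposals -/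
lemma Sys.sum_step (h : S.OK x M) {y : List Bool} (hy : y.length = S.m x)
    (g : Finset (Fin (S.m x)) → ℝ) :
    ∑ i ∈ range (S.N x), ∑ j ∈ range (S.N x), g (toSet (S.m x) (S.step x y i j)) =
      (S.N x : ℝ) ^ 2 * g (toSet (S.m x) y) +
        ∑ p ∈ M.moves (toSet (S.m x) y), (g (move (toSet (S.m x) y) p) - g (toSet (S.m x) y)) := by
  set B := toSet (S.m x) y with hB
  have hmN : S.m x ≤ S.N x := by
    unfold Sys.N Sys.b
    rw [Nat.size_eq_bits_len]
    have := Nat.lt_size_self (2 * S.m x)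
    omega
  have h1 : ∑ i ∈ range (S.N x), ∑ j ∈ range (S.N x), g (toSet (S.m x) (S.step x y i j)) =
      ∑ q ∈ range (S.N x) ×ˢ range (S.N x), (g (toSet (S.m x) (S.step x y q.1 q.2)) - g B) +
        (S.N x : ℝ) ^ 2 * g B := by
    rw [sum_sub_distrib, sum_const, card_product, card_range, nsmul_eq_mul, sum_product]
    push_cast
    ring
  have h2 : ∑ q ∈ range (S.N x) ×ˢ range (S.N x), (g (toSet (S.m x) (S.step x y q.1 q.2)) - g B) =
      ∑ p ∈ M.moves B, (g (move B p) - g B) := by
    symm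
    have h3 : ∑ p ∈ M.moves B, (g (move B p) - g B) =
        ∑ p ∈ M.moves B, (g (toSet (S.m x) (S.step x y (p.1 : ℕ) (p.2 : ℕ))) - g B) := by
      apply sum_congr rfl
      intro p hp
      rcases Sys.step_eq h hy (p.1 : ℕ) (p.2 : ℕ) with ⟨p', hp', h4, h5, h6⟩ | ⟨h4, _⟩
      · have : p' = p := Prod.ext (Fin.ext h4) (Fin.ext h5)
        rw [h6, this]
      · exact absurd ⟨rfl, rfl⟩ (h4 p hp)
    rw [h3]
    have h4 : ∑ q ∈ (M.moves B).image (fun p => ((p.1 : ℕ), (p.2 : ℕ))),
        (g (toSet (S.m x) (S.step x y q.1 q.2)) - g B) =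
        ∑ p ∈ M.moves B, (g (toSet (S.m x) (S.step x y (p.1 : ℕ) (p.2 : ℕ))) - g B) := by
      rw [sum_image]
      intro p _ p' _ hpp
      simp only [Prod.mk.injEq] at hpp
      exact Prod.ext (Fin.ext hpp.1) (Fin.ext hpp.2)
    rw [← h4]
    apply sum_subset
    · intro q hq
      rw [mem_image] at hq
      obtain ⟨p, _, rfl⟩ := hq
      simp only [mem_product, mem_range]
      exact ⟨p.1.2.trans_le hmN, p.2.2.trans_le hmN⟩
    · intro q _ hq
      rcases Sys.step_eq h hy q.1 q.2 with ⟨p', hp', h5, h6, h7⟩ | ⟨_, h5⟩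
      · exfalso
        apply hq
        rw [mem_image]
        exact ⟨p', hp', Prod.ext h5 h6⟩
      · rw [h5]
        simp [hB]
  rw [h1, h2]
  ring

end Pool.Agent.Q330.MS
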