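import Mathlib
import Pool.Agent.Q330.MS.Sem

set_option autoImplicit false

/-!
# Numbers of paths
-/

namespace Pool.Agent.Q330.MS

open Finset Pool.Agent.NPC

/-! ### masks -/

lemma getD_bits (v i : ℕ) : v.bits.getD i false = v.testBit i := by
  rw [Nat.testBit_eq_inth]
  rfl

lemma testBit_valB (y : List Bool) : ∀ i, (valB y).testBit i = y.getD i false := by
  induction y with
  | nil => intro i; simp
  | cons b y ih =>
    intro i
    cases i with
    | zero =>
      rw [valB_cons, Nat.testBit_zero]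
      cases b <;> simp <;> omega
    | succ i =>
      rw [valB_cons, Nat.testBit_succ, List.getD_cons_succ, ← ih]
      congr 1
      cases b <;> simp <;> omega

lemma mask_valB {m : ℕ} {y : List Bool} (hy : y.length = m) : mask m (valB y) = y := by
  subst hy
  apply List.ext_getElem
  · simp [mask]
  · intro i h1 h2
    simp only [mask, List.getElem_map, List.getElem_range]
    rw [getD_bits, testBit_valB, List.getD_eq_getElem _ _ h2]

lemma mask_inj {m v v' : ℕ} (hv : v < 2 ^ m) (hv' : v' < 2 ^ m) (h : mask m v = mask m v') :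
    v = v' := by
  apply Nat.eq_of_testBit_eq
  intro i
  by_cases hi : i < m
  · have h1 : (mask m v).getD i false = (mask m v').getD i false := by rw [h]
    unfold mask at h1
    rw [List.getD_eq_getElem _ _ (by simpa using hi), List.getD_eq_getElem _ _ (by simpa using hi)]
      at h1
    simp only [List.getElem_map, List.getElem_range] at h1
    rwa [getD_bits, getD_bits] at h1
  · have h1 : 2 ^ m ≤ 2 ^ i := Nat.pow_le_pow_right (by norm_num) (by omega)
    rw [Nat.testBit_lt_two_pow (by omega), Nat.testBit_lt_two_pow (by omega)]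

variable {X : Type} [TEnc X] {S : Sys X}
variable {x : X} {r : ℕ} {M : Mat (Fin (S.m x)) r}

lemma Sys.mem_basesL (h : S.OK x M) {L : ℕ} (hL : 2 ^ S.m x ≤ L) (y : List Bool) :
    y ∈ S.basesL x L ↔ y.length = S.m x ∧ toSet (S.m x) y ∈ M.bases := by
  unfold Sys.basesL
  rw [List.mem_filter, List.mem_map, Sys.O_iff h, min_eq_left hL]
  constructor
  · exact fun h => h.2
  · intro hy
    refine ⟨⟨valB y, ?_, mask_valB hy.1⟩, hy⟩
    rw [List.mem_range, ← hy.1]
    exact valB_lt y

lemma Sys.nodup_basesL {L : ℕ} : (S.basesL x L).Nodup := by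
  unfold Sys.basesL
  apply List.Nodup.filter
  apply List.Nodup.map_on _ List.nodup_range
  intro v hv v' hv' h
  rw [List.mem_range] at hv hv'
  exact mask_inj (hv.trans_le (min_le_left _ _)) (hv'.trans_le (min_le_left _ _)) h

/-- sums over the list of bases -/
lemma Sys.sum_basesL (h : S.OK x M) {L : ℕ} (hL : 2 ^ S.m x ≤ L) (g : List Bool → ℕ) :
    ((S.basesL x L).map g).sum = ∑ B ∈ M.bases, g (ofSet B) := by
  rw [← List.sum_toFinset _ Sys.nodup_basesL]
  refine sum_bij' (fun y _ => toSet (S.m x) y) (fun B _ => ofSet B) ?_ ?_ ?_ ?_ ?_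
  · intro y hy
    rw [List.mem_toFinset, Sys.mem_basesL h hL] at hy
    exact hy.2
  · intro B hB
    rw [List.mem_toFinset, Sys.mem_basesL h hL, toSet_ofSet]
    exact ⟨length_ofSet _, hB⟩
  · intro y hy
    rw [List.mem_toFinset, Sys.mem_basesL h hL] at hy
    exact ofSet_toSet hy.1
  · intro B _
    exact toSet_ofSet B
  · intro y hy
    rw [List.mem_toFinset, Sys.mem_basesL h hL] at hy
    rw [ofSet_toSet hy.1]

lemma Sys.length_basesL (h : S.OK x M) {L : ℕ} (hL : 2 ^ S.m x ≤ L) :
    (S.basesL x L).length = M.bases.card := by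
  have := Sys.sum_basesL h hL (fun _ => 1)
  simpa using this

/-! ### coins -/

lemma coin_append_left {u v : List Bool} {pos len : ℕ} (h : pos + len ≤ u.length) :
    coin (u ++ v) pos len = coin u pos len := by
  unfold coin
  congr 1
  apply List.map_congr_left
  intro l hl
  rw [List.mem_range] at hl
  rw [List.getD_append _ _ _ _ (by omega)]

lemma coin_append_right {u v : List Bool} {n pos len : ℕ} (hu : u.length = n) :
    coin (u ++ v) (n + pos) len = coin v pos len := by
  unfold coin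
  congr 1
  apply List.map_congr_left
  intro l _
  rw [List.getD_append_right _ _ _ _ (by omega)]
  congr 1
  omega

lemma map_getD_range (v : List Bool) : (List.range v.length).map (fun l => v.getD l false) = v := by
  apply List.ext_getElem
  · simp
  · intro i h1 h2
    simp only [List.getElem_map, List.getElem_range]
    rw [List.getD_eq_getElem _ _ h2]

lemma coin_full {v : List Bool} {n : ℕ} (h : v.length = n) : coin v 0 n = valB v := by
  subst h
  unfold coin
  simp only [zero_add]
  rw [map_getD_range]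

lemma Sys.walkFrom_succ (w y : List Bool) (n : ℕ) : S.walkFrom x w y (n + 1) =
    S.step x (S.walkFrom x w y n) (coin w (n * (2 * S.b x)) (S.b x))
      (coin w (n * (2 * S.b x) + S.b x) (S.b x)) := by
  unfold Sys.walkFrom
  rw [List.range_succ, List.foldl_append, List.foldl_cons, List.foldl_nil]

lemma Sys.walkFrom_append (u v y : List Bool) (n : ℕ) (h : n * (2 * S.b x) ≤ u.length) :
    S.walkFrom x (u ++ v) y n = S.walkFrom x u y n := by
  induction n with
  | zero => rfl
  | succ n ih =>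
    have h1 : n * (2 * S.b x) + 2 * S.b x ≤ u.length := by
      have : (n + 1) * (2 * S.b x) = n * (2 * S.b x) + 2 * S.b x := by ring
      omega
    rw [Sys.walkFrom_succ, Sys.walkFrom_succ, ih (by omega), coin_append_left (by omega),
      coin_append_left (by omega)]

lemma Sys.walkFrom_append_succ (u v1 v2 y : List Bool) (n : ℕ) (hu : u.length = n * (2 * S.b x))
    (h1 : v1.length = S.b x) (h2 : v2.length = S.b x) :
    S.walkFrom x (u ++ (v1 ++ v2)) y (n + 1) =
      S.step x (S.walkFrom x u y n) (valB v1) (valB v2) := by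
  rw [Sys.walkFrom_succ, Sys.walkFrom_append _ _ _ _ hu.ge]
  congr 1
  · have := coin_append_right (u := u) (v := v1 ++ v2) (pos := 0) (len := S.b x) hu
    rw [add_zero] at this
    rw [this, coin_append_left (by omega), coin_full h1]
  · rw [coin_append_right (u := u) (v := v1 ++ v2) (pos := S.b x) (len := S.b x) hu]
    have := coin_append_right (u := v1) (v := v2) (pos := 0) (len := S.b x) h1
    rw [add_zero] at this
    rw [this, coin_full h2]

/-! ### the numbers of paths -/

/-- the number of outcomes of the coin flips for which the walk is in `y` after `n` steps -/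
def Sys.cnt (S : Sys X) (x : X) (n : ℕ) (y : List Bool) : ℕ :=
  BS (n * (2 * S.b x)) (fun w => if S.walkFrom x w (S.greedy x) n = y then 1 else 0)

lemma Sys.BS_succ (g : List Bool → ℕ) (n : ℕ) :
    BS ((n + 1) * (2 * S.b x)) (fun w => g (S.walkFrom x w (S.greedy x) (n + 1))) =
      BS (n * (2 * S.b x)) (fun u => ∑ i ∈ range (S.N x), ∑ j ∈ range (S.N x),
        g (S.step x (S.walkFrom x u (S.greedy x) n) i j)) := by
  have h1 : (n + 1) * (2 * S.b x) = n * (2 * S.b x) + (S.b x + S.b x) := by ring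
  rw [h1, BS_append]
  apply BS_congr
  intro u hu
  rw [BS_append]
  have h2 : BS (S.b x) (fun v1 => BS (S.b x) (fun v2 =>
      g (S.walkFrom x (u ++ (v1 ++ v2)) (S.greedy x) (n + 1)))) =
      BS (S.b x) (fun v1 => BS (S.b x) (fun v2 =>
        g (S.step x (S.walkFrom x u (S.greedy x) n) (valB v1) (valB v2)))) := by
    apply BS_congr
    intro v1 hv1
    apply BS_congr
    intro v2 hv2
    rw [Sys.walkFrom_append_succ u v1 v2 _ n hu hv1 hv2]
  rw [h2]
  have h3 : ∀ v1 : List Bool, BS (S.b x) (fun v2 =>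
      g (S.step x (S.walkFrom x u (S.greedy x) n) (valB v1) (valB v2))) =
      ∑ j ∈ range (S.N x), g (S.step x (S.walkFrom x u (S.greedy x) n) (valB v1) j) :=
    fun v1 => BS_val (S.b x) (fun j => g (S.step x (S.walkFrom x u (S.greedy x) n) (valB v1) j))
  simp only [h3]
  exact BS_val (S.b x) (fun i => ∑ j ∈ range (S.N x),
    g (S.step x (S.walkFrom x u (S.greedy x) n) i j))

lemma Sys.group (h : S.OK x M) (n : ℕ) (g : List Bool → ℕ) :
    BS (n * (2 * S.b x)) (fun u => g (S.walkFrom x u (S.greedy x) n)) =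
      ∑ B ∈ M.bases, S.cnt x n (ofSet B) * g (ofSet B) := by
  have h1 : ∀ u : List Bool, g (S.walkFrom x u (S.greedy x) n) = ∑ B ∈ M.bases,
      (if S.walkFrom x u (S.greedy x) n = ofSet B then 1 else 0) * g (ofSet B) := by
    intro u
    have h2 := Sys.walk_basis h u n
    have h3 := S.length_walkFrom x u (S.greedy x) n (S.length_greedy x)
    rw [sum_eq_single (toSet (S.m x) (S.walkFrom x u (S.greedy x) n))]
    · rw [ofSet_toSet h3]
      simp
    · intro B _ hB
      rw [if_neg, zero_mul]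
      intro h4
      apply hB
      rw [h4, toSet_ofSet]
    · intro h4
      exact absurd h2 h4
  simp only [h1]
  rw [BS_sum]
  apply sum_congr rfl
  intro B _
  rw [BS_mul_right]
  rfl

lemma Sys.cnt_succ (h : S.OK x M) (n : ℕ) (y : List Bool) : S.cnt x (n + 1) y =
    ∑ B ∈ M.bases, S.cnt x n (ofSet B) * ∑ i ∈ range (S.N x), ∑ j ∈ range (S.N x),
      (if S.step x (ofSet B) i j = y then 1 else 0) := by
  unfold Sys.cnt
  rw [Sys.BS_succ (fun z => if z = y then 1 else 0) n]
  exact Sys.group h n (fun z => ∑ i ∈ range (S.N x), ∑ j ∈ range (S.N x),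
    (if S.step x z i j = y then 1 else 0))

lemma Sys.tab_iter (h : S.OK x M) {L : ℕ} (hL : 2 ^ S.m x ≤ L) (n : ℕ) :
    (S.tabStep x)^[n] (S.tab0 x L) = (S.basesL x L).map (fun y => (y, S.cnt x n y)) := by
  induction n with
  | zero =>
    unfold Sys.tab0
    apply List.map_congr_left
    intro y _
    unfold Sys.cnt
    rw [zero_mul, BS_zero]
    by_cases hy : y = S.greedy x
    · simp [hy, Sys.walkFrom]
    · have : ¬ S.greedy x = y := fun h => hy h.symm
      simp [hy, this, Sys.walkFrom]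
  | succ n ih =>
    rw [Function.iterate_succ_apply', ih]
    unfold Sys.tabStep
    rw [List.map_map]
    apply List.map_congr_left
    intro y _
    simp only [Function.comp]
    congr 1
    rw [Sys.cnt_succ h]
    rw [List.flatMap_def, List.sum_flatten, List.map_map, List.map_map]
    rw [← Sys.sum_basesL h hL (fun z => S.cnt x n z * ∑ i ∈ range (S.N x), ∑ j ∈ range (S.N x),
      (if S.step x z i j = y then 1 else 0))]
    congr 1
    apply List.map_congr_left
    intro z _
    simp only [Function.comp, Sys.contrib]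
    rw [List.flatMap_def, List.sum_flatten, List.map_map, mul_sum]
    have hr : ∀ (N : ℕ) (f : ℕ → ℕ), ((List.range N).map f).sum = ∑ i ∈ range N, f i := by
      intro N f
      rw [← List.sum_toFinset _ List.nodup_range]
      apply sum_congr _ (fun _ _ => rfl)
      ext a
      simp
    rw [hr]
    apply sum_congr rfl
    intro i _
    simp only [Function.comp]
    rw [hr, mul_sum]
    apply sum_congr rfl
    intro j _
    by_cases hij : S.step x z i j = y
    · simp [hij]
    · simp [hij]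

lemma Sys.tab_eq (h : S.OK x M) {L : ℕ} (hL : 2 ^ S.m x ≤ L) :
    S.tab x L = (S.basesL x L).map (fun y => (y, S.cnt x (S.t x) y)) :=
  Sys.tab_iter h hL _

/-! ### the evolution of the numbers of paths -/

/-- the number of paths, as a real function of the basis -/
noncomputable def Sys.f (S : Sys X) (x : X) (n : ℕ) (B : Finset (Fin (S.m x))) : ℝ :=
  S.cnt x n (ofSet B)

lemma Sys.f_succ (h : S.OK x M) (n : ℕ) {A : Finset (Fin (S.m x))} (hA : A ∈ M.bases) :
    S.f x (n + 1) A = (S.N x : ℝ) ^ 2 * S.f x n A - M.Lap (S.f x n) A := by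
  classical
  have h1 : S.f x (n + 1) A = ∑ B ∈ M.bases, S.f x n B * ((S.N x : ℝ) ^ 2 * (if B = A then 1 else 0)
      + ∑ p ∈ M.moves B, ((if move B p = A then (1 : ℝ) else 0) - (if B = A then 1 else 0))) := by
    unfold Sys.f
    rw [Sys.cnt_succ h]
    push_cast
    apply sum_congr rfl
    intro B _
    congr 1
    have h2 := Sys.sum_step h (y := ofSet B) (length_ofSet B) (fun B' => if B' = A then 1 else 0)
    rw [toSet_ofSet] at h2
    rw [← h2]
    apply sum_congr rfl
    intro i _
    apply sum_congr rfl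
    intro j _
    have h3 : S.step x (ofSet B) i j = ofSet A ↔ toSet (S.m x) (S.step x (ofSet B) i j) = A := by
      constructor
      · intro h4
        rw [h4, toSet_ofSet]
      · intro h4
        rw [← h4, ofSet_toSet (S.length_step x _ _ _ (length_ofSet B))]
    by_cases h4 : S.step x (ofSet B) i j = ofSet A
    · rw [if_pos h4, if_pos (h3.1 h4)]
    · rw [if_neg h4, if_neg (fun h5 => h4 (h3.2 h5))]
  have h2 : ∑ B ∈ M.bases, S.f x n B * ((S.N x : ℝ) ^ 2 * (if B = A then 1 else 0)) =
      (S.N x : ℝ) ^ 2 * S.f x n A := by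
    rw [sum_eq_single A]
    · rw [if_pos rfl]
      ring
    · intro B _ hB
      rw [if_neg hB]
      ring
    · intro h3
      exact absurd hA h3
  have h3 : ∑ B ∈ M.bases, ∑ p ∈ M.moves B, S.f x n B * (if move B p = A then (1 : ℝ) else 0) =
      ∑ p ∈ M.moves A, S.f x n (move A p) := by
    rw [M.sum_moves (fun B B' => S.f x n B * (if B' = A then (1 : ℝ) else 0)),
      sum_eq_single A]
    · apply sum_congr rfl
      intro p _
      rw [if_pos rfl, mul_one]
    · intro B _ hB
      apply sum_eq_zero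
      intro p _
      rw [if_neg hB, mul_zero]
    · intro h4
      exact absurd hA h4
  have h4 : ∑ B ∈ M.bases, ∑ p ∈ M.moves B, S.f x n B * (if B = A then (1 : ℝ) else 0) =
      ∑ p ∈ M.moves A, S.f x n A := by
    rw [sum_eq_single A]
    · apply sum_congr rfl
      intro p _
      rw [if_pos rfl, mul_one]
    · intro B _ hB
      apply sum_eq_zero
      intro p _
      rw [if_neg hB, mul_zero]
    · intro h4
      exact absurd hA h4
  rw [h1]
  unfold Mat.Lap
  rw [sum_sub_distrib]
  have h5 : ∑ B ∈ M.bases, S.f x n B * ((S.N x : ℝ) ^ 2 * (if B = A then 1 else 0)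
      + ∑ p ∈ M.moves B, ((if move B p = A then (1 : ℝ) else 0) - (if B = A then 1 else 0))) =
      ∑ B ∈ M.bases, S.f x n B * ((S.N x : ℝ) ^ 2 * (if B = A then 1 else 0)) +
        (∑ B ∈ M.bases, ∑ p ∈ M.moves B, S.f x n B * (if move B p = A then (1 : ℝ) else 0) -
          ∑ B ∈ M.bases, ∑ p ∈ M.moves B, S.f x n B * (if B = A then (1 : ℝ) else 0)) := by
    rw [← sum_sub_distrib, ← sum_add_distrib]
    apply sum_congr rfl
    intro B _
    rw [mul_add, mul_sum]
    congr 1
    rw [← sum_sub_distrib]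
    exact sum_congr rfl fun p _ => by ring
  rw [h5, h2, h3, h4]
  ring

lemma Sys.N_pos : 1 ≤ S.N x := Nat.one_le_two_pow

lemma Sys.N_ge : 2 * Fintype.card (Fin (S.m x)) ≤ S.N x := by
  rw [Fintype.card_fin]
  unfold Sys.N Sys.b
  rw [Nat.size_eq_bits_len]
  exact (Nat.lt_size_self _).le

lemma Sys.two_pow_R : 2 ^ (S.t x * (2 * S.b x)) = (S.N x) ^ (2 * S.t x) := by
  unfold Sys.N
  rw [← pow_mul]
  congr 1
  ring

lemma Sys.sum_f (h : S.OK x M) (n : ℕ) :
    ∑ B ∈ M.bases, S.f x n B = ((S.N x : ℝ) ^ 2) ^ n := by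
  have h1 := Sys.group h n (fun _ => 1)
  rw [BS_const] at h1
  simp only [mul_one] at h1
  unfold Sys.f
  rw [← Nat.cast_sum, ← h1]
  push_cast
  unfold Sys.N
  push_cast
  rw [← pow_mul, ← pow_mul]
  congr 1
  ring

lemma Sys.card_pos : 0 < M.bases.card := by
  obtain ⟨B, hB⟩ := M.exB
  exact Finset.card_pos.2 ⟨B, M.mem_bases.2 hB⟩

/-- the deviation from the uniform distribution -/
lemma Sys.dev (h : S.OK x M) (n : ℕ) :
    ∑ B ∈ M.bases, (S.f x n B - ((S.N x : ℝ) ^ 2) ^ n / M.bases.card) ^ 2 ≤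
      ((S.N x : ℝ) ^ 2 * ((S.N x : ℝ) ^ 2 - 1)) ^ n := by
  have hM : (0 : ℝ) < M.bases.card := by exact_mod_cast Sys.card_pos (M := M)
  have hN1 : (1 : ℝ) ≤ S.N x := by exact_mod_cast Sys.N_pos (S := S) (x := x)
  induction n with
  | zero =>
    rw [pow_zero, pow_zero]
    have hf0 : ∀ B ∈ M.bases, S.f x 0 B = if B = toSet (S.m x) (S.greedy x) then 1 else 0 := by
      intro B _
      unfold Sys.f Sys.cnt
      rw [zero_mul, BS_zero]
      have h1 : S.walkFrom x [] (S.greedy x) 0 = S.greedy x := rfl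
      rw [h1]
      by_cases h2 : B = toSet (S.m x) (S.greedy x)
      · rw [if_pos h2, if_pos, Nat.cast_one]
        rw [h2, ofSet_toSet (S.length_greedy x)]
      · rw [if_neg h2, if_neg, Nat.cast_zero]
        intro h3
        apply h2
        rw [h3, toSet_ofSet]
    have h1 : ∑ B ∈ M.bases, (S.f x 0 B - 1 / M.bases.card) ^ 2 =
        ∑ B ∈ M.bases, ((1 - 2 / (M.bases.card : ℝ)) *
          (if B = toSet (S.m x) (S.greedy x) then 1 else 0) + (1 / (M.bases.card : ℝ)) ^ 2) := by
      apply sum_congr rfl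
      intro B hB
      rw [hf0 B hB]
      split_ifs <;> ring
    rw [h1, sum_add_distrib, sum_const, nsmul_eq_mul, ← mul_sum, sum_ite_eq',
      if_pos (Sys.greedy_basis h)]
    have h2 : (1 - 2 / (M.bases.card : ℝ)) * 1 + M.bases.card * (1 / (M.bases.card : ℝ)) ^ 2 =
        1 - 1 / M.bases.card := by
      field_simp
      ring
    rw [h2]
    have : 0 < 1 / (M.bases.card : ℝ) := by positivity
    linarith
  | succ n ih =>
    set g : Finset (Fin (S.m x)) → ℝ := fun B => S.f x n B - ((S.N x : ℝ) ^ 2) ^ n / M.bases.card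
      with hg
    have hg0 : ∑ B ∈ M.bases, g B = 0 := by
      rw [hg, sum_sub_distrib, Sys.sum_f h, sum_const, nsmul_eq_mul]
      field_simp
      ring
    have hc := M.contract (S.N x) Sys.N_ge Sys.N_pos g hg0
    have h1 : ∑ B ∈ M.bases, (S.f x (n + 1) B - ((S.N x : ℝ) ^ 2) ^ (n + 1) / M.bases.card) ^ 2 =
        ∑ B ∈ M.bases, ((S.N x : ℝ) ^ 2 * g B - M.Lap g B) ^ 2 := by
      apply sum_congr rfl
      intro B hB
      rw [Sys.f_succ h n hB]
      have h2 : M.Lap g B = M.Lap (S.f x n) B := by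
        unfold Mat.Lap
        apply sum_congr rfl
        intro p _
        simp only [hg]
        ring
      rw [h2, hg, pow_succ]
      ring
    rw [h1]
    refine hc.trans ?_
    rw [pow_succ ((S.N x : ℝ) ^ 2 * ((S.N x : ℝ) ^ 2 - 1)) n,
      mul_comm (((S.N x : ℝ) ^ 2 * ((S.N x : ℝ) ^ 2 - 1)) ^ n)]
    apply mul_le_mul_of_nonneg_left ih
    apply mul_nonneg (by positivity)
    nlinarith

/-- the final accuracy -/
theorem Sys.cnt_le (h : S.OK x M) {B : Finset (Fin (S.m x))} (hB : B ∈ M.bases) :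
    (2 ^ S.K x - 1) * S.cnt x (S.t x) (ofSet B) * M.bases.card ≤ 2 ^ (S.R x + S.K x) := by
  have hM : (0 : ℝ) < M.bases.card := by exact_mod_cast Sys.card_pos (M := M)
  have hN1 : (1 : ℝ) ≤ S.N x := by exact_mod_cast Sys.N_pos (S := S) (x := x)
  have hN0 : (0 : ℝ) < S.N x := by linarith
  have hd := Sys.dev h (S.t x)
  have h1 : (S.f x (S.t x) B - ((S.N x : ℝ) ^ 2) ^ (S.t x) / M.bases.card) ^ 2 ≤
      ((S.N x : ℝ) ^ 2 * ((S.N x : ℝ) ^ 2 - 1)) ^ (S.t x) :=
    (single_le_sum (f := fun B => (S.f x (S.t x) B - ((S.N x : ℝ) ^ 2) ^ (S.t x) /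
      M.bases.card) ^ 2) (fun B _ => sq_nonneg _) hB).trans hd
  -- the decay
  set n2 : ℝ := (S.N x : ℝ) ^ 2 with hn2
  have hn21 : 1 ≤ n2 := by rw [hn2]; nlinarith
  have hdec : (1 - 1 / n2) ^ (S.N x ^ 2) ≤ 1 / 2 := by
    have h2 := Real.one_sub_div_pow_le_exp_neg (n := S.N x ^ 2) (t := 1) (by
      push_cast
      exact hn21)
    push_cast at h2
    refine h2.trans ?_
    rw [Real.exp_neg, ← one_div]
    apply one_div_le_one_div_of_le (by norm_num)
    have := Real.exp_one_gt_d9
    linarith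
  have ht : S.N x ^ 2 * (2 * (S.K x + S.m x)) ≤ S.t x := by
    unfold Sys.t
    have h2 : S.N x ^ 2 ≤ (4 * S.m x + 4) ^ 2 :=
      Nat.pow_le_pow_left ((S.N_le x).trans (by omega)) 2
    calc S.N x ^ 2 * (2 * (S.K x + S.m x)) ≤ (4 * S.m x + 4) ^ 2 * (2 * (S.K x + S.m x)) :=
          Nat.mul_le_mul_right _ h2
      _ = _ := by ring
  have hbase0 : 0 ≤ 1 - 1 / n2 := by
    rw [sub_nonneg, div_le_one (by linarith)]
    exact hn21
  have hbase1 : 1 - 1 / n2 ≤ 1 := by
    have : 0 ≤ 1 / n2 := by positivity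
    linarith
  have hdec2 : (1 - 1 / n2) ^ (S.t x) ≤ (1 / 2) ^ (2 * (S.K x + S.m x)) := by
    calc (1 - 1 / n2) ^ (S.t x) ≤ (1 - 1 / n2) ^ (S.N x ^ 2 * (2 * (S.K x + S.m x))) :=
          pow_le_pow_of_le_one hbase0 hbase1 ht
      _ = ((1 - 1 / n2) ^ (S.N x ^ 2)) ^ (2 * (S.K x + S.m x)) := by rw [pow_mul]
      _ ≤ _ := pow_le_pow_left₀ (pow_nonneg hbase0 _) hdec _
  set P : ℝ := n2 ^ (S.t x) with hP
  have hP0 : 0 < P := by positivity
  have h2 : (n2 * (n2 - 1)) ^ (S.t x) = P ^ 2 * (1 - 1 / n2) ^ (S.t x) := by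
    rw [hP, ← pow_mul, mul_comm (S.t x) 2, pow_mul, ← mul_pow]
    congr 1
    field_simp
  rw [h2] at h1
  have h3 : (S.f x (S.t x) B - P / M.bases.card) ^ 2 ≤ (P * (1 / 2) ^ (S.K x + S.m x)) ^ 2 := by
    refine h1.trans ?_
    rw [mul_pow, ← pow_mul (1 / 2 : ℝ), mul_comm (S.K x + S.m x) 2]
    exact mul_le_mul_of_nonneg_left hdec2 (by positivity)
  have h4 := abs_le_of_sq_le_sq h3 (by positivity)
  have h5 : S.f x (S.t x) B ≤ P / M.bases.card + P * (1 / 2) ^ (S.K x + S.m x) := by
    linarith [(abs_le.1 h4).2]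
  have hM2 : (M.bases.card : ℝ) ≤ 2 ^ S.m x := by
    have : M.bases.card ≤ 2 ^ S.m x := by
      refine (card_le_univ _).trans ?_
      rw [Fintype.card_finset, Fintype.card_fin]
    exact_mod_cast this
  have h6 : S.f x (S.t x) B * M.bases.card ≤ P * (1 + (1 / 2) ^ S.K x) := by
    have h7 : S.f x (S.t x) B * M.bases.card ≤
        (P / M.bases.card + P * (1 / 2) ^ (S.K x + S.m x)) * M.bases.card :=
      mul_le_mul_of_nonneg_right h5 hM.le
    refine h7.trans ?_
    have h8 : (P / M.bases.card + P * (1 / 2) ^ (S.K x + S.m x)) * M.bases.card =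
        P * (1 + (1 / 2) ^ S.K x * ((1 / 2) ^ S.m x * M.bases.card)) := by
      rw [pow_add]
      field_simp
    rw [h8]
    apply mul_le_mul_of_nonneg_left _ hP0.le
    have h9 : (1 / 2 : ℝ) ^ S.m x * M.bases.card ≤ 1 := by
      calc (1 / 2 : ℝ) ^ S.m x * M.bases.card ≤ (1 / 2 : ℝ) ^ S.m x * 2 ^ S.m x :=
            mul_le_mul_of_nonneg_left hM2 (by positivity)
        _ = 1 := by rw [← mul_pow]; norm_num
    have h10 : (0 : ℝ) ≤ (1 / 2) ^ S.K x := by positivity
    nlinarith
  have hPR : P = 2 ^ S.R x := by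
    have := Sys.two_pow_R (S := S) (x := x)
    unfold Sys.R
    rw [hP, hn2, ← pow_mul]
    exact_mod_cast this.symm
  have hK1 : (1 : ℝ) ≤ 2 ^ S.K x := one_le_pow₀ (by norm_num)
  have hfin : ((2 ^ S.K x - 1 : ℕ) : ℝ) * S.f x (S.t x) B * M.bases.card ≤
      2 ^ (S.R x + S.K x) := by
    rw [Nat.cast_sub Nat.one_le_two_pow]
    push_cast
    rw [mul_assoc]
    calc ((2 : ℝ) ^ S.K x - 1) * (S.f x (S.t x) B * M.bases.card) ≤
        ((2 : ℝ) ^ S.K x - 1) * (P * (1 + (1 / 2) ^ S.K x)) :=
          mul_le_mul_of_nonneg_left h6 (by linarith)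
      _ = P * (2 ^ S.K x + 2 ^ S.K x * (1 / 2) ^ S.K x - 1 - (1 / 2) ^ S.K x) := by ring
      _ = P * (2 ^ S.K x - (1 / 2) ^ S.K x) := by
          rw [← mul_pow]
          norm_num
      _ ≤ P * 2 ^ S.K x := by
          apply mul_le_mul_of_nonneg_left _ hP0.le
          have : (0 : ℝ) ≤ (1 / 2) ^ S.K x := by positivity
          linarith
      _ = 2 ^ (S.R x + S.K x) := by rw [hPR, pow_add]
  unfold Sys.f at hfin
  exact_mod_cast hfin

end Pool.Agent.Q330.MS
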