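import Mathlib
import Pool.Agent.Q330.MS.Path
import Pool.Agent.Q330.MS.Find

set_option autoImplicit false

/-!
# The law of the output
-/

namespace Pool.Agent.Q330.MS

open Finset Pool.Agent.NPC

variable {X : Type} [TEnc X] {S : Sys X}
variable {x : X} {r : ℕ} {M : Mat (Fin (S.m x)) r}

lemma map_range_append (f : ℕ → Bool) (a b : ℕ) : (List.range (a + b)).map f =
    (List.range a).map f ++ (List.range b).map (fun l => f (a + l)) := by
  rw [List.range_add, List.map_append, List.map_map]
  rfl

lemma Sys.rest_append (w u : List Bool) (h : S.R x + S.K x ≤ w.length) :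
    S.rest x (w ++ u) = S.rest x w ++ u := by
  unfold Sys.rest
  have h1 : (w ++ u).length - (S.R x + S.K x) = (w.length - (S.R x + S.K x)) + u.length := by
    rw [List.length_append]
    omega
  rw [h1, map_range_append]
  congr 1
  · apply List.map_congr_left
    intro l hl
    rw [List.mem_range] at hl
    rw [List.getD_append _ _ _ _ (by omega)]
  · refine Eq.trans (List.map_congr_left ?_) (map_getD_range u)
    intro l _
    rw [List.getD_append_right _ _ _ _ (by omega)]
    congr 1
    omega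

lemma Sys.trig_append (w u : List Bool) (h : S.R x + S.K x ≤ w.length) :
    S.trig x (w ++ u) = S.trig x w := by
  unfold Sys.trig
  congr 1
  apply List.map_congr_left
  intro l hl
  rw [List.mem_range] at hl
  rw [List.getD_append _ _ _ _ (by omega)]

lemma Sys.walk_append (w u : List Bool) (h : S.R x ≤ w.length) :
    S.walk x (w ++ u) = S.walk x w := Sys.walkFrom_append _ _ _ _ h

lemma Sys.basesL_eq {L : ℕ} (hL : 2 ^ S.m x ≤ L) : S.basesL x L = S.basesL x (2 ^ S.m x) := by
  unfold Sys.basesL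
  rw [min_eq_left hL, min_self]

lemma Sys.wtab_eq {L : ℕ} (hL : 2 ^ S.m x ≤ L) : S.wtab x L = S.wtab x (2 ^ S.m x) := by
  unfold Sys.wtab Sys.tab Sys.tab0
  rw [Sys.basesL_eq hL]

/-- the denominator -/
def Sys.Z (S : Sys X) (x : X) : ℕ := (S.basesL x (2 ^ S.m x)).length * 2 ^ S.R x

lemma Sys.Z_eq (h : S.OK x M) : S.Z x = M.bases.card * 2 ^ S.R x := by
  unfold Sys.Z
  rw [Sys.length_basesL h le_rfl]

lemma Sys.Z_pos (h : S.OK x M) : 0 < S.Z x := by
  rw [Sys.Z_eq h]
  have := Sys.card_pos (M := M)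
  positivity

lemma Sys.res_eq {w : List Bool} (hw : 2 ^ S.m x ≤ w.length) : S.res x w =
    find (valE (S.rest x w)) (2 ^ (w.length - (S.R x + S.K x))) (S.Z x)
      (S.wtab x (2 ^ S.m x)) := by
  unfold Sys.res
  rw [Sys.basesL_eq hw, Sys.wtab_eq hw]
  rfl

lemma Sys.D_short {w : List Bool} (h : w.length < S.R x + S.K x) : S.D x w = none := by
  unfold Sys.D
  simp [h]

lemma Sys.D_trig {w : List Bool} (h : S.R x + S.K x ≤ w.length) (ht : S.trig x w = true) :
    S.D x w = some (S.walk x w) := by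
  unfold Sys.D
  have : ¬ w.length < S.R x + S.K x := by omega
  simp [this, ht]

lemma Sys.D_wait {w : List Bool} (ht : S.trig x w = false)
    (h2 : w.length < 2 ^ S.m x) : S.D x w = none := by
  unfold Sys.D
  simp [ht, h2]

lemma Sys.D_res {w : List Bool} (h : S.R x + S.K x ≤ w.length) (ht : S.trig x w = false)
    (h2 : 2 ^ S.m x ≤ w.length) : S.D x w = find (valE (S.rest x w))
      (2 ^ (w.length - (S.R x + S.K x))) (S.Z x) (S.wtab x (2 ^ S.m x)) := by
  unfold Sys.D
  have h3 : ¬ w.length < S.R x + S.K x := by omega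
  have h4 : ¬ w.length < 2 ^ S.m x := by omega
  simp only [h3, ht, h4, decide_false, cond_false]
  exact Sys.res_eq h2

lemma Sys.D_mono_one (h : S.OK x M) {w y : List Bool} (c : Bool) (hD : S.D x w = some y) :
    S.D x (w ++ [c]) = some y := by
  have h1 : S.R x + S.K x ≤ w.length := by
    by_contra hcon
    rw [Sys.D_short (by omega)] at hD
    exact absurd hD (by simp)
  have h1' : S.R x + S.K x ≤ (w ++ [c]).length := by rw [List.length_append]; omega
  cases ht : S.trig x w
  · have h2 : 2 ^ S.m x ≤ w.length := by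
      by_contra hcon
      rw [Sys.D_wait ht (by omega)] at hD
      exact absurd hD (by simp)
    rw [Sys.D_res h1 ht h2] at hD
    rw [Sys.D_res h1' (by rw [Sys.trig_append _ _ h1, ht]) (by rw [List.length_append]; omega),
      Sys.rest_append _ _ h1, valE_append_one]
    have h3 : (w ++ [c]).length - (S.R x + S.K x) = (w.length - (S.R x + S.K x)) + 1 := by
      rw [List.length_append, List.length_singleton]
      omega
    rw [h3, pow_succ]
    exact find_refine (Sys.Z_pos h) c hD
  · rw [Sys.D_trig h1 ht] at hD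
    rw [Sys.D_trig h1' (by rw [Sys.trig_append _ _ h1, ht]), Sys.walk_append _ _ (by omega)]
    exact hD

theorem Sys.D_mono (h : S.OK x M) {w y : List Bool} (u : List Bool) (hD : S.D x w = some y) :
    S.D x (w ++ u) = some y := by
  induction u generalizing w with
  | nil => rwa [List.append_nil]
  | cons c u ih =>
    have := ih (Sys.D_mono_one h c hD)
    rwa [List.append_assoc] at this

lemma Sys.wtab_eq' (h : S.OK x M) : S.wtab x (2 ^ S.m x) = (S.basesL x (2 ^ S.m x)).map
    (fun y => (y, S.wt x M.bases.card (S.cnt x (S.t x) y))) := by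
  unfold Sys.wtab
  rw [Sys.tab_eq h le_rfl, List.map_map, Sys.length_basesL h le_rfl]
  rfl

lemma Sys.wtab_nodup (h : S.OK x M) : ((S.wtab x (2 ^ S.m x)).map Prod.fst).Nodup := by
  rw [Sys.wtab_eq' h, List.map_map]
  have : (Prod.fst ∘ fun y => (y, S.wt x M.bases.card (S.cnt x (S.t x) y))) = fun y => y := rfl
  rw [this, List.map_id']
  exact Sys.nodup_basesL

lemma Sys.D_out (h : S.OK x M) {w y : List Bool} (hD : S.D x w = some y) :
    y.length = S.m x ∧ toSet (S.m x) y ∈ M.bases := by
  have h1 : S.R x + S.K x ≤ w.length := by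
    by_contra hcon
    rw [Sys.D_short (by omega)] at hD
    exact absurd hD (by simp)
  cases ht : S.trig x w
  · have h2 : 2 ^ S.m x ≤ w.length := by
      by_contra hcon
      rw [Sys.D_wait ht (by omega)] at hD
      exact absurd hD (by simp)
    rw [Sys.D_res h1 ht h2, find_iff (Sys.Z_pos h)] at hD
    obtain ⟨T1, a, T2, h3, _⟩ := hD
    have h4 : (y, a) ∈ S.wtab x (2 ^ S.m x) := by
      rw [h3]
      simp
    rw [Sys.wtab_eq' h, List.mem_map] at h4
    obtain ⟨y', hy', h5⟩ := h4
    rw [Prod.mk.injEq] at h5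
    rw [← h5.1]
    exact (Sys.mem_basesL h le_rfl y').1 hy'
  · rw [Sys.D_trig h1 ht, Option.some.injEq] at hD
    rw [← hD]
    exact ⟨S.length_walkFrom x _ _ _ (S.length_greedy x), Sys.walk_basis h _ _⟩

/-- the weights are exact -/
lemma Sys.wt_eq (h : S.OK x M) {B : Finset (Fin (S.m x))} (hB : B ∈ M.bases) :
    S.wt x M.bases.card (S.cnt x (S.t x) (ofSet B)) +
      (2 ^ S.K x - 1) * S.cnt x (S.t x) (ofSet B) * M.bases.card = 2 ^ (S.R x + S.K x) :=
  Nat.sub_add_cancel (Sys.cnt_le h hB)

lemma Sys.sum_cnt (h : S.OK x M) (n : ℕ) :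
    ∑ B ∈ M.bases, S.cnt x n (ofSet B) = 2 ^ (n * (2 * S.b x)) := by
  have h1 := Sys.group h n (fun _ => 1)
  rw [BS_const] at h1
  simp only [mul_one] at h1
  exact h1.symm

lemma Sys.sum_wt (h : S.OK x M) :
    ∑ B ∈ M.bases, S.wt x M.bases.card (S.cnt x (S.t x) (ofSet B)) = S.Z x := by
  have h1 : ∑ B ∈ M.bases, (S.wt x M.bases.card (S.cnt x (S.t x) (ofSet B)) +
      (2 ^ S.K x - 1) * S.cnt x (S.t x) (ofSet B) * M.bases.card) =
      ∑ B ∈ M.bases, 2 ^ (S.R x + S.K x) := sum_congr rfl fun B hB => Sys.wt_eq h hB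
  rw [sum_add_distrib, sum_const, smul_eq_mul, ← sum_mul, ← mul_sum, Sys.sum_cnt h] at h1
  have h2 : 2 ^ (S.t x * (2 * S.b x)) = 2 ^ S.R x := rfl
  rw [h2] at h1
  rw [Sys.Z_eq h]
  have h3 : M.bases.card * 2 ^ (S.R x + S.K x) = M.bases.card * 2 ^ S.R x +
      (2 ^ S.K x - 1) * 2 ^ S.R x * M.bases.card := by
    have h4 : 2 ^ S.K x = (2 ^ S.K x - 1) + 1 := (Nat.sub_add_cancel Nat.one_le_two_pow).symm
    rw [pow_add]
    nth_rewrite 1 [h4]
    ring
  omega

lemma Sys.sum_wtab (h : S.OK x M) : ((S.wtab x (2 ^ S.m x)).map Prod.snd).sum = S.Z x := by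
  rw [← Sys.sum_wt h, Sys.wtab_eq' h, List.map_map]
  exact Sys.sum_basesL h le_rfl (fun y => S.wt x M.bases.card (S.cnt x (S.t x) y))

/-- the number of successful outcomes in the exceptional case -/
def Sys.F (S : Sys X) (x : X) (l : ℕ) (y : List Bool) : ℕ :=
  fcount (2 ^ l) (S.Z x) (S.wtab x (2 ^ S.m x)) y

lemma BS_any (K a b : ℕ) : BS K (fun c => if (c.any fun b => b) = true then a else b) =
    (2 ^ K - 1) * a + b := by
  induction K with
  | zero =>
    rw [BS_zero]
    simp
  | succ K ih =>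
    rw [BS_succ]
    have h1 : BS K (fun w => if ((false :: w).any fun b => b) = true then a else b) =
        BS K (fun c => if (c.any fun b => b) = true then a else b) := by
      apply BS_congr
      intro w _
      simp
    have h2 : BS K (fun w => if ((true :: w).any fun b => b) = true then a else b) =
        BS K (fun _ => a) := by
      apply BS_congr
      intro w _
      simp
    rw [h1, h2, ih, BS_const, pow_succ]
    have h3 : 2 ^ K * 2 - 1 = (2 ^ K - 1) + 2 ^ K := by
      have : 1 ≤ 2 ^ K := Nat.one_le_two_pow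
      omega
    rw [h3]
    ring

lemma Sys.trig_split (u c v : List Bool) (hu : u.length = S.R x) (hc : c.length = S.K x) :
    S.trig x (u ++ (c ++ v)) = c.any (fun b => b) := by
  unfold Sys.trig
  congr 1
  have h2 := map_getD_range c
  nth_rewrite 2 [← h2]
  rw [hc]
  apply List.map_congr_left
  intro l hl
  rw [List.mem_range] at hl
  rw [List.getD_append_right _ _ _ _ (by omega), List.getD_append _ _ _ _ (by omega)]
  congr 1
  omega

lemma Sys.rest_split (u c v : List Bool) (hu : u.length = S.R x) (hc : c.length = S.K x) :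
    S.rest x (u ++ (c ++ v)) = v := by
  rw [← List.append_assoc, Sys.rest_append _ _ (by rw [List.length_append]; omega)]
  have : S.rest x (u ++ c) = [] := by
    unfold Sys.rest
    have : (u ++ c).length - (S.R x + S.K x) = 0 := by rw [List.length_append]; omega
    rw [this]
    rfl
  rw [this, List.nil_append]

/-- the number of outcomes of the coin flips for which the output is `y` -/
lemma Sys.count_some (l : ℕ) (hl : 2 ^ S.m x ≤ S.R x + (S.K x + l)) (y : List Bool) :
    BS (S.R x + (S.K x + l)) (fun w => if S.D x w = some y then 1 else 0) =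
      (2 ^ S.K x - 1) * (2 ^ l * S.cnt x (S.t x) y) + 2 ^ S.R x * S.F x l y := by
  rw [BS_append]
  have h1 : BS (S.R x) (fun u => BS (S.K x + l) (fun v => if S.D x (u ++ v) = some y then 1 else 0))
      = BS (S.R x) (fun u => (2 ^ S.K x - 1) *
        (2 ^ l * (if S.walkFrom x u (S.greedy x) (S.t x) = y then 1 else 0)) + S.F x l y) := by
    apply BS_congr
    intro u hu
    rw [BS_append, ← BS_any]
    apply BS_congr
    intro c hc
    have hlen : ∀ v : List Bool, v.length = l → (u ++ (c ++ v)).length = S.R x + (S.K x + l) := by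
      intro v hv
      rw [List.length_append, List.length_append, hu, hc, hv]
    by_cases hca : (c.any fun b => b) = true
    · rw [if_pos hca, ← BS_const]
      apply BS_congr
      intro v hv
      have h2 := hlen v hv
      rw [Sys.D_trig (by omega) (by rw [Sys.trig_split u c v hu hc, hca]),
        Sys.walk_append _ _ hu.ge]
      simp only [Option.some.injEq]
      rfl
    · rw [if_neg hca]
      have hca' : (c.any fun b => b) = false := by simpa using hca
      have h3 : BS l (fun v => if S.D x (u ++ (c ++ v)) = some y then 1 else 0) =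
          BS l (fun v => if find (valE v) (2 ^ l) (S.Z x) (S.wtab x (2 ^ S.m x)) = some y
            then 1 else 0) := by
        apply BS_congr
        intro v hv
        have h2 := hlen v hv
        rw [Sys.D_res (by omega) (by rw [Sys.trig_split u c v hu hc, hca']) (by omega),
          Sys.rest_split u c v hu hc, h2]
        have h4 : S.R x + (S.K x + l) - (S.R x + S.K x) = l := by omega
        rw [h4]
      rw [h3, BS_valE l (fun v => if find v (2 ^ l) (S.Z x) (S.wtab x (2 ^ S.m x)) = some y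
            then 1 else 0)]
      unfold Sys.F fcount
      rw [card_filter]
  rw [h1, BS_add, BS_mul_left, BS_mul_left, BS_const]
  rfl

/-- the error after `k` coin flips -/
theorem Sys.law (h : S.OK x M) {B : Finset (Fin (S.m x))} (hB : B ∈ M.bases) (l : ℕ)
    (hl : 2 ^ S.m x ≤ S.R x + (S.K x + l)) :
    |(BS (S.R x + (S.K x + l)) (fun w => if S.D x w = some (ofSet B) then 1 else 0) : ℝ) /
      2 ^ (S.R x + (S.K x + l)) - 1 / M.bases.card| ≤ 2 / 2 ^ l := by
  have hM : (0 : ℝ) < M.bases.card := by exact_mod_cast Sys.card_pos (M := M)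
  set cn := S.cnt x (S.t x) (ofSet B) with hcn
  set a := S.wt x M.bases.card cn with ha
  have hmem : (ofSet B, a) ∈ S.wtab x (2 ^ S.m x) := by
    rw [Sys.wtab_eq' h, List.mem_map]
    refine ⟨ofSet B, ?_, rfl⟩
    rw [Sys.mem_basesL h le_rfl, toSet_ofSet]
    exact ⟨length_ofSet _, hB⟩
  have h1 := fcount_le (P := 2 ^ l) (Sys.Z_pos h) (Sys.wtab_nodup h) hmem
  have h2 := fcount_ge (P := 2 ^ l) (Sys.Z_pos h) (Sys.wtab_nodup h) hmem (Sys.sum_wtab h).le
  have hF : fcount (2 ^ l) (S.Z x) (S.wtab x (2 ^ S.m x)) (ofSet B) = S.F x l (ofSet B) := rfl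
  rw [hF] at h1 h2
  rw [Sys.count_some l hl]
  have hwt := Sys.wt_eq h hB
  rw [← hcn, ← ha] at hwt
  -- real versions
  set Fr : ℝ := (S.F x l (ofSet B) : ℝ) with hFr
  set ar : ℝ := (a : ℝ) with har
  set cr : ℝ := (cn : ℝ) with hcr
  set Mr : ℝ := (M.bases.card : ℝ) with hMr
  set R2 : ℝ := 2 ^ S.R x with hR2
  set K2 : ℝ := 2 ^ S.K x with hK2
  set L2 : ℝ := 2 ^ l with hL2
  have hR0 : 0 < R2 := by positivity
  have hK0 : 1 ≤ K2 := one_le_pow₀ (by norm_num)
  have hL0 : 0 < L2 := by positivity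
  have hZr : ((S.Z x : ℕ) : ℝ) = Mr * R2 := by
    rw [Sys.Z_eq h]
    push_cast
    rfl
  have hKr : ((2 ^ S.K x - 1 : ℕ) : ℝ) = K2 - 1 := by
    rw [Nat.cast_sub Nat.one_le_two_pow]
    push_cast
    rfl
  have h1r : Mr * R2 * Fr ≤ ar * L2 := by
    rw [← hZr, hFr, har, hL2]
    exact_mod_cast h1
  have h2r : ar * L2 ≤ Mr * R2 * (Fr + 2) := by
    rw [← hZr, hFr, har, hL2]
    exact_mod_cast h2
  have hwtr : ar + (K2 - 1) * cr * Mr = R2 * K2 := by
    rw [← hKr, hR2, hK2, ← pow_add, har, hcr, hMr]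
    exact_mod_cast hwt
  have hnum : (((2 ^ S.K x - 1) * (2 ^ l * cn) + 2 ^ S.R x * S.F x l (ofSet B) : ℕ) : ℝ) =
      (K2 - 1) * (L2 * cr) + R2 * Fr := by
    push_cast [Nat.cast_sub (Nat.one_le_two_pow (n := S.K x))]
    rfl
  rw [hnum]
  have hden : (2 : ℝ) ^ (S.R x + (S.K x + l)) = R2 * (K2 * L2) := by
    rw [pow_add, pow_add]
  rw [hden]
  have hdiff : ((K2 - 1) * (L2 * cr) + R2 * Fr) / (R2 * (K2 * L2)) - 1 / Mr =
      (Mr * R2 * Fr - ar * L2) / (R2 * (K2 * L2) * Mr) := by
    have hcr' : (K2 - 1) * cr * Mr = R2 * K2 - ar := by linarith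
    rw [div_sub_div _ _ (by positivity) hM.ne']
    congr 1
    calc ((K2 - 1) * (L2 * cr) + R2 * Fr) * Mr - R2 * (K2 * L2) * 1 =
        L2 * ((K2 - 1) * cr * Mr) + R2 * Fr * Mr - R2 * K2 * L2 := by ring
      _ = _ := by rw [hcr']; ring
  rw [hdiff, abs_div, abs_of_pos (a := R2 * (K2 * L2) * Mr) (by positivity),
    div_le_div_iff₀ (by positivity) hL0]
  have h3 : |Mr * R2 * Fr - ar * L2| ≤ 2 * (Mr * R2) := by
    rw [abs_le]
    constructor <;> linarith
  calc |Mr * R2 * Fr - ar * L2| * L2 ≤ 2 * (Mr * R2) * L2 :=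
        mul_le_mul_of_nonneg_right h3 hL0.le
    _ ≤ 2 * (Mr * R2) * L2 * K2 := le_mul_of_one_le_right (by positivity) hK0
    _ = _ := by ring

/-! ### the running time -/

lemma Sys.count_none_le (l : ℕ) :
    BS (S.R x + (S.K x + l)) (fun w => if S.D x w = none then 1 else 0) ≤
      2 ^ S.R x * 2 ^ l := by
  rw [BS_append]
  have h1 : BS (S.R x) (fun u => BS (S.K x + l) (fun v => if S.D x (u ++ v) = none then 1 else 0))
      ≤ BS (S.R x) (fun _ => 2 ^ l) := by
    apply BS_le
    intro u hu
    rw [BS_append]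
    have h2 : BS (S.K x) (fun c => BS l (fun v => if S.D x (u ++ (c ++ v)) = none then 1 else 0)) ≤
        BS (S.K x) (fun c => if (c.any fun b => b) = true then 0 else 2 ^ l) := by
      apply BS_le
      intro c hc
      by_cases hca : (c.any fun b => b) = true
      · rw [if_pos hca]
        apply le_of_eq
        have h3 : BS l (fun v => if S.D x (u ++ (c ++ v)) = none then 1 else 0) =
            BS l (fun _ => 0) := by
          apply BS_congr
          intro v hv
          rw [Sys.D_trig (by rw [List.length_append, List.length_append]; omega)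
            (by rw [Sys.trig_split u c v hu hc, hca])]
          simp
        rw [h3, BS_const, mul_zero]
      · rw [if_neg hca]
        have h3 : BS l (fun v => if S.D x (u ++ (c ++ v)) = none then 1 else 0) ≤
            BS l (fun _ => 1) := by
          apply BS_le
          intro v _
          split_ifs <;> omega
        rwa [BS_const, mul_one] at h3
    refine h2.trans ?_
    rw [BS_any]
    omega
  refine h1.trans ?_
  rw [BS_const]

lemma Sys.count_none_res (h : S.OK x M) (l : ℕ) (hl : 2 ^ S.m x ≤ S.R x + (S.K x + l)) :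
    BS (S.R x + (S.K x + l)) (fun w => if S.D x w = none then 1 else 0) ≤
      2 ^ S.R x * (2 * M.bases.card) := by
  -- the outcomes with an output
  have htot : BS (S.R x + (S.K x + l)) (fun w => if S.D x w = none then 1 else 0) +
      ∑ B ∈ M.bases, BS (S.R x + (S.K x + l))
        (fun w => if S.D x w = some (ofSet B) then 1 else 0) = 2 ^ (S.R x + (S.K x + l)) := by
    rw [← BS_sum, ← BS_add]
    have h1 : 2 ^ (S.R x + (S.K x + l)) = BS (S.R x + (S.K x + l)) (fun _ => 1) := by
      rw [BS_const, mul_one]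
    rw [h1]
    apply BS_congr
    intro w _
    cases hD : S.D x w with
    | none =>
      have : ∑ B ∈ M.bases, (if (none : Option (List Bool)) = some (ofSet B) then 1 else 0) = 0 :=
        sum_eq_zero fun B _ => by simp
      rw [this]
      simp
    | some y =>
      have hy := Sys.D_out h hD
      rw [sum_eq_single (toSet (S.m x) y)]
      · rw [ofSet_toSet hy.1]
        simp
      · intro B _ hB
        rw [if_neg]
        intro h2
        rw [Option.some.injEq] at h2
        apply hB
        rw [h2, toSet_ofSet]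
      · intro h2
        exact absurd hy.2 h2
  have hsum : ∑ B ∈ M.bases, BS (S.R x + (S.K x + l))
        (fun w => if S.D x w = some (ofSet B) then 1 else 0) =
      (2 ^ S.K x - 1) * (2 ^ l * 2 ^ S.R x) + 2 ^ S.R x * ∑ B ∈ M.bases, S.F x l (ofSet B) := by
    rw [sum_congr rfl fun B _ => Sys.count_some l hl (ofSet B), sum_add_distrib, ← mul_sum,
      ← mul_sum, ← mul_sum, Sys.sum_cnt h]
    rfl
  have hF : 2 ^ l ≤ ∑ B ∈ M.bases, S.F x l (ofSet B) + 2 * M.bases.card := by
    have h1 : ∀ B ∈ M.bases, S.wt x M.bases.card (S.cnt x (S.t x) (ofSet B)) * 2 ^ l ≤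
        S.Z x * (S.F x l (ofSet B) + 2) := by
      intro B hB
      apply fcount_ge (Sys.Z_pos h) (Sys.wtab_nodup h) _ (Sys.sum_wtab h).le
      rw [Sys.wtab_eq' h, List.mem_map]
      refine ⟨ofSet B, ?_, rfl⟩
      rw [Sys.mem_basesL h le_rfl, toSet_ofSet]
      exact ⟨length_ofSet _, hB⟩
    have h2 := sum_le_sum h1
    rw [← sum_mul, Sys.sum_wt h, ← mul_sum, sum_add_distrib, sum_const, smul_eq_mul] at h2
    have h3 := Nat.le_of_mul_le_mul_left h2 (Sys.Z_pos h)
    omega
  rw [hsum] at htot
  have h4 : 2 ^ (S.R x + (S.K x + l)) = (2 ^ S.K x - 1) * (2 ^ l * 2 ^ S.R x) +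
      2 ^ S.R x * 2 ^ l := by
    have h5 : 2 ^ S.K x = (2 ^ S.K x - 1) + 1 := (Nat.sub_add_cancel Nat.one_le_two_pow).symm
    rw [pow_add, pow_add]
    nth_rewrite 1 [h5]
    ring
  have h6 : 2 ^ S.R x * 2 ^ l ≤ 2 ^ S.R x * ∑ B ∈ M.bases, S.F x l (ofSet B) +
      2 ^ S.R x * (2 * M.bases.card) := by
    rw [← mul_add]
    exact Nat.mul_le_mul_left _ hF
  omega

end Pool.Agent.Q330.MS
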