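import Mathlib
import Pool.Agent.Q330.MS.Law

set_option autoImplicit false

/-!
# The expected running time
-/

namespace Pool.Agent.Q330.MS

open Finset Pool.Agent.NPC

/-- evaluation of polynomials with natural coefficients -/
def ev (q : Polynomial ℕ) (a : ℕ) : ℕ := q.eval a

lemma ev_mono (q : Polynomial ℕ) {a b : ℕ} (h : a ≤ b) : ev q a ≤ ev q b := eval_mono q h

lemma eval_add_le (q : Polynomial ℕ) (a b : ℕ) :
    ev q (a + b) ≤ ev q (2 * a) + ev q (2 * b) := by
  rcases le_total a b with h | h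
  · exact (ev_mono q (by omega : a + b ≤ 2 * b)).trans (Nat.le_add_left _ _)
  · exact (ev_mono q (by omega : a + b ≤ 2 * a)).trans (Nat.le_add_right _ _)

/-- a polynomial is bounded by a multiple of a power -/
lemma eval_le_pow (q : Polynomial ℕ) : ∃ C d : ℕ, ∀ a, 1 ≤ a → ev q a ≤ C * a ^ d := by
  refine ⟨∑ i ∈ range (q.natDegree + 1), q.coeff i, q.natDegree, fun a ha => ?_⟩
  rw [ev, Polynomial.eval_eq_sum_range, sum_mul]
  apply sum_le_sum
  intro i hi
  rw [mem_range] at hi
  exact Nat.mul_le_mul_left _ (Nat.pow_le_pow_right ha (by omega))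

lemma summable_geo (q : Polynomial ℕ) : Summable (fun l : ℕ => (1 / 2 : ℝ) ^ l * ev q (2 * l)) := by
  obtain ⟨C, d, h⟩ := eval_le_pow q
  have h1 : Summable (fun l : ℕ => ((l : ℝ) ^ d) * (1 / 2 : ℝ) ^ l) :=
    summable_pow_mul_geometric_of_norm_lt_one d (by norm_num)
  have h2 := h1.mul_left ((C : ℝ) * 2 ^ d)
  have h3 : Summable (fun l : ℕ => (if l = 0 then (ev q 0 : ℝ) else 0)) :=
    (hasSum_ite_eq 0 (ev q 0 : ℝ)).summable
  refine Summable.of_nonneg_of_le (fun l => by positivity) (fun l => ?_) (h2.add h3)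
  rcases Nat.eq_zero_or_pos l with hl | hl
  · subst hl
    simp only [pow_zero, one_mul, mul_zero, if_true, Nat.cast_zero]
    have : (0 : ℝ) ≤ (C : ℝ) * 2 ^ d * ((0 : ℝ) ^ d * 1) := by positivity
    linarith
  · have h4 := h (2 * l) (by omega)
    have h5 : (ev q (2 * l) : ℝ) ≤ C * (2 * (l : ℝ)) ^ d := by exact_mod_cast h4
    rw [if_neg (by omega), add_zero]
    calc (1 / 2 : ℝ) ^ l * ev q (2 * l) ≤ (1 / 2 : ℝ) ^ l * (C * (2 * (l : ℝ)) ^ d) :=
          mul_le_mul_of_nonneg_left h5 (by positivity)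
      _ = _ := by rw [mul_pow]; ring

lemma sum_ite_lt_le (J T : ℕ) (c : ℝ) (hc : 0 ≤ c) :
    ∑ k ∈ range J, (if k < T then c else 0) ≤ T * c := by
  rw [← sum_filter, sum_const, nsmul_eq_mul]
  apply mul_le_mul_of_nonneg_right _ hc
  have : ((range J).filter (fun k => k < T)).card ≤ (range T).card := by
    apply card_le_card
    intro k hk
    rw [mem_filter] at hk
    exact mem_range.2 hk.2
  rw [card_range] at this
  exact_mod_cast this

lemma sum_shift_le (J T : ℕ) (F : ℕ → ℝ) (hF : ∀ l, 0 ≤ F l) :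
    ∑ k ∈ range J, (if T ≤ k then F (k - T) else 0) ≤ ∑ l ∈ range J, F l := by
  have h1 : ∑ k ∈ range J, (if T ≤ k then F (k - T) else 0) ≤
      ∑ k ∈ range (T + J), (if T ≤ k then F (k - T) else 0) := by
    apply sum_le_sum_of_subset_of_nonneg
    · intro k hk
      rw [mem_range] at hk ⊢
      omega
    · intro k _ _
      split_ifs
      · exact hF _
      · exact le_rfl
  refine h1.trans (le_of_eq ?_)
  rw [sum_range_add]
  have h2 : ∑ k ∈ range T, (if T ≤ k then F (k - T) else 0) = 0 := by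
    apply sum_eq_zero
    intro k hk
    rw [mem_range] at hk
    rw [if_neg (by omega)]
  rw [h2, zero_add]
  apply sum_congr rfl
  intro l _
  rw [if_pos (by omega)]
  congr 1
  omega

/-- the abstract estimate -/
theorem cost_bound (q : Polynomial ℕ) : ∃ C : ℕ, ∀ (u : ℕ → ℝ) (m K T s : ℕ),
    K = (m + 1) ^ 2 → (∀ k, 0 ≤ u k) → (∀ k, u k ≤ 1) → (∀ k, T ≤ k → u k ≤ 1 / 2 ^ K) →
    (∀ l, 2 ^ m ≤ T + l → u (T + l) ≤ 1 / 2 ^ l) → ∀ J,
      ∑ k ∈ range J, u k * ev q (s + (k + 1)) ≤
        (T * ev q (s + T + 1) + ev q (2 * s) + 2 * ev q (2 * (s + T + 1)) + C : ℕ) := by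
  obtain ⟨C0, d, hC0⟩ := eval_le_pow q
  obtain ⟨C1, hC1⟩ := exists_nat_ge (∑' l : ℕ, (1 / 2 : ℝ) ^ l * ev q (2 * l))
  refine ⟨C0 * 2 ^ ((d + 1) ^ 2) + C1, fun u m K T s hK hu0 hu1 hu2 hu3 J => ?_⟩
  set s1 := s + T + 1 with hs1
  set F : ℕ → ℝ := fun l => (1 / 2 : ℝ) ^ l * ev q (s1 + l) with hF
  have hterm : ∀ k, u k * ev q (s + (k + 1)) ≤ (if k < T then (ev q s1 : ℝ) else 0) +
      (if k < 2 ^ m then (1 / 2 ^ K * ev q (s + 2 ^ m) : ℝ) else 0) +
      (if T ≤ k then F (k - T) else 0) := by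
    intro k
    have hA : (0 : ℝ) ≤ (if k < T then (ev q s1 : ℝ) else 0) := by split_ifs <;> positivity
    have hB : (0 : ℝ) ≤ (if k < 2 ^ m then (1 / 2 ^ K * ev q (s + 2 ^ m) : ℝ) else 0) := by
      split_ifs <;> positivity
    have hCn : (0 : ℝ) ≤ (if T ≤ k then F (k - T) else 0) := by
      split_ifs
      · simp only [hF]; positivity
      · exact le_rfl
    have hq0 : (0 : ℝ) ≤ ev q (s + (k + 1)) := Nat.cast_nonneg _
    rcases lt_or_ge k T with h | h
    · have h1 : u k * ev q (s + (k + 1)) ≤ ev q s1 := by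
        calc u k * ev q (s + (k + 1)) ≤ 1 * ev q (s + (k + 1)) :=
              mul_le_mul_of_nonneg_right (hu1 k) hq0
          _ = ev q (s + (k + 1)) := one_mul _
          _ ≤ ev q s1 := by exact_mod_cast ev_mono q (by omega)
      rw [if_pos h] at hA ⊢
      linarith
    · rcases lt_or_ge k (2 ^ m) with h' | h'
      · have h1 : u k * ev q (s + (k + 1)) ≤ 1 / 2 ^ K * ev q (s + 2 ^ m) := by
          have h2 : (ev q (s + (k + 1)) : ℝ) ≤ ev q (s + 2 ^ m) := by
            exact_mod_cast ev_mono q (by omega)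
          exact mul_le_mul (hu2 k h) h2 hq0 (by positivity)
        rw [if_pos h'] at hB ⊢
        linarith
      · have h1 : u k * ev q (s + (k + 1)) ≤ F (k - T) := by
          have h2 := hu3 (k - T) (by omega)
          have h3 : T + (k - T) = k := by omega
          rw [h3] at h2
          have h4 : s1 + (k - T) = s + (k + 1) := by omega
          simp only [hF]
          rw [h4, one_div_pow]
          exact mul_le_mul_of_nonneg_right h2 hq0
        rw [if_pos h] at hCn ⊢
        linarith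
  have hK2 : (2 : ℝ) ^ (m + 1) ≤ 2 ^ K := by
    apply pow_le_pow_right₀ (by norm_num)
    rw [hK]
    nlinarith
  calc ∑ k ∈ range J, u k * ev q (s + (k + 1)) ≤ ∑ k ∈ range J,
      ((if k < T then (ev q s1 : ℝ) else 0) +
      (if k < 2 ^ m then (1 / 2 ^ K * ev q (s + 2 ^ m) : ℝ) else 0) +
      (if T ≤ k then F (k - T) else 0)) := sum_le_sum fun k _ => hterm k
    _ = ∑ k ∈ range J, (if k < T then (ev q s1 : ℝ) else 0) +
      ∑ k ∈ range J, (if k < 2 ^ m then (1 / 2 ^ K * ev q (s + 2 ^ m) : ℝ) else 0) +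
      ∑ k ∈ range J, (if T ≤ k then F (k - T) else 0) := by
        rw [sum_add_distrib, sum_add_distrib]
    _ ≤ T * ev q s1 + (2 ^ m : ℕ) * (1 / 2 ^ K * ev q (s + 2 ^ m) : ℝ) +
      ∑ l ∈ range J, F l := by
        apply add_le_add (add_le_add _ _) _
        · exact sum_ite_lt_le J T _ (Nat.cast_nonneg _)
        · exact sum_ite_lt_le J (2 ^ m) _ (by positivity)
        · apply sum_shift_le
          intro l
          simp only [hF]
          positivity
    _ ≤ T * ev q s1 + (ev q (2 * s) + C0 * 2 ^ ((d + 1) ^ 2) : ℕ) +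
        (2 * ev q (2 * s1) + C1 : ℕ) := by
        apply add_le_add (add_le_add le_rfl _) _
        · -- the second term
          have h1 : ev q (s + 2 ^ m) ≤ ev q (2 * s) + C0 * 2 ^ ((m + 1) * d) := by
            refine (eval_add_le q s (2 ^ m)).trans ?_
            have h2 := hC0 (2 * 2 ^ m) (by have := Nat.one_le_two_pow (n := m); omega)
            have h3 : 2 * 2 ^ m = 2 ^ (m + 1) := by ring
            rw [h3, ← pow_mul] at h2
            rw [h3]
            omega
          have h1' : (ev q (s + 2 ^ m) : ℝ) ≤ ev q (2 * s) + C0 * 2 ^ ((m + 1) * d) := by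
            exact_mod_cast h1
          have h4 : (2 : ℝ) ^ m * 2 ^ ((m + 1) * d) ≤ 2 ^ K * 2 ^ ((d + 1) ^ 2) := by
            rw [← pow_add, ← pow_add]
            apply pow_le_pow_right₀ (by norm_num)
            rw [hK]
            nlinarith [sq_nonneg ((m : ℤ) + 1 - (d + 1))]
          have hKpos : (0 : ℝ) < 2 ^ K := by positivity
          have h5 : (2 : ℝ) ^ m ≤ 2 ^ K := by
            refine le_trans ?_ hK2
            exact pow_le_pow_right₀ (by norm_num) (by omega)
          push_cast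
          calc (2 : ℝ) ^ m * (1 / 2 ^ K * ev q (s + 2 ^ m)) ≤
              (2 : ℝ) ^ m * (1 / 2 ^ K * (ev q (2 * s) + C0 * 2 ^ ((m + 1) * d))) := by
                gcongr
            _ = ((2 : ℝ) ^ m / 2 ^ K) * ev q (2 * s) +
                C0 * (((2 : ℝ) ^ m * 2 ^ ((m + 1) * d)) / 2 ^ K) := by ring
            _ ≤ 1 * ev q (2 * s) + C0 * 2 ^ ((d + 1) ^ 2) := by
                apply add_le_add
                · apply mul_le_mul_of_nonneg_right _ (Nat.cast_nonneg _)
                  rw [div_le_one hKpos]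
                  exact h5
                · apply mul_le_mul_of_nonneg_left _ (Nat.cast_nonneg _)
                  rw [div_le_iff₀ hKpos, mul_comm ((2 : ℝ) ^ ((d + 1) ^ 2))]
                  exact h4
            _ = _ := by ring
        · have h1 : ∀ l, F l ≤ (1 / 2 : ℝ) ^ l * ev q (2 * s1) +
              (1 / 2 : ℝ) ^ l * ev q (2 * l) := by
            intro l
            simp only [hF]
            rw [← mul_add]
            apply mul_le_mul_of_nonneg_left _ (by positivity)
            exact_mod_cast eval_add_le q s1 l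
          calc ∑ l ∈ range J, F l ≤ ∑ l ∈ range J, ((1 / 2 : ℝ) ^ l * ev q (2 * s1) +
              (1 / 2 : ℝ) ^ l * ev q (2 * l)) := sum_le_sum fun l _ => h1 l
            _ = (∑ l ∈ range J, (1 / 2 : ℝ) ^ l) * ev q (2 * s1) +
                ∑ l ∈ range J, (1 / 2 : ℝ) ^ l * ev q (2 * l) := by
                rw [sum_add_distrib, sum_mul]
            _ ≤ 2 * ev q (2 * s1) + C1 := by
                apply add_le_add
                · apply mul_le_mul_of_nonneg_right _ (Nat.cast_nonneg _)
                  have h2 := summable_geometric_two.sum_le_tsum (range J)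
                    (fun l _ => by positivity)
                  rwa [tsum_geometric_two] at h2
                · refine le_trans ?_ hC1
                  exact (summable_geo q).sum_le_tsum (range J) (fun l _ => by positivity)
            _ = _ := by push_cast; ring
    _ = _ := by push_cast; ring

variable {X : Type} [TEnc X] {S : Sys X}
variable {x : X} {r : ℕ} {M : Mat (Fin (S.m x)) r}

/-- the probability that the algorithm has not yet halted after `k` coin flips -/
noncomputable def Sys.u (S : Sys X) (x : X) (k : ℕ) : ℝ :=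
  (BS k (fun w => if S.D x w = none then 1 else 0) : ℝ) / 2 ^ k

lemma Sys.u_nonneg (k : ℕ) : 0 ≤ S.u x k := by
  unfold Sys.u
  positivity

lemma Sys.u_le_one (k : ℕ) : S.u x k ≤ 1 := by
  unfold Sys.u
  rw [div_le_one (by positivity)]
  have h1 : BS k (fun w => if S.D x w = none then 1 else 0) ≤ BS k (fun _ => 1) := by
    apply BS_le
    intro w _
    split_ifs <;> omega
  rw [BS_const, mul_one] at h1
  exact_mod_cast h1

lemma Sys.u_le_two (k : ℕ) (hk : S.R x + S.K x ≤ k) : S.u x k ≤ 1 / 2 ^ S.K x := by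
  obtain ⟨l, rfl⟩ := Nat.exists_eq_add_of_le hk
  unfold Sys.u
  rw [div_le_div_iff₀ (by positivity) (by positivity), add_assoc]
  have h1 := Sys.count_none_le (S := S) (x := x) l
  have h2 : (BS (S.R x + (S.K x + l)) (fun w => if S.D x w = none then 1 else 0) : ℝ) ≤
      2 ^ S.R x * 2 ^ l := by exact_mod_cast h1
  calc (BS (S.R x + (S.K x + l)) (fun w => if S.D x w = none then 1 else 0) : ℝ) * 2 ^ S.K x ≤
      2 ^ S.R x * 2 ^ l * 2 ^ S.K x := mul_le_mul_of_nonneg_right h2 (by positivity)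
    _ = _ := by rw [pow_add, pow_add]; ring

lemma Sys.u_le_three (h : S.OK x M) (l : ℕ) (hl : 2 ^ S.m x ≤ S.R x + S.K x + l) :
    S.u x (S.R x + S.K x + l) ≤ 1 / 2 ^ l := by
  unfold Sys.u
  rw [div_le_div_iff₀ (by positivity) (by positivity), add_assoc]
  rw [add_assoc] at hl
  have h1 := Sys.count_none_res h l hl
  have hM2 : M.bases.card ≤ 2 ^ S.m x := by
    refine (card_le_univ _).trans ?_
    rw [Fintype.card_finset, Fintype.card_fin]
  have h2 : 2 * M.bases.card ≤ 2 ^ S.K x := by
    have h3 : 2 ^ (S.m x + 1) ≤ 2 ^ S.K x := by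
      apply Nat.pow_le_pow_right (by norm_num)
      unfold Sys.K
      nlinarith
    rw [pow_succ] at h3
    omega
  have h4 : BS (S.R x + (S.K x + l)) (fun w => if S.D x w = none then 1 else 0) ≤
      2 ^ S.R x * 2 ^ S.K x := h1.trans (Nat.mul_le_mul_left _ h2)
  have h5 : (BS (S.R x + (S.K x + l)) (fun w => if S.D x w = none then 1 else 0) : ℝ) ≤
      2 ^ S.R x * 2 ^ S.K x := by exact_mod_cast h4
  calc (BS (S.R x + (S.K x + l)) (fun w => if S.D x w = none then 1 else 0) : ℝ) * 2 ^ l ≤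
      2 ^ S.R x * 2 ^ S.K x * 2 ^ l := mul_le_mul_of_nonneg_right h5 (by positivity)
    _ = _ := by rw [pow_add, pow_add]; ring

/-- **The expected running time is polynomial.** -/
theorem Sys.cost (S : Sys X) (q : Polynomial ℕ) : ∃ p : Polynomial ℕ, ∀ (x : X) (r : ℕ)
    (M : Mat (Fin (S.m x)) r), S.OK x M → ∀ J,
      ∑ k ∈ range J, S.u x k * ev q (sz x + (k + 1)) ≤ ev p (sz x) := by
  obtain ⟨C, hC⟩ := cost_bound q
  have hT : UPoly (fun x => S.R x + S.K x) := UPoly.add S.upoly_R S.upoly_K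
  obtain ⟨P, hP⟩ := hT.sz_le
  have hP' : ∀ x, S.R x + S.K x ≤ P.eval (sz x) := by
    intro x
    have h1 : sz (List.replicate (S.R x + S.K x) ()) ≤ P.eval (sz x) := hP x
    have h2 := length_lt_sz (List.replicate (S.R x + S.K x) ())
    rw [List.length_replicate] at h2
    omega
  refine ⟨P * q.comp (Polynomial.X + P + Polynomial.C 1) + q.comp (Polynomial.C 2 * Polynomial.X) +
    Polynomial.C 2 * q.comp (Polynomial.C 2 * (Polynomial.X + P + Polynomial.C 1)) +
    Polynomial.C C, fun x r M h J => ?_⟩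
  have h1 := hC (S.u x) (S.m x) (S.K x) (S.R x + S.K x) (sz x) rfl Sys.u_nonneg Sys.u_le_one
    Sys.u_le_two (Sys.u_le_three h) J
  refine h1.trans ?_
  have h2 := hP' x
  have h3 : (S.R x + S.K x) * ev q (sz x + (S.R x + S.K x) + 1) + ev q (2 * sz x) +
      2 * ev q (2 * (sz x + (S.R x + S.K x) + 1)) + C ≤
      P.eval (sz x) * ev q (sz x + P.eval (sz x) + 1) + ev q (2 * sz x) +
      2 * ev q (2 * (sz x + P.eval (sz x) + 1)) + C := by
    have h4 := ev_mono q (by omega : sz x + (S.R x + S.K x) + 1 ≤ sz x + P.eval (sz x) + 1)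
    have h5 := ev_mono q (by omega : 2 * (sz x + (S.R x + S.K x) + 1) ≤
      2 * (sz x + P.eval (sz x) + 1))
    have h6 := Nat.mul_le_mul h2 h4
    omega
  have h7 : ∀ a b : ℕ, a ≤ b → (a : ℝ) ≤ (b : ℝ) := fun a b h => by exact_mod_cast h
  apply h7
  unfold ev at h3 ⊢
  simp only [Polynomial.eval_add, Polynomial.eval_mul, Polynomial.eval_comp, Polynomial.eval_X,
    Polynomial.eval_C]
  exact h3

end Pool.Agent.Q330.MS
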