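import Mathlib
import Pool.Agent.H334R5.Lin.Feat
import Pool.Agent.Q330.MS.CodePoly

set_option autoImplicit false

/-!
# The independence oracle for the boundary matrix: the algorithm and its running time
-/

namespace Pool.Agent.Q330.MS

open Pool.Agent.NPC Pool.Agent.H334R5.Lin

/-- remove the `i`-th entry -/
def er (σ : List ℕ) (i : ℕ) : List ℕ :=
  (σ.zipIdx.filter (fun e => !decide (e.2 = i))).map Prod.fst

/-- the boundary of a face modulo `p` as a list of faces with coefficients -/
def feat (p : ℕ) (σ : List ℕ) : List (List ℕ × ℕ) :=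
  (List.range σ.length).map (fun i => (er σ i, bif decide (i % 2 = 0) then 1 else p - 1))

/-- the boundary of a face modulo `p` as a vector indexed by `Δ` -/
def dv (p : ℕ) (Δ : List (List ℕ)) (σ : List ℕ) : List ℕ := dense p Δ (feat p σ)

/-- the boundary of `σ` is a combination of the boundaries of the members of `L` modulo `p` -/
def insp (p : ℕ) (Δ L : List (List ℕ)) (σ : List ℕ) : Bool :=
  ((estep p)^[Δ.length] (L.map (dv p Δ), dv p Δ σ, true)).2.2

/-- one step of the independence test -/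
def indStep (p : ℕ) (Δ : List (List ℕ)) (s : List (List ℕ) × Bool) (σ : List ℕ) :
    List (List ℕ) × Bool := (σ :: s.1, s.2 && !insp p Δ s.1 σ)

/-- the boundaries of the members of `L` are independent modulo `p` -/
def indL (p : ℕ) (Δ L : List (List ℕ)) : Bool := (L.foldl (indStep p Δ) ([], true)).2

/-- primality of `k + 2` (for `k + 2 ≤ B`) -/
def isP (B k : ℕ) : Bool :=
  (List.range B).all (fun j => decide (j < 2) || (decide (k + 2 ≤ j) || !decide ((k + 2) % j = 0)))

/-- the face is of maximal dimension -/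
def isFacet (Δ : List (List ℕ)) (σ : List ℕ) : Bool := Δ.all (fun τ => decide (τ.length ≤ σ.length))

/-- the faces of maximal dimension -/
def facets (Δ : List (List ℕ)) : List (List ℕ) := Δ.filter (isFacet Δ)

/-- the chosen members of a list -/
def sel (F : List (List ℕ)) (y : List Bool) : List (List ℕ) :=
  ((F.zip y).filter (fun e => e.2)).map Prod.fst

/-- the bound for the primes -/
def bnd (Δ : List (List ℕ)) : ℕ := 16 * (Δ.length * Δ.length +
  Δ.length * (Δ.length * (Δ.flatten.length * Δ.flatten.length)) + 2) ^ 2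

/-- the independence oracle -/
def ora (Δ : List (List ℕ)) (y : List Bool) : Bool :=
  (List.range (bnd Δ)).any (fun k => isP (bnd Δ + 2) k && indL (k + 2) Δ (sel (facets Δ) y))

/-! ### polynomial time -/

variable {α : Type} [TEnc α]

lemma poly_er : Poly (fun t : List ℕ × ℕ => er t.1 t.2) := by
  unfold er
  fun_prop

lemma poly_feat : Poly (fun t : ℕ × List ℕ => feat t.1 t.2) := by
  unfold feat
  refine NPC.Poly.map (F := fun (t : ℕ × List ℕ) i =>
    (er t.2 i, bif decide (i % 2 = 0) then 1 else t.1 - 1)) (Poly.range_length (by fun_prop)) ?_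
  refine Poly.pair ?_ (by fun_prop)
  exact Poly.comp (g := fun t : List ℕ × ℕ => er t.1 t.2)
    (f := fun s : (ℕ × List ℕ) × ℕ => (s.1.2, s.2)) poly_er (by fun_prop)

lemma poly_dv : Poly (fun t : ℕ × List (List ℕ) × List ℕ => dv t.1 t.2.1 t.2.2) := by
  unfold dv dense
  refine NPC.Poly.map (F := fun (t : ℕ × List (List ℕ) × List ℕ) u => coef (feat t.1 t.2.2) u % t.1)
    (by fun_prop) ?_
  refine Poly.mod ?_ (by fun_prop)
  exact Poly.comp (g := fun t : List (List ℕ × ℕ) × List ℕ => coef t.1 t.2)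
    (f := fun s : (ℕ × List (List ℕ) × List ℕ) × List ℕ => (feat s.1.1 s.1.2.2, s.2)) poly_coef
    (Poly.pair (Poly.comp (g := fun t : ℕ × List ℕ => feat t.1 t.2)
      (f := fun s : (ℕ × List (List ℕ) × List ℕ) × List ℕ => (s.1.1, s.1.2.2)) poly_feat
      (by fun_prop)) (by fun_prop))

lemma poly_redp : Poly (fun t : ℕ × List ℕ × List ℕ => red t.1 t.2.1 t.2.2) := by
  unfold red
  refine NPC.Poly.map (F := fun (t : ℕ × List ℕ × List ℕ) (e : ℕ × ℕ) =>
    (hdN t.2.1 * e.1 + (t.1 - hdN t.2.2) * e.2) % t.1) (Poly.zip (by fun_prop) (by fun_prop)) ?_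
  unfold hdN
  refine Poly.mod (Poly.add (Poly.mul ?_ (by fun_prop)) (Poly.mul (Poly.sub (by fun_prop) ?_)
    (by fun_prop))) (by fun_prop)
  · exact Poly.head?_getD (by fun_prop) 0
  · exact Poly.head?_getD (by fun_prop) 0

lemma poly_estepp : Poly (fun s : ℕ × (List (List ℕ) × List ℕ × Bool) => estep s.1 s.2) := by
  unfold estep
  refine Poly.optElim (o := fun s : ℕ × (List (List ℕ) × List ℕ × Bool) => pivot s.2.1)
    (g := fun s => (s.2.1.map List.tail, s.2.2.1.tail, s.2.2.2 && decide (hdN s.2.2.1 = 0)))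
    (h := fun s pv => (s.2.1.map (red s.1 pv), red s.1 pv s.2.2.1, s.2.2.2))
    (poly_pivot.comp (by fun_prop)) ?_ ?_
  · refine Poly.pair ?_ (Poly.pair (by fun_prop) (Poly.and (by fun_prop) (Poly.decide_eq ?_
      (NPC.Poly.const _))))
    · exact NPC.Poly.map (F := fun (_ : ℕ × (List (List ℕ) × List ℕ × Bool)) (s : List ℕ) => s.tail)
        (by fun_prop) (by fun_prop)
    · exact poly_hdN.comp (by fun_prop)
  · refine Poly.pair ?_ (Poly.pair ?_ (by fun_prop))
    · refine NPC.Poly.map (F := fun (t : (ℕ × (List (List ℕ) × List ℕ × Bool)) × List ℕ)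
        (s : List ℕ) => red t.1.1 t.2 s) (by fun_prop) ?_
      exact Poly.comp (g := fun t : ℕ × List ℕ × List ℕ => red t.1 t.2.1 t.2.2)
        (f := fun s : ((ℕ × (List (List ℕ) × List ℕ × Bool)) × List ℕ) × List ℕ =>
          (s.1.1.1, s.1.2, s.2)) poly_redp (by fun_prop)
    · exact Poly.comp (g := fun t : ℕ × List ℕ × List ℕ => red t.1 t.2.1 t.2.2)
        (f := fun s : (ℕ × (List (List ℕ) × List ℕ × Bool)) × List ℕ =>
          (s.1.1, s.2, s.1.2.2.1)) poly_redp (by fun_prop)

lemma sz_wfp {p m : ℕ} {v : List ℕ} (h : WF p m v) : sz v ≤ m * (2 * sz p + 1) + 1 := by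
  have := sz_le_length_mul v (2 * sz p) (fun a ha => sz_nat_mono_le (h.2 a ha).le)
  rw [h.1] at this
  exact this

lemma poly_insp : Poly (fun t : ℕ × List (List ℕ) × List (List ℕ) × List ℕ =>
    insp (t.1 + 2) t.2.1 t.2.2.1 t.2.2.2) := by
  unfold insp
  have hp2 : Poly (fun t : ℕ × List (List ℕ) × List (List ℕ) × List ℕ => t.1 + 2) := by fun_prop
  obtain ⟨q, hq⟩ := hp2.sz_le
  have hs : Poly (fun t : ℕ × List (List ℕ) × List (List ℕ) × List ℕ =>
      (t.2.2.1.map (dv (t.1 + 2) t.2.1), dv (t.1 + 2) t.2.1 t.2.2.2, true)) := by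
    refine Poly.pair ?_ (Poly.pair ?_ (NPC.Poly.const _))
    · refine NPC.Poly.map (F := fun (t : ℕ × List (List ℕ) × List (List ℕ) × List ℕ) y =>
        dv (t.1 + 2) t.2.1 y) (by fun_prop) ?_
      exact Poly.comp (g := fun t : ℕ × List (List ℕ) × List ℕ => dv t.1 t.2.1 t.2.2)
        (f := fun s : (ℕ × List (List ℕ) × List (List ℕ) × List ℕ) × List ℕ =>
          (s.1.1 + 2, s.1.2.1, s.2)) poly_dv (by fun_prop)
    · exact Poly.comp (g := fun t : ℕ × List (List ℕ) × List ℕ => dv t.1 t.2.1 t.2.2)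
        (f := fun s : ℕ × List (List ℕ) × List (List ℕ) × List ℕ =>
          (s.1 + 2, s.2.1, s.2.2.2)) poly_dv (by fun_prop)
  refine Poly.snd (Poly.snd (Poly.iterLen
    (l := fun t : ℕ × List (List ℕ) × List (List ℕ) × List ℕ => t.2.1)
    (s := fun t : ℕ × List (List ℕ) × List (List ℕ) × List ℕ =>
      (t.2.2.1.map (dv (t.1 + 2) t.2.1), dv (t.1 + 2) t.2.1 t.2.2.2, true))
    (F := fun t s => estep (t.1 + 2) s) (by fun_prop) hs
    (Poly.comp (g := fun s : ℕ × (List (List ℕ) × List ℕ × Bool) => estep s.1 s.2)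
      (f := fun s : (ℕ × List (List ℕ) × List (List ℕ) × List ℕ) × (List (List ℕ) × List ℕ × Bool)
        => (s.1.1 + 2, s.2)) poly_estepp (by fun_prop))
    (Polynomial.X * (Polynomial.X * (2 * q + 1) + 2) + 1 +
      (Polynomial.X * (2 * q + 1) + 1) + 5) ?_))
  intro t k hk
  obtain ⟨h1, h2, h3⟩ := estep_wf (p := t.1 + 2) (by omega) t.2.1.length k hk
    (t.2.2.1.map (dv (t.1 + 2) t.2.1)) (dv (t.1 + 2) t.2.1 t.2.2.2) true (by
      intro v hv
      rw [List.mem_map] at hv
      obtain ⟨y, -, rfl⟩ := hv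
      exact wf_dense (by omega) _ _) (wf_dense (by omega) _ _)
  generalize (estep (t.1 + 2))^[k] (t.2.2.1.map (dv (t.1 + 2) t.2.1),
    dv (t.1 + 2) t.2.1 t.2.2.2, true) = st at h1 h2 h3 ⊢
  obtain ⟨L', t', ok'⟩ := st
  simp only at h1 h2 h3
  have e0 : sz t = sz t.1 + (sz t.2.1 + (sz t.2.2.1 + sz t.2.2.2 + 1) + 1) + 1 := by
    rw [← sz_pair, ← sz_pair, ← sz_pair]
  have h4 : t.2.1.length ≤ sz t := by
    have := length_lt_sz t.2.1
    omega
  have hqt : sz (t.1 + 2) ≤ q.eval (sz t) := hq t
  have h5 : ∀ v : List ℕ, WF (t.1 + 2) (t.2.1.length - k) v →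
      sz v ≤ sz t * (2 * q.eval (sz t) + 1) + 1 := by
    intro v hv
    refine (sz_wfp hv).trans ?_
    apply Nat.add_le_add_right
    exact Nat.mul_le_mul (by omega) (by omega)
  have h6 := sz_le_length_mul L' _ (fun v hv => h5 v (h2 v hv))
  have h7 := h5 t' h3
  have h8 := sz_bool_le ok'
  have h9 : L'.length ≤ sz t := by
    rw [h1, List.length_map]
    have := length_lt_sz t.2.2.1
    omega
  have h10 : L'.length * (sz t * (2 * q.eval (sz t) + 1) + 1 + 1) ≤
      sz t * (sz t * (2 * q.eval (sz t) + 1) + 2) := Nat.mul_le_mul h9 le_rfl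
  have h11 : sz (L', t', ok') = sz L' + (sz t' + sz ok' + 1) + 1 := by
    rw [← sz_pair, ← sz_pair]
  simp only [Polynomial.eval_add, Polynomial.eval_mul, Polynomial.eval_one,
    Polynomial.eval_ofNat, Polynomial.eval_X]
  omega

lemma foldl_indStep (p : ℕ) (Δ : List (List ℕ)) (L : List (List ℕ)) :
    ∀ s : List (List ℕ) × Bool, (L.foldl (indStep p Δ) s).1 = L.reverse ++ s.1 := by
  induction L with
  | nil => intro s; rfl
  | cons σ L ih =>
    intro s
    rw [List.foldl_cons, ih, List.reverse_cons, List.append_assoc]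
    rfl

lemma poly_indL : Poly (fun t : ℕ × List (List ℕ) × List (List ℕ) =>
    indL (t.1 + 2) t.2.1 t.2.2) := by
  unfold indL
  refine Poly.snd (Poly.foldl (l := fun t : ℕ × List (List ℕ) × List (List ℕ) => t.2.2)
    (s := fun _ => (([], true) : List (List ℕ) × Bool))
    (F := fun t s σ => indStep (t.1 + 2) t.2.1 s σ) (by fun_prop) (NPC.Poly.const _) ?_
    (Polynomial.X + 10) ?_)
  · unfold indStep
    refine Poly.pair (by fun_prop) (Poly.and (by fun_prop) (Poly.not ?_))
    exact Poly.comp (g := fun t : ℕ × List (List ℕ) × List (List ℕ) × List ℕ =>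
      insp (t.1 + 2) t.2.1 t.2.2.1 t.2.2.2)
      (f := fun s : (ℕ × List (List ℕ) × List (List ℕ)) × (List (List ℕ) × Bool) × List ℕ =>
        (s.1.1, s.1.2.1, s.2.1.1, s.2.2)) poly_insp (by fun_prop)
  · intro t k _
    have h1 := foldl_indStep (t.1 + 2) t.2.1 (t.2.2.take k) ([], true)
    have h2 : sz ((t.2.2.take k).foldl (indStep (t.1 + 2) t.2.1) ([], true)) =
        sz ((t.2.2.take k).foldl (indStep (t.1 + 2) t.2.1) ([], true)).1 +
        sz ((t.2.2.take k).foldl (indStep (t.1 + 2) t.2.1) ([], true)).2 + 1 := sz_pair _ _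
    have h3 := sz_bool_le ((t.2.2.take k).foldl (indStep (t.1 + 2) t.2.1) ([], true)).2
    rw [h1, List.append_nil, sz_reverse] at h2
    have h4 := Poly.sz_take_le t.2.2 k
    have e0 : sz t = sz t.1 + (sz t.2.1 + sz t.2.2 + 1) + 1 := by
      rw [← sz_pair, ← sz_pair]
    have h5 : sz ((t.2.2.take k).foldl (fun s σ => indStep (t.1 + 2) t.2.1 s σ) ([], true)) =
      sz ((t.2.2.take k).foldl (indStep (t.1 + 2) t.2.1) ([], true)) := rfl
    simp only [Polynomial.eval_add, Polynomial.eval_X, Polynomial.eval_ofNat]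
    omega

lemma poly_isP {B k : α → ℕ} (hB : UPoly B) (hk : Poly k) : Poly (fun a => isP (B a) (k a)) := by
  unfold isP
  refine Poly.all (p := fun a j => decide (j < 2) || (decide (k a + 2 ≤ j) ||
    !decide ((k a + 2) % j = 0))) hB.range ?_
  fun_prop

lemma poly_isFacet {Δ : α → List (List ℕ)} {σ : α → List ℕ} (hΔ : Poly Δ) (hσ : Poly σ) :
    Poly (fun a => isFacet (Δ a) (σ a)) := by
  unfold isFacet
  fun_prop

lemma poly_facets : Poly facets := by
  unfold facets
  exact Poly.filter (p := fun Δ σ => isFacet Δ σ) Poly.id (poly_isFacet (by fun_prop) (by fun_prop))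

lemma poly_sel {F : α → List (List ℕ)} {y : α → List Bool} (hF : Poly F) (hy : Poly y) :
    Poly (fun a => sel (F a) (y a)) := by
  unfold sel
  fun_prop

lemma upoly_bnd : UPoly bnd := by
  have hn : UPoly (fun Δ : List (List ℕ) => Δ.length) := UPoly.length Poly.id
  have hL : UPoly (fun Δ : List (List ℕ) => Δ.flatten.length) := UPoly.length (Poly.flatten Poly.id)
  unfold bnd
  exact UPoly.mul (UPoly.const 16) (upoly_pow (UPoly.add (UPoly.add (UPoly.mul hn hn)
    (UPoly.mul hn (UPoly.mul hn (UPoly.mul hL hL)))) (UPoly.const 2)) 2)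

lemma poly_ora : Poly (fun p : List (List ℕ) × List Bool => ora p.1 p.2) := by
  unfold ora
  have hb : UPoly (fun p : List (List ℕ) × List Bool => bnd p.1) := upoly_bnd.comp (by fun_prop)
  refine Poly.any (p := fun (p : List (List ℕ) × List Bool) k => isP (bnd p.1 + 2) k &&
    indL (k + 2) p.1 (sel (facets p.1) p.2)) hb.range ?_
  refine Poly.and ?_ ?_
  · refine poly_isP (UPoly.add (hb.comp (by fun_prop)) (UPoly.const 2)) (by fun_prop)
  · exact Poly.comp (g := fun t : ℕ × List (List ℕ) × List (List ℕ) =>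
      indL (t.1 + 2) t.2.1 t.2.2)
      (f := fun s : (List (List ℕ) × List Bool) × ℕ => (s.2, s.1.1, sel (facets s.1.1) s.1.2))
      poly_indL (Poly.pair (by fun_prop) (Poly.pair (by fun_prop)
        (poly_sel (poly_facets.comp (by fun_prop)) (by fun_prop))))

lemma upoly_facets : UPoly (fun Δ => (facets Δ).length) := UPoly.length poly_facets

/-- the system of the independence oracles of the boundary matrices -/
def cxSys : Sys (List (List ℕ)) where
  m := fun Δ => (facets Δ).length
  I := ora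
  um := upoly_facets
  pI := poly_ora

/-- the subcomplex with the chosen facets and all faces of smaller dimension -/
def outL (Δ : List (List ℕ)) (y : List Bool) : List (List ℕ) :=
  Δ.filter (fun σ => !isFacet Δ σ || decide (σ ∈ sel (facets Δ) y))

lemma poly_outL : Poly (fun p : List (List ℕ) × List Bool => outL p.1 p.2) := by
  unfold outL
  refine Poly.filter (p := fun (p : List (List ℕ) × List Bool) σ =>
    !isFacet p.1 σ || decide (σ ∈ sel (facets p.1) p.2)) (by fun_prop) ?_
  refine Poly.or (Poly.not (poly_isFacet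
    (Δ := fun s : (List (List ℕ) × List Bool) × List ℕ => s.1.1) (σ := fun s => s.2)
    (by fun_prop) (by fun_prop))) ?_
  exact Poly.dec_mem (f := fun s : (List (List ℕ) × List Bool) × List ℕ => s.2)
    (l := fun s => sel (facets s.1.1) s.1.2) (by fun_prop)
    (poly_sel (F := fun s : (List (List ℕ) × List Bool) × List ℕ => facets s.1.1)
      (poly_facets.comp (by fun_prop)) (by fun_prop))

/-- **The algorithm**: the sampler for spanning trees. -/
def cxD (p : List (List ℕ) × List Bool) : Option (List (List ℕ)) :=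
  (cxSys.D p.1 p.2).map (outL p.1)

theorem poly_cxD : Poly cxD := by
  unfold cxD
  exact Poly.optMap_fp (o := fun p : List (List ℕ) × List Bool => cxSys.D p.1 p.2)
    (h := fun p y => outL p.1 y) cxSys.poly_D
    (Poly.comp (g := fun p : List (List ℕ) × List Bool => outL p.1 p.2)
      (f := fun s : (List (List ℕ) × List Bool) × List Bool => (s.1.1, s.2)) poly_outL
      (by fun_prop))

end Pool.Agent.Q330.MS
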