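import Mathlib

set_option autoImplicit false

/-!
# Linear independence over the rationals and modulo primes
-/

namespace Pool.Agent.Q330.MS

open Finset Matrix

/-! ### many primes -/

lemma centralBinom_le (N : ℕ) (hN : 0 < N) :
    N.centralBinom ≤ (2 * N) ^ ((range (2 * N + 1)).filter Nat.Prime).card := by
  rw [← Nat.prod_pow_factorization_centralBinom N, ← prod_filter_mul_prod_filter_not _ Nat.Prime]
  have h1 : ∏ p ∈ (range (2 * N + 1)).filter (fun p => ¬ Nat.Prime p),
      p ^ N.centralBinom.factorization p = 1 := by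
    apply prod_eq_one
    intro p hp
    rw [mem_filter] at hp
    rw [Nat.factorization_eq_zero_of_not_prime _ hp.2, pow_zero]
  rw [h1, mul_one]
  apply prod_le_pow_card
  intro p _
  exact Nat.pow_factorization_choose_le (by omega)

lemma many_primes (s : ℕ) : s ≤ ((range (16 * (s + 1) ^ 2 + 1)).filter Nat.Prime).card := by
  by_contra hcon
  push Not at hcon
  set j := (s + 1).size + 1 with hj
  have h1 : s + 1 < 2 ^ (s + 1).size := Nat.lt_size_self _
  have hs0 : 1 ≤ (s + 1).size := by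
    rw [Nat.one_le_iff_ne_zero, Ne, Nat.size_eq_zero]
    omega
  have h2 : 2 ^ (s + 1).size ≤ 2 * (s + 1) := by
    obtain ⟨k, hk⟩ := Nat.exists_eq_succ_of_ne_zero (Nat.one_le_iff_ne_zero.1 hs0)
    have h3 : 2 ^ k ≤ s + 1 := Nat.lt_size.1 (by omega)
    rw [hk, pow_succ]
    omega
  have h2j : 2 ^ j ≤ 4 * (s + 1) := by
    rw [hj, pow_succ]
    omega
  have h2j' : 2 * (s + 1) ≤ 2 ^ j := by
    rw [hj, pow_succ]
    omega
  set N := 2 ^ (2 * j - 1) with hN
  have hNN : 2 * N = 2 ^ (2 * j) := by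
    rw [hN, ← pow_succ']
    congr 1
  have hN4 : 4 ≤ N := by
    calc 4 = 2 ^ 2 := by norm_num
      _ ≤ N := Nat.pow_le_pow_right (by norm_num) (by omega)
  have hle : 2 * N ≤ 16 * (s + 1) ^ 2 := by
    rw [hNN, mul_comm 2 j, pow_mul]
    calc (2 ^ j) ^ 2 ≤ (4 * (s + 1)) ^ 2 := Nat.pow_le_pow_left h2j 2
      _ = _ := by ring
  have hcard : ((range (2 * N + 1)).filter Nat.Prime).card ≤ s := by
    refine le_trans (card_le_card ?_) hcon.le
    apply filter_subset_filter
    intro x hx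
    rw [mem_range] at hx ⊢
    omega
  have h3 := Nat.four_pow_lt_mul_centralBinom N hN4
  have h4 := centralBinom_le N (by omega)
  have h5 : N * N.centralBinom ≤ (2 * N) ^ (s + 1) := by
    calc N * N.centralBinom ≤ (2 * N) * (2 * N) ^ ((range (2 * N + 1)).filter Nat.Prime).card :=
          Nat.mul_le_mul (by omega) h4
      _ ≤ (2 * N) * (2 * N) ^ s :=
          Nat.mul_le_mul_left _ (Nat.pow_le_pow_right (by omega) hcard)
      _ = _ := by rw [pow_succ]; ring
  have h6 : (2 * N) ^ (s + 1) ≤ 4 ^ N := by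
    have h7 : (4 : ℕ) ^ N = 2 ^ (2 * N) := by
      rw [pow_mul]
      norm_num
    rw [h7]
    nth_rewrite 1 [hNN]
    rw [← pow_mul]
    apply Nat.pow_le_pow_right (by norm_num)
    rw [hNN, mul_comm 2 j, pow_mul, sq]
    have h8 : j ≤ 2 ^ j := Nat.lt_two_pow_self.le
    calc j * 2 * (s + 1) = j * (2 * (s + 1)) := by ring
      _ ≤ 2 ^ j * 2 ^ j := Nat.mul_le_mul h8 h2j'
  omega

/-- a nonzero integer is not divisible by all small primes -/
lemma exists_prime {D : ℤ} (hD : D ≠ 0) {s : ℕ} (hs : D.natAbs < 2 ^ s) :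
    ∃ p : ℕ, p.Prime ∧ p ≤ 16 * (s + 1) ^ 2 ∧ ¬ (p : ℤ) ∣ D := by
  by_contra hcon
  push Not at hcon
  have h1 : ∏ p ∈ (range (16 * (s + 1) ^ 2 + 1)).filter Nat.Prime, p ∣ D.natAbs := by
    apply prod_primes_dvd
    · intro p hp
      exact (mem_filter.1 hp).2.prime
    · intro p hp
      rw [mem_filter, mem_range] at hp
      exact Int.natCast_dvd.1 (hcon p hp.2 (by omega))
  have h2 := Nat.le_of_dvd (Int.natAbs_pos.2 hD) h1
  have h3 : 2 ^ ((range (16 * (s + 1) ^ 2 + 1)).filter Nat.Prime).card ≤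
      ∏ p ∈ (range (16 * (s + 1) ^ 2 + 1)).filter Nat.Prime, p := by
    apply pow_card_le_prod
    intro p hp
    exact (mem_filter.1 hp).2.two_le
  have h4 := Nat.pow_le_pow_right (n := 2) (by norm_num) (many_primes s)
  omega

/-! ### matrices -/

variable {ι κ : Type} [Fintype ι] [DecidableEq ι] [Fintype κ] [DecidableEq κ]

lemma vecMul_inj_iff {K : Type} [Field K] (A : Matrix ι κ K) :
    LinearIndependent K (fun i => A i) ↔ ∀ c : ι → K, c ᵥ* A = 0 → c = 0 := by
  rw [Fintype.linearIndependent_iff]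
  constructor
  · intro h c hc
    funext i
    refine h c ?_ i
    rw [← hc]
    funext j
    simp [Matrix.vecMul, dotProduct]
  · intro h c hc i
    have := h c (by
      rw [← hc]
      funext j
      simp [Matrix.vecMul, dotProduct])
    exact congrFun this i

/-- independence modulo a prime implies independence over the rationals -/
theorem rat_of_mod (A : Matrix ι κ ℤ) (p : ℕ) [Fact p.Prime]
    (h : LinearIndependent (ZMod p) (fun i => (A.map (Int.cast : ℤ → ZMod p)) i)) :
    LinearIndependent ℚ (fun i => (A.map (Int.cast : ℤ → ℚ)) i) := by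
  rw [vecMul_inj_iff] at h ⊢
  -- a right inverse modulo `p`
  set f : (ι → ZMod p) →ₗ[ZMod p] (κ → ZMod p) := Matrix.vecMulLinear (A.map Int.cast) with hf
  have hker : LinearMap.ker f = ⊥ := by
    rw [LinearMap.ker_eq_bot']
    intro c hc
    exact h c hc
  obtain ⟨g, hg⟩ := LinearMap.exists_leftInverse_of_injective f hker
  set B : Matrix κ ι (ZMod p) := Matrix.of (fun j i => g (fun j' => if j = j' then 1 else 0) i)
    with hB
  have hgB : ∀ x : κ → ZMod p, g x = x ᵥ* B := by
    intro x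
    rw [LinearMap.pi_apply_eq_sum_univ g x]
    funext i
    simp [Matrix.vecMul, dotProduct, hB]
  have hAB : A.map (Int.cast : ℤ → ZMod p) * B = 1 := by
    have h1 : ∀ c : ι → ZMod p, c ᵥ* (A.map (Int.cast : ℤ → ZMod p) * B) = c := by
      intro c
      rw [← Matrix.vecMul_vecMul, ← hgB]
      have := LinearMap.congr_fun hg c
      simpa [hf] using this
    ext i j
    have h2 := congrFun (h1 (Pi.single i 1)) j
    rw [Matrix.single_one_vecMul] at h2
    simp only [Matrix.row_apply] at h2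
    rw [h2, Matrix.one_apply, Pi.single_apply]
    congr 1
    exact propext ⟨fun h => h.symm, fun h => h.symm⟩
  set B' : Matrix κ ι ℤ := B.map (fun z => (z.val : ℤ)) with hB'
  have hBB : B'.map (Int.cast : ℤ → ZMod p) = B := by
    ext i j
    simp [hB']
  have hdet : ((A * B').det : ZMod p) = 1 := by
    have h1 : ((A * B').det : ZMod p) = ((A * B').map (Int.cast : ℤ → ZMod p)).det := by
      have := RingHom.map_det (Int.castRingHom (ZMod p)) (A * B')
      simpa using this
    have h2 : (A * B').map (Int.cast : ℤ → ZMod p) = 1 := by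
      have := Matrix.map_mul (L := A) (M := B') (f := Int.castRingHom (ZMod p))
      have h3 : (A * B').map (Int.cast : ℤ → ZMod p) =
          A.map (Int.cast : ℤ → ZMod p) * B'.map (Int.cast : ℤ → ZMod p) := by
        simpa using this
      rw [h3, hBB, hAB]
    rw [h1, h2, Matrix.det_one]
  have hdet0 : (A * B').det ≠ 0 := by
    intro h0
    rw [h0] at hdet
    simp at hdet
  intro c hc
  have h1 : c ᵥ* ((A * B').map (Int.cast : ℤ → ℚ)) = 0 := by
    have := Matrix.map_mul (L := A) (M := B') (f := Int.castRingHom ℚ)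
    have h3 : (A * B').map (Int.cast : ℤ → ℚ) =
        A.map (Int.cast : ℤ → ℚ) * B'.map (Int.cast : ℤ → ℚ) := by
      simpa using this
    rw [h3, ← Matrix.vecMul_vecMul, hc, Matrix.zero_vecMul]
  by_contra hc0
  have h2 : ((A * B').map (Int.cast : ℤ → ℚ)).det = 0 :=
    Matrix.exists_vecMul_eq_zero_iff.1 ⟨c, hc0, h1⟩
  have h3 : (((A * B').det : ℤ) : ℚ) = ((A * B').map (Int.cast : ℤ → ℚ)).det := by
    have := RingHom.map_det (Int.castRingHom ℚ) (A * B')
    simpa using this
  rw [h2] at h3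
  exact hdet0 (by exact_mod_cast h3)

/-- the Gram determinant -/
theorem gram_ne_zero (A : Matrix ι κ ℤ)
    (h : LinearIndependent ℚ (fun i => (A.map (Int.cast : ℤ → ℚ)) i)) : (A * Aᵀ).det ≠ 0 := by
  rw [vecMul_inj_iff] at h
  intro h0
  have h3 : (((A * Aᵀ).det : ℤ) : ℚ) = ((A * Aᵀ).map (Int.cast : ℤ → ℚ)).det := by
    have := RingHom.map_det (Int.castRingHom ℚ) (A * Aᵀ)
    simpa using this
  rw [h0, Int.cast_zero] at h3
  obtain ⟨c, hc0, hc⟩ := Matrix.exists_vecMul_eq_zero_iff.2 h3.symm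
  have h4 : (A * Aᵀ).map (Int.cast : ℤ → ℚ) =
      A.map (Int.cast : ℤ → ℚ) * (A.map (Int.cast : ℤ → ℚ))ᵀ := by
    have := Matrix.map_mul (L := A) (M := Aᵀ) (f := Int.castRingHom ℚ)
    rw [← Matrix.transpose_map]
    simpa using this
  rw [h4, ← Matrix.vecMul_vecMul] at hc
  set x := c ᵥ* A.map (Int.cast : ℤ → ℚ) with hx
  have h5 : x ⬝ᵥ x = 0 := by
    have h6 : (x ᵥ* (A.map (Int.cast : ℤ → ℚ))ᵀ) ⬝ᵥ c = 0 := by
      rw [hc]
      simp
    rw [Matrix.vecMul_transpose, dotProduct_comm, Matrix.dotProduct_mulVec, ← hx] at h6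
    exact h6
  have h6 : x = 0 := dotProduct_self_eq_zero.1 h5
  exact hc0 (h c h6)

/-- independence over the rationals implies independence modulo primes -/
theorem mod_of_gram (A : Matrix ι κ ℤ) (p : ℕ) [Fact p.Prime] (h : ¬ (p : ℤ) ∣ (A * Aᵀ).det) :
    LinearIndependent (ZMod p) (fun i => (A.map (Int.cast : ℤ → ZMod p)) i) := by
  rw [vecMul_inj_iff]
  intro c hc
  by_contra hc0
  have h4 : (A * Aᵀ).map (Int.cast : ℤ → ZMod p) =
      A.map (Int.cast : ℤ → ZMod p) * (A.map (Int.cast : ℤ → ZMod p))ᵀ := by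
    have := Matrix.map_mul (L := A) (M := Aᵀ) (f := Int.castRingHom (ZMod p))
    rw [← Matrix.transpose_map]
    simpa using this
  have h1 : c ᵥ* ((A * Aᵀ).map (Int.cast : ℤ → ZMod p)) = 0 := by
    rw [h4, ← Matrix.vecMul_vecMul, hc, Matrix.zero_vecMul]
  have h2 : ((A * Aᵀ).map (Int.cast : ℤ → ZMod p)).det = 0 :=
    Matrix.exists_vecMul_eq_zero_iff.1 ⟨c, hc0, h1⟩
  have h3 : (((A * Aᵀ).det : ℤ) : ZMod p) = ((A * Aᵀ).map (Int.cast : ℤ → ZMod p)).det := by
    have := RingHom.map_det (Int.castRingHom (ZMod p)) (A * Aᵀ)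
    simpa using this
  rw [h2] at h3
  exact h ((ZMod.intCast_zmod_eq_zero_iff_dvd _ _).1 h3)

/-- the size of the Gram determinant -/
theorem gram_lt (A : Matrix ι κ ℤ) {L n : ℕ} (hL : ∀ i j, |A i j| ≤ L) (hι : Fintype.card ι ≤ n)
    (hκ : Fintype.card κ ≤ n) : (A * Aᵀ).det.natAbs < 2 ^ (n * n + n * (n * (L * L)) + 1) := by
  have hent : ∀ i j, |(A * Aᵀ) i j| ≤ ((n * (L * L) : ℕ) : ℤ) := by
    intro i j
    rw [Matrix.mul_apply]
    refine (abs_sum_le_sum_abs _ _).trans ?_
    calc ∑ k, |A i k * Aᵀ k j| ≤ ∑ k : κ, ((L * L : ℕ) : ℤ) := by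
          apply sum_le_sum
          intro k _
          rw [abs_mul, Matrix.transpose_apply]
          push_cast
          exact mul_le_mul (hL i k) (hL j k) (abs_nonneg _) (by positivity)
      _ = ((Fintype.card κ * (L * L) : ℕ) : ℤ) := by
          rw [sum_const, card_univ, nsmul_eq_mul]
          push_cast
          ring
      _ ≤ _ := by
          exact_mod_cast Nat.mul_le_mul_right _ hκ
  have h1 := Matrix.det_le (A := A * Aᵀ) (abv := AbsoluteValue.abs)
    (x := ((n * (L * L) : ℕ) : ℤ)) hent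
  have h2 : (A * Aᵀ).det.natAbs ≤ (Fintype.card ι).factorial * (n * (L * L)) ^ Fintype.card ι := by
    have h3 : ((A * Aᵀ).det.natAbs : ℤ) ≤
        (((Fintype.card ι).factorial * (n * (L * L)) ^ Fintype.card ι : ℕ) : ℤ) := by
      rw [Int.natCast_natAbs]
      have h4 := h1
      simp only [AbsoluteValue.abs_apply, nsmul_eq_mul] at h4
      push_cast at h4 ⊢
      exact h4
    exact_mod_cast h3
  have h3 : (Fintype.card ι).factorial ≤ 2 ^ (n * n) := by
    have h4 : (Fintype.card ι).factorial ≤ n.factorial := Nat.factorial_le hι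
    have h5 : n.factorial ≤ n ^ n := Nat.factorial_le_pow n
    have h6 : n ^ n ≤ (2 ^ n) ^ n := Nat.pow_le_pow_left Nat.lt_two_pow_self.le n
    rw [← pow_mul] at h6
    omega
  have h4 : (n * (L * L)) ^ Fintype.card ι ≤ 2 ^ (n * (n * (L * L))) := by
    calc (n * (L * L)) ^ Fintype.card ι ≤ (2 ^ (n * (L * L))) ^ Fintype.card ι :=
          Nat.pow_le_pow_left Nat.lt_two_pow_self.le _
      _ ≤ (2 ^ (n * (L * L))) ^ n := Nat.pow_le_pow_right Nat.one_le_two_pow hι
      _ = _ := by rw [← pow_mul]; congr 1; ring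
  have h5 := Nat.mul_le_mul h3 h4
  rw [← pow_add] at h5
  have h6 : 0 < 2 ^ (n * n + n * (n * (L * L))) := by positivity
  rw [pow_succ]
  omega

/-- **Independence over the rationals can be tested modulo small primes.** -/
theorem indep_iff_mod (A : Matrix ι κ ℤ) {L n : ℕ} (hL : ∀ i j, |A i j| ≤ L)
    (hι : Fintype.card ι ≤ n) (hκ : Fintype.card κ ≤ n) :
    LinearIndependent ℚ (fun i => (A.map (Int.cast : ℤ → ℚ)) i) ↔
      ∃ p : ℕ, p.Prime ∧ p ≤ 16 * (n * n + n * (n * (L * L)) + 2) ^ 2 ∧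
        LinearIndependent (ZMod p) (fun i => (A.map (Int.cast : ℤ → ZMod p)) i) := by
  constructor
  · intro h
    obtain ⟨p, h1, h2, h3⟩ := exists_prime (gram_ne_zero A h) (gram_lt A hL hι hκ)
    have : Fact p.Prime := ⟨h1⟩
    exact ⟨p, h1, h2, mod_of_gram A p h3⟩
  · rintro ⟨p, h1, -, h2⟩
    have : Fact p.Prime := ⟨h1⟩
    exact rat_of_mod A p h2

end Pool.Agent.Q330.MS
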