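import Mathlib
import Pool.Agent.Q330.MS.IndPoly
import Pool.Agent.Q330.MS.IndQ
import Pool.Agent.Q330.MS.Sem

set_option autoImplicit false

/-!
# The independence oracle for the boundary matrix: correctness
-/

namespace Pool.Agent.Q330.MS

open Finset Pool.Agent.NPC Pool.Agent.H334R5.Lin

/-! ### boundaries -/

/-- The boundary of a face (given by the list of its vertices) with coefficients in `R`: the
alternating sum of the faces obtained by omitting one vertex. -/
noncomputable def bd (R : Type) [Ring R] (σ : List ℕ) : List ℕ →₀ R :=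
  ∑ i ∈ range σ.length, Finsupp.single (σ.eraseIdx i) ((-1) ^ i)

lemma er_aux (σ : List ℕ) : ∀ k i : ℕ,
    ((σ.zipIdx k).filter (fun e => !decide (e.2 = k + i))).map Prod.fst = σ.eraseIdx i := by
  induction σ with
  | nil => intro k i; simp
  | cons a σ ih =>
    intro k i
    rw [List.zipIdx_cons]
    cases i with
    | zero =>
      have h1 : (σ.zipIdx (k + 1)).filter (fun e => !decide (e.2 = k + 0)) = σ.zipIdx (k + 1) := by
        rw [List.filter_eq_self]
        intro e he
        have := List.le_snd_of_mem_zipIdx he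
        have h2 : ¬ e.2 = k := by omega
        simp [h2]
      rw [List.filter_cons_of_neg (by simp), h1, List.eraseIdx_cons_zero]
      exact List.zipIdx_map_fst _ _
    | succ i =>
      have h2 : ¬ k = k + (i + 1) := by omega
      rw [List.filter_cons_of_pos (by simp), List.map_cons, List.eraseIdx_cons_succ]
      congr 1
      rw [← ih (k + 1) i]
      congr 2
      funext e
      congr 2
      exact propext ⟨fun h => by omega, fun h => by omega⟩

lemma er_eq (σ : List ℕ) (i : ℕ) : er σ i = σ.eraseIdx i := by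
  have := er_aux σ 0 i
  simpa [er] using this

lemma vec_map {Λ : Type} [DecidableEq Λ] (p : ℕ) (f : ℕ → Λ × ℕ) (n : ℕ) :
    vec p ((List.range n).map f) = ∑ i ∈ range n, Finsupp.single (f i).1 ((f i).2 : ZMod p) := by
  unfold vec
  rw [List.map_map, ← List.sum_toFinset _ List.nodup_range]
  apply sum_congr
  · ext a
    simp
  · intro _ _
    rfl

lemma vec_feat (p : ℕ) (hp : 1 ≤ p) (σ : List ℕ) : vec p (feat p σ) = bd (ZMod p) σ := by
  unfold feat bd
  rw [vec_map]
  apply sum_congr rfl
  intro i _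
  simp only [er_eq]
  congr 1
  rcases Nat.even_or_odd i with h | h
  · have h1 : i % 2 = 0 := Nat.even_iff.1 h
    simp [h1, h.neg_one_pow]
  · have h1 : i % 2 = 1 := Nat.odd_iff.1 h
    have h2 : ¬ i % 2 = 0 := by omega
    simp only [h2, decide_false, cond_false]
    rw [h.neg_one_pow, Nat.cast_sub hp]
    simp

lemma bd_apply {R : Type} [Ring R] (σ τ : List ℕ) :
    bd R σ τ = ∑ i ∈ range σ.length, if σ.eraseIdx i = τ then (-1 : R) ^ i else 0 := by
  unfold bd
  rw [Finsupp.finsetSum_apply]
  apply sum_congr rfl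
  intro i _
  rw [Finsupp.single_apply]

lemma bd_cast {R : Type} [Ring R] (σ τ : List ℕ) : ((bd ℤ σ τ : ℤ) : R) = bd R σ τ := by
  rw [bd_apply, bd_apply]
  push_cast
  apply sum_congr rfl
  intro i _
  split_ifs <;> simp

lemma abs_bd_le (σ τ : List ℕ) : |bd ℤ σ τ| ≤ σ.length := by
  rw [bd_apply]
  refine (abs_sum_le_sum_abs _ _).trans ?_
  calc ∑ i ∈ range σ.length, |if σ.eraseIdx i = τ then (-1 : ℤ) ^ i else 0| ≤
      ∑ i ∈ range σ.length, (1 : ℤ) := by
        apply sum_le_sum
        intro i _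
        split_ifs
        · rw [abs_pow]
          simp
        · simp
    _ = σ.length := by simp

/-- the boundary of `σ` consists of members of `Δ` -/
def Closed (Δ : List (List ℕ)) (σ : List ℕ) : Prop := ∀ i < σ.length, σ.eraseIdx i ∈ Δ

lemma bd_eq_zero {R : Type} [Ring R] {Δ : List (List ℕ)} {σ : List ℕ} (h : Closed Δ σ) {τ : List ℕ}
    (hτ : τ ∉ Δ) : bd R σ τ = 0 := by
  rw [bd_apply]
  apply sum_eq_zero
  intro i hi
  rw [mem_range] at hi
  rw [if_neg]
  rintro rfl
  exact hτ (h i hi)

/-! ### the elimination -/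

lemma insp_iff {p : ℕ} [Fact p.Prime] {Δ L : List (List ℕ)} {σ : List ℕ}
    (hL : ∀ τ ∈ L, Closed Δ τ) (hσ : Closed Δ σ) : insp p Δ L σ = true ↔
      bd (ZMod p) σ ∈ Submodule.span (ZMod p) (bd (ZMod p) '' {τ | τ ∈ L}) := by
  have hp : 0 < p := (Fact.out : p.Prime).pos
  unfold insp
  have h0 := estep_iter (p := p) Δ.length (L.map (dv p Δ)) (dv p Δ σ) true (by
    intro v hv
    rw [List.mem_map] at hv
    obtain ⟨y, -, rfl⟩ := hv
    exact wf_dense hp _ _) (wf_dense hp Δ (feat p σ))
  rw [h0]
  simp only [true_and]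
  have himg : toV p '' {v | v ∈ L.map (dv p Δ)} =
      coord Δ '' (bd (ZMod p) '' {τ | τ ∈ L}) := by
    ext f
    simp only [Set.mem_image, Set.mem_ofPred_eq, List.mem_map]
    constructor
    · rintro ⟨_, ⟨w, hw, rfl⟩, rfl⟩
      refine ⟨_, ⟨w, hw, rfl⟩, ?_⟩
      unfold dv
      rw [toV_dense, vec_feat p hp]
    · rintro ⟨_, ⟨w, hw, rfl⟩, rfl⟩
      refine ⟨_, ⟨w, hw, rfl⟩, ?_⟩
      unfold dv
      rw [toV_dense, vec_feat p hp]
  have h2 : toV p (dv p Δ σ) = coord Δ (bd (ZMod p) σ) := by
    unfold dv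
    rw [toV_dense, vec_feat p hp]
  rw [himg, h2]
  refine (span_coord_iff _ ?_ ?_).symm
  · rintro _ ⟨y, hy, rfl⟩ u hu
    exact bd_eq_zero (hL y hy) hu
  · intro u hu
    exact bd_eq_zero hσ hu

lemma indL_aux {p : ℕ} [Fact p.Prime] {Δ : List (List ℕ)} : ∀ (L pre : List (List ℕ)) (b : Bool),
    (∀ τ ∈ L, Closed Δ τ) → (∀ τ ∈ pre, Closed Δ τ) → (∀ τ ∈ L, τ ∉ pre) → L.Nodup →
    (b = true ↔ LinearIndepOn (ZMod p) (bd (ZMod p)) {τ | τ ∈ pre}) →
    ((L.foldl (indStep p Δ) (pre, b)).2 = true ↔
      LinearIndepOn (ZMod p) (bd (ZMod p)) {τ | τ ∈ pre ∨ τ ∈ L}) := by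
  intro L
  induction L with
  | nil =>
    intro pre b _ _ _ _ hb
    simpa using hb
  | cons σ L ih =>
    intro pre b hL hpre hdis hnd hb
    rw [List.foldl_cons]
    have hσ := hL σ List.mem_cons_self
    have hσpre := hdis σ List.mem_cons_self
    rw [List.nodup_cons] at hnd
    have h1 := ih (σ :: pre) (b && !insp p Δ pre σ)
      (fun τ hτ => hL τ (List.mem_cons_of_mem _ hτ))
      (by
        intro τ hτ
        rw [List.mem_cons] at hτ
        rcases hτ with rfl | hτ
        · exact hσ
        · exact hpre τ hτ)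
      (by
        intro τ hτ h
        rw [List.mem_cons] at h
        rcases h with rfl | h
        · exact hnd.1 hτ
        · exact hdis τ (List.mem_cons_of_mem _ hτ) h) hnd.2
      (by
        have hset : {τ | τ ∈ σ :: pre} = insert σ {τ | τ ∈ pre} := by
          ext τ
          simp
        rw [hset, linearIndepOn_insert (by exact hσpre), ← hb, Bool.and_eq_true,
          Bool.not_eq_true']
        apply and_congr_right
        intro _
        rw [← insp_iff hpre hσ]
        simp)
    have hset : {τ | τ ∈ pre ∨ τ ∈ σ :: L} = {τ | τ ∈ σ :: pre ∨ τ ∈ L} := by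
      ext τ
      simp only [Set.mem_ofPred_eq, List.mem_cons]
      tauto
    rw [hset]
    exact h1

lemma indL_iff {p : ℕ} [Fact p.Prime] {Δ L : List (List ℕ)} (hL : ∀ τ ∈ L, Closed Δ τ)
    (hn : L.Nodup) : indL p Δ L = true ↔
      LinearIndepOn (ZMod p) (bd (ZMod p)) {τ | τ ∈ L} := by
  unfold indL
  rw [indL_aux L [] true hL (by simp) (by simp) hn]
  · simp
  · simp

/-! ### passing to the rationals -/

lemma restrict_iff {K : Type} [Field K] {Δ : List (List ℕ)} {s : Finset (List ℕ)}
    (hs : ∀ σ ∈ s, Closed Δ σ) :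
    LinearIndepOn K (bd K) (s : Set (List ℕ)) ↔
      LinearIndependent K (fun (σ : s) (τ : Δ.toFinset) => bd K σ.1 τ.1) := by
  rw [LinearIndepOn, Fintype.linearIndependent_iff, Fintype.linearIndependent_iff]
  have key : ∀ g : s → K, (∑ i : s, g i • bd K i.1 = 0 ↔
      ∑ i : s, g i • (fun τ : Δ.toFinset => bd K i.1 τ.1) = 0) := by
    intro g
    constructor
    · intro h
      funext τ
      have := DFunLike.congr_fun h τ.1
      rw [Finsupp.finsetSum_apply] at this
      rw [Finset.sum_apply]
      simpa using this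
    · intro h
      ext τ
      rw [Finsupp.finsetSum_apply]
      by_cases hτ : τ ∈ Δ
      · have := congrFun h ⟨τ, List.mem_toFinset.2 hτ⟩
        rw [Finset.sum_apply] at this
        simpa using this
      · apply sum_eq_zero
        intro i _
        rw [Finsupp.smul_apply, bd_eq_zero (hs i.1 i.2) hτ, smul_zero]
  constructor
  · intro h g hg
    exact h g ((key g).2 hg)
  · intro h g hg
    exact h g ((key g).1 hg)

lemma length_le_flatten {Δ : List (List ℕ)} {σ : List ℕ} (h : σ ∈ Δ) :
    σ.length ≤ Δ.flatten.length := (List.sublist_flatten_of_mem h).length_le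

theorem indep_rat_iff {Δ L : List (List ℕ)} (hL : ∀ τ ∈ L, Closed Δ τ) (hLΔ : ∀ τ ∈ L, τ ∈ Δ)
    : LinearIndepOn ℚ (bd ℚ) {τ | τ ∈ L} ↔
      ∃ p : ℕ, p.Prime ∧ p ≤ bnd Δ ∧ LinearIndepOn (ZMod p) (bd (ZMod p)) {τ | τ ∈ L} := by
  have hset : {τ | τ ∈ L} = (L.toFinset : Set (List ℕ)) := by
    ext τ
    simp
  rw [hset]
  have hs : ∀ σ ∈ L.toFinset, Closed Δ σ := fun σ hσ => hL σ (List.mem_toFinset.1 hσ)
  set A : Matrix L.toFinset Δ.toFinset ℤ := Matrix.of (fun σ τ => bd ℤ σ.1 τ.1) with hA
  have h1 := indep_iff_mod A (L := Δ.flatten.length) (n := Δ.length) (by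
    intro i j
    refine (abs_bd_le _ _).trans ?_
    exact_mod_cast length_le_flatten (hLΔ i.1 (List.mem_toFinset.1 i.2))) (by
    rw [Fintype.card_coe]
    calc L.toFinset.card ≤ Δ.toFinset.card := by
          apply card_le_card
          intro σ hσ
          rw [List.mem_toFinset] at hσ ⊢
          exact hLΔ σ hσ
      _ ≤ Δ.length := List.toFinset_card_le _) (by
    rw [Fintype.card_coe]
    exact List.toFinset_card_le _)
  have hK : ∀ (K : Type) [Field K], (LinearIndepOn K (bd K) (L.toFinset : Set (List ℕ)) ↔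
      LinearIndependent K (fun i => (A.map (Int.cast : ℤ → K)) i)) := by
    intro K _
    rw [restrict_iff hs]
    have : (fun (σ : L.toFinset) (τ : Δ.toFinset) => bd K σ.1 τ.1) =
        fun i => (A.map (Int.cast : ℤ → K)) i := by
      funext σ τ
      simp [hA, bd_cast]
    rw [this]
  rw [hK ℚ, h1]
  constructor
  · rintro ⟨p, hp, hb, h⟩
    have : Fact p.Prime := ⟨hp⟩
    exact ⟨p, hp, hb, (hK (ZMod p)).2 h⟩
  · rintro ⟨p, hp, hb, h⟩
    have : Fact p.Prime := ⟨hp⟩
    exact ⟨p, hp, hb, (hK (ZMod p)).1 h⟩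

lemma isP_iff {B k : ℕ} (h : k + 2 ≤ B) : isP B k = true ↔ (k + 2).Prime := by
  unfold isP
  rw [List.all_eq_true, Nat.prime_def_lt']
  constructor
  · intro h1
    refine ⟨by omega, fun j hj hj' hd => ?_⟩
    have h2 := h1 j (List.mem_range.2 (by omega))
    simp only [Bool.or_eq_true, decide_eq_true_eq, Bool.not_eq_true', decide_eq_false_iff_not]
      at h2
    rcases h2 with h2 | h2 | h2
    · omega
    · omega
    · exact h2 (Nat.dvd_iff_mod_eq_zero.1 hd)
  · rintro ⟨_, h1⟩ j _
    simp only [Bool.or_eq_true, decide_eq_true_eq, Bool.not_eq_true', decide_eq_false_iff_not]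
    by_cases h2 : j < 2
    · exact Or.inl h2
    · right
      by_cases h3 : k + 2 ≤ j
      · exact Or.inl h3
      · right
        intro h4
        exact h1 j (by omega) (by omega) (Nat.dvd_iff_mod_eq_zero.2 h4)

/-- **The oracle is correct.** -/
theorem ora_iff {Δ : List (List ℕ)} {y : List Bool}
    (hL : ∀ τ ∈ sel (facets Δ) y, Closed Δ τ) (hLΔ : ∀ τ ∈ sel (facets Δ) y, τ ∈ Δ)
    (hn : (sel (facets Δ) y).Nodup) :
    ora Δ y = true ↔ LinearIndepOn ℚ (bd ℚ) {τ | τ ∈ sel (facets Δ) y} := by
  rw [indep_rat_iff hL hLΔ]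
  unfold ora
  rw [List.any_eq_true]
  constructor
  · rintro ⟨k, hk, h⟩
    rw [List.mem_range] at hk
    rw [Bool.and_eq_true, isP_iff (by omega)] at h
    have : Fact (k + 2).Prime := ⟨h.1⟩
    have h2 := (indL_iff hL hn).1 h.2
    -- the bound for the prime is not needed in this direction
    have h3 : LinearIndepOn ℚ (bd ℚ) {τ | τ ∈ sel (facets Δ) y} := by
      have hset : {τ | τ ∈ sel (facets Δ) y} = ((sel (facets Δ) y).toFinset : Set (List ℕ)) := by
        ext τ
        simp
      rw [hset] at h2 ⊢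
      have hs : ∀ σ ∈ (sel (facets Δ) y).toFinset, Closed Δ σ :=
        fun σ hσ => hL σ (List.mem_toFinset.1 hσ)
      rw [restrict_iff hs] at h2 ⊢
      set A : Matrix (sel (facets Δ) y).toFinset Δ.toFinset ℤ :=
        Matrix.of (fun σ τ => bd ℤ σ.1 τ.1) with hA
      have e1 : (fun (σ : (sel (facets Δ) y).toFinset) (τ : Δ.toFinset) =>
          bd (ZMod (k + 2)) σ.1 τ.1) = fun i => (A.map (Int.cast : ℤ → ZMod (k + 2))) i := by
        funext σ τ
        simp [hA, bd_cast]
      have e2 : (fun (σ : (sel (facets Δ) y).toFinset) (τ : Δ.toFinset) =>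
          bd ℚ σ.1 τ.1) = fun i => (A.map (Int.cast : ℤ → ℚ)) i := by
        funext σ τ
        simp [hA, bd_cast]
      rw [e1] at h2
      rw [e2]
      exact rat_of_mod A (k + 2) h2
    exact (indep_rat_iff hL hLΔ).1 h3
  · rintro ⟨p, hp, hb, h⟩
    obtain ⟨k, rfl⟩ := Nat.exists_eq_add_of_le' hp.two_le
    refine ⟨k, List.mem_range.2 (by omega), ?_⟩
    rw [Bool.and_eq_true, isP_iff (by omega)]
    have : Fact (k + 2).Prime := ⟨hp⟩
    exact ⟨hp, (indL_iff hL hn).2 h⟩

/-! ### the matroid of a family of vectors -/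

theorem exists_mat {K V α : Type} [Field K] [AddCommGroup V] [Module K V] [Fintype α]
    [DecidableEq α] (v : α → V) : ∃ (r : ℕ) (M : Mat α r),
      ∀ B : Finset α, M.Ind B ↔ LinearIndepOn K v (B : Set α) := by
  classical
  -- the rank
  set P : Finset (Finset α) := univ.filter (fun B => LinearIndepOn K v (B : Set α)) with hP
  have hPne : P.Nonempty := ⟨∅, by simp [hP]⟩
  obtain ⟨B₀, hB₀, hmax⟩ := P.exists_max_image Finset.card hPne
  refine ⟨B₀.card, ⟨fun B => LinearIndepOn K v (B : Set α), by simp, ?_, ?_, ?_, ?_⟩,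
    fun B => Iff.rfl⟩
  · intro A B hAB hB
    exact hB.mono (by exact_mod_cast hAB)
  · intro A B hA hB hlt
    by_contra hcon
    push Not at hcon
    have h1 : ∀ e ∈ B, v e ∈ Submodule.span K (v '' (A : Set α)) := by
      intro e he
      by_cases heA : e ∈ A
      · exact Submodule.subset_span ⟨e, heA, rfl⟩
      · have h2 := hcon e he heA
        rw [coe_insert, linearIndepOn_insert (by exact_mod_cast heA)] at h2
        by_contra h3
        exact h2 ⟨hA, h3⟩
    have h2 : Submodule.span K (v '' (B : Set α)) ≤ Submodule.span K (v '' (A : Set α)) := by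
      rw [Submodule.span_le]
      rintro _ ⟨e, he, rfl⟩
      exact h1 e he
    have hfin : FiniteDimensional K (Submodule.span K (v '' (A : Set α))) :=
      FiniteDimensional.span_of_finite K (A.finite_toSet.image v)
    have h3 := Submodule.finrank_mono h2
    have hcard : ∀ C : Finset α, LinearIndepOn K v (C : Set α) →
        Module.finrank K (Submodule.span K (v '' (C : Set α))) = C.card := by
      intro C hC
      have h4 := finrank_span_eq_card (R := K) (b := fun i : C => v i) hC
      have h5 : Set.range (fun i : C => v i) = v '' (C : Set α) := by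
        ext x
        simp
      rw [h5, Fintype.card_coe] at h4
      exact h4
    rw [hcard A hA, hcard B hB] at h3
    omega
  · exact ⟨B₀, (mem_filter.1 hB₀).2, rfl⟩
  · intro B hB
    exact hmax B (mem_filter.2 ⟨mem_univ _, hB⟩)

/-- the bases span -/
lemma span_of_basis {K V α : Type} [Field K] [AddCommGroup V] [Module K V] [Fintype α]
    [DecidableEq α] {v : α → V} {r : ℕ} {M : Mat α r}
    (hM : ∀ B : Finset α, M.Ind B ↔ LinearIndepOn K v (B : Set α)) (B : Finset α) :
    B ∈ M.bases ↔ LinearIndepOn K v (B : Set α) ∧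
      ∀ e, v e ∈ Submodule.span K (v '' (B : Set α)) := by
  rw [M.mem_bases, hM]
  apply and_congr_right
  intro hB
  constructor
  · intro hc e
    by_cases he : e ∈ B
    · exact Submodule.subset_span ⟨e, he, rfl⟩
    · by_contra h
      have h1 : M.Ind (insert e B) := by
        rw [hM, coe_insert, linearIndepOn_insert (by exact_mod_cast he)]
        exact ⟨hB, h⟩
      have h2 := M.le _ h1
      rw [card_insert_of_notMem he] at h2
      omega
  · intro hspan
    have h1 := M.le B ((hM B).2 hB)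
    by_contra hne
    obtain ⟨B', hB', hc'⟩ := M.exB
    obtain ⟨e, _, he, hI⟩ := M.exch ((hM B).2 hB) hB' (by omega)
    rw [hM, coe_insert, linearIndepOn_insert (by exact_mod_cast he)] at hI
    exact hI.2 (hspan e)

end Pool.Agent.Q330.MS
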