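import Mathlib
import Pool.Agent.NPC.Enc

set_option autoImplicit false

/-!
# Exact samplers, simplicial complexes and their spanning trees: definitions

Polynomial time is Mathlib's `Turing.TM2ComputableInPolyTime` (through `Pool.Agent.NPC.Poly`, for
the standard encoding `bits` of structured data by bit strings).
-/

namespace Pool.Agent.Q330.MS

open Filter Topology Pool.Agent.NPC

/-- The probability that the outcomes of the first `k` flips of a fair coin have the property
`p`. -/
noncomputable def coinProb (k : ℕ) (p : List Bool → Prop) : ℝ :=
  ({w : Fin k → Bool | p (List.ofFn w)}.ncard : ℝ) / 2 ^ k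

/-- A randomised algorithm on a fixed input is given by a function `D`: if `w` is the list of the
outcomes of the coin flips made so far, then `D w = none` means that the algorithm has not yet
halted (it flips the coin once more), and `D w = some y` means that it has halted with the output
`y`. The algorithm computes `D w` after each coin flip. If the computation of `D w` costs
`q (s + w.length)`, where `s` is the size of the input, then this is the expected total cost: the
cost for the first computation (before any coin flip), and, for each `k`, the cost of the
computation after `k + 1` coin flips, which is made iff the algorithm has not halted after `k` coin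
flips. -/
noncomputable def expectedCost {β : Type} (D : List Bool → Option β) (q : Polynomial ℕ) (s : ℕ) :
    ENNReal :=
  ((q.eval s : ℕ) : ENNReal) +
    ∑' k : ℕ, ENNReal.ofReal (coinProb k (fun w => D w = none)) *
      ((q.eval (s + (k + 1)) : ℕ) : ENNReal)

/-- `D` is an efficient exact uniform sampler: for every valid input `x` it outputs each element of
`target x` with probability exactly `1 / |target x|`, and its expected running time is polynomial
in `size x`.

* `poly`: the function `D` of the input and of the outcomes of the coin flips is computable in
  polynomial time;
* `stable`: after it has halted, the output does not change;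
* `sound`: the output belongs to `target x`;
* `exact`: the probability that the algorithm has halted with the output `y` after `k` coin flips
  tends to `1 / |target x|` as `k → ∞`;
* `fast`: if the computation of `D (x, w)` costs `q (|x| + |w|)` for some polynomial `q`, then the
  expected total cost is at most a polynomial in `size x`. -/
structure ExactSampler {α β : Type} [TEnc α] [TEnc β] (Valid : α → Prop) (target : α → Set β)
    (size : α → ℕ) (D : α × List Bool → Option β) : Prop where
  poly : Poly D
  finite : ∀ x, Valid x → (target x).Finite
  nonempty : ∀ x, Valid x → (target x).Nonempty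
  stable : ∀ x, Valid x → ∀ w u y, D (x, w) = some y → D (x, w ++ u) = some y
  sound : ∀ x, Valid x → ∀ w y, D (x, w) = some y → y ∈ target x
  exact : ∀ x, Valid x → ∀ y ∈ target x,
    Tendsto (fun k => coinProb k (fun w => D (x, w) = some y)) atTop
      (𝓝 (1 / ((target x).ncard : ℝ)))
  fast : ∀ q : Polynomial ℕ, ∃ p : Polynomial ℕ, ∀ x, Valid x →
    expectedCost (fun w => D (x, w)) q (bits x).length ≤ ((p.eval (size x) : ℕ) : ENNReal)

/-- `Δ` is the list of all (nonempty) faces of a simplicial complex of dimension `d`. A face is
given by the increasing list of its vertices, and the vertices are natural numbers smaller than the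
number of faces. -/
structure IsComplex (Δ : List (List ℕ)) (d : ℕ) : Prop where
  nodup : Δ.Nodup
  nonempty : ∀ σ ∈ Δ, σ ≠ []
  sorted : ∀ σ ∈ Δ, σ.Pairwise (fun u v => u < v)
  label : ∀ σ ∈ Δ, ∀ v ∈ σ, v < Δ.length
  closed : ∀ σ ∈ Δ, ∀ τ : List ℕ, τ ≠ [] → τ.Sublist σ → τ ∈ Δ
  dim_le : ∀ σ ∈ Δ, σ.length ≤ d + 1
  dim_eq : ∃ σ ∈ Δ, σ.length = d + 1

/-- The column of the boundary matrix over `ℚ` which belongs to the face `σ`: the alternating sum of
the faces obtained by omitting one vertex. -/
noncomputable def boundary (σ : List ℕ) : List ℕ →₀ ℚ :=
  ∑ i ∈ Finset.range σ.length, Finsupp.single (σ.eraseIdx i) ((-1) ^ i)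

/-- `Υ` is the list of all faces of a `d`-dimensional spanning tree of `Δ`, in the order in which
they occur in `Δ`: it contains all faces of dimension less than `d`, and the columns of the
boundary matrix which belong to its `d`-dimensional faces form a basis of the column space. -/
structure IsTree (Δ : List (List ℕ)) (d : ℕ) (Υ : List (List ℕ)) : Prop where
  sub : Υ.Sublist Δ
  skeleton : ∀ σ ∈ Δ, σ.length ≤ d → σ ∈ Υ
  indep : LinearIndepOn ℚ boundary {σ | σ ∈ Υ ∧ σ.length = d + 1}
  span : ∀ σ ∈ Δ, σ.length = d + 1 →
    boundary σ ∈ Submodule.span ℚ (boundary '' {σ | σ ∈ Υ ∧ σ.length = d + 1})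

end Pool.Agent.Q330.MS
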