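import Mathlib
import Pool.Agent.Q330.MS.SDefs
import Pool.Agent.Q330.MS.IndSem
import Pool.Agent.Q330.MS.Cost

set_option autoImplicit false

/-!
# The sampler
-/

namespace Pool.Agent.Q330.MS

open Finset Filter Topology Pool.Agent.NPC

/-! ### probabilities -/

lemma coinProb_eq (k : ℕ) (p : List Bool → Prop) [DecidablePred p] :
    coinProb k p = (BS k (fun w => if p w then 1 else 0) : ℝ) / 2 ^ k := by
  unfold coinProb
  congr 1
  rw [← card_filter_eq_BS, ← Set.ncard_coe_finset]
  congr 2
  ext w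
  simp

section General

variable {X : Type} [TEnc X] {S : Sys X}
variable {x : X} {r : ℕ} {M : Mat (Fin (S.m x)) r}

lemma Sys.coinProb_none (k : ℕ) : coinProb k (fun w => S.D x w = none) = S.u x k :=
  coinProb_eq k _

lemma Sys.tendsto (h : S.OK x M) {B : Finset (Fin (S.m x))} (hB : B ∈ M.bases) :
    Tendsto (fun k => coinProb k (fun w => S.D x w = some (ofSet B))) atTop
      (𝓝 (1 / (M.bases.card : ℝ))) := by
  rw [Metric.tendsto_atTop]
  intro ε hε
  obtain ⟨l0, hl0⟩ := exists_pow_lt_of_lt_one (half_pos hε) (show (1 / 2 : ℝ) < 1 by norm_num)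
  refine ⟨S.R x + S.K x + (l0 + 2 ^ S.m x), fun k hk => ?_⟩
  generalize hP : 2 ^ S.m x = P at hk
  obtain ⟨l, rfl⟩ := Nat.exists_eq_add_of_le (show S.R x + S.K x ≤ k by
    refine le_trans ?_ hk
    exact Nat.le_add_right _ _)
  rw [coinProb_eq, Real.dist_eq, add_assoc]
  have hl : l0 + P ≤ l := Nat.le_of_add_le_add_left hk
  refine lt_of_le_of_lt (Sys.law h hB l (by rw [hP]; omega)) ?_
  have h1 : (1 / 2 : ℝ) ^ l ≤ (1 / 2) ^ l0 :=
    pow_le_pow_of_le_one (by norm_num) (by norm_num) (by omega)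
  have h2 : (2 : ℝ) / 2 ^ l = 2 * (1 / 2) ^ l := by
    rw [one_div_pow]
    ring
  rw [h2]
  linarith

lemma Sys.expectedCost_le (S : Sys X) (q : Polynomial ℕ) : ∃ p : Polynomial ℕ, ∀ (x : X) (r : ℕ)
    (M : Mat (Fin (S.m x)) r), S.OK x M →
      expectedCost (fun w => S.D x w) q (bits x).length ≤ (p.eval (bits x).length : ℕ) := by
  obtain ⟨p, hp⟩ := S.cost q
  refine ⟨q + p, fun x r M h => ?_⟩
  unfold expectedCost
  rw [Polynomial.eval_add, Nat.cast_add]
  apply add_le_add le_rfl
  apply ENNReal.tsum_le_of_sum_range_le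
  intro J
  have h1 := hp x r M h J
  have hs : (bits x).length = sz x := rfl
  rw [hs]
  have h2 : ∑ k ∈ range J, ENNReal.ofReal (coinProb k (fun w => S.D x w = none)) *
      ((q.eval (sz x + (k + 1)) : ℕ) : ENNReal) =
      ENNReal.ofReal (∑ k ∈ range J, S.u x k * ev q (sz x + (k + 1))) := by
    rw [ENNReal.ofReal_sum_of_nonneg (fun k _ => mul_nonneg (Sys.u_nonneg k) (Nat.cast_nonneg _))]
    apply sum_congr rfl
    intro k _
    rw [ENNReal.ofReal_mul (Sys.u_nonneg k), ENNReal.ofReal_natCast, Sys.coinProb_none]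
    rfl
  rw [h2]
  refine (ENNReal.ofReal_le_ofReal h1).trans ?_
  rw [ENNReal.ofReal_natCast]
  rfl

end General

/-! ### the complex -/

section Cx

variable {Δ : List (List ℕ)} {d : ℕ}

lemma boundary_eq : boundary = bd ℚ := rfl

lemma isFacet_iff (h : IsComplex Δ d) {σ : List ℕ} (hσ : σ ∈ Δ) :
    isFacet Δ σ = true ↔ σ.length = d + 1 := by
  unfold isFacet
  rw [List.all_eq_true]
  constructor
  · intro h1
    obtain ⟨τ, hτ, h2⟩ := h.dim_eq
    have h3 := h1 τ hτ
    rw [decide_eq_true_eq] at h3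
    have h4 := h.dim_le σ hσ
    omega
  · intro h1 τ hτ
    rw [decide_eq_true_eq, h1]
    exact h.dim_le τ hτ

lemma mem_facets (h : IsComplex Δ d) {σ : List ℕ} :
    σ ∈ facets Δ ↔ σ ∈ Δ ∧ σ.length = d + 1 := by
  unfold facets
  rw [List.mem_filter]
  constructor
  · rintro ⟨h1, h2⟩
    exact ⟨h1, (isFacet_iff h h1).1 h2⟩
  · rintro ⟨h1, h2⟩
    exact ⟨h1, (isFacet_iff h h1).2 h2⟩

lemma closed_facet (h : IsComplex Δ d) (hd : 1 ≤ d) {σ : List ℕ} (hσ : σ ∈ facets Δ) :
    Closed Δ σ := by
  rw [mem_facets h] at hσ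
  intro i hi
  apply h.closed σ hσ.1 _ _ (List.eraseIdx_sublist _ _)
  intro h1
  have h2 := List.length_eraseIdx_of_lt hi
  rw [h1, List.length_nil] at h2
  omega

lemma nodup_facets (h : IsComplex Δ d) : (facets Δ).Nodup := h.nodup.filter _

lemma sel_sublist (F : List (List ℕ)) : ∀ y : List Bool, (sel F y).Sublist F := by
  induction F with
  | nil => intro y; simp [sel]
  | cons σ F ih =>
    intro y
    cases y with
    | nil => simp [sel]
    | cons b y =>
      have := ih y
      unfold sel at this ⊢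
      rw [List.zip_cons_cons]
      cases b
      · rw [List.filter_cons_of_neg (by simp)]
        exact this.cons _
      · rw [List.filter_cons_of_pos (by simp), List.map_cons]
        exact this.cons_cons _

lemma mem_sel {F : List (List ℕ)} {y : List Bool} {τ : List ℕ} :
    τ ∈ sel F y ↔ ∃ i : Fin F.length, y.getD i false = true ∧ F.get i = τ := by
  unfold sel
  rw [List.mem_map]
  constructor
  · rintro ⟨e, he, rfl⟩
    rw [List.mem_filter] at he
    obtain ⟨i, hi, h1⟩ := List.getElem_of_mem he.1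
    rw [List.length_zip] at hi
    rw [List.getElem_zip] at h1
    refine ⟨⟨i, by omega⟩, ?_, ?_⟩
    · rw [List.getD_eq_getElem _ _ (by simp only; omega)]
      have := he.2
      rw [← h1] at this
      exact this
    · rw [← h1]
      rfl
  · rintro ⟨i, h1, rfl⟩
    have hi : (i : ℕ) < y.length := by
      by_contra hcon
      rw [List.getD_eq_default _ _ (by omega)] at h1
      exact absurd h1 (by simp)
    refine ⟨(F.get i, y[(i : ℕ)]), ?_, rfl⟩
    rw [List.mem_filter]
    constructor
    · have h2 : (i : ℕ) < (F.zip y).length := by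
        rw [List.length_zip]
        have := i.2
        omega
      have h3 : (F.zip y)[(i : ℕ)] = (F.get i, y[(i : ℕ)]) := by
        rw [List.getElem_zip]
        rfl
      rw [← h3]
      exact List.getElem_mem h2
    · rw [List.getD_eq_getElem _ _ hi] at h1
      exact h1

lemma sel_set {F : List (List ℕ)} {y : List Bool} :
    {τ | τ ∈ sel F y} = F.get '' (toSet F.length y : Set (Fin F.length)) := by
  ext τ
  simp only [Set.mem_ofPred_eq, mem_sel, Set.mem_image, mem_coe, mem_toSet]

/-- the columns of the boundary matrix -/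
noncomputable def cols (Δ : List (List ℕ)) (i : Fin (facets Δ).length) : List ℕ →₀ ℚ :=
  bd ℚ ((facets Δ).get i)

lemma indep_cols (h : IsComplex Δ d) (B : Set (Fin (facets Δ).length)) :
    LinearIndepOn ℚ (cols Δ) B ↔ LinearIndepOn ℚ (bd ℚ) ((facets Δ).get '' B) := by
  have hinj : Function.Injective (facets Δ).get :=
    List.nodup_iff_injective_get.1 (nodup_facets h)
  constructor
  · intro h1
    exact LinearIndepOn.image_of_comp (facets Δ).get (bd ℚ) h1
  · intro h1
    exact LinearIndepOn.comp_of_image h1 hinj.injOn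

/-- the oracle of a complex is correct -/
lemma cx_ok (h : IsComplex Δ d) (hd : 1 ≤ d) {r : ℕ} {M : Mat (Fin (facets Δ).length) r}
    (hM : ∀ B : Finset (Fin (facets Δ).length), M.Ind B ↔
      LinearIndepOn ℚ (cols Δ) (B : Set (Fin (facets Δ).length))) :
    cxSys.OK Δ M := by
  intro y hy
  have hsub := sel_sublist (facets Δ) y
  have h1 : ora Δ y = true ↔ LinearIndepOn ℚ (bd ℚ) {τ | τ ∈ sel (facets Δ) y} :=
    ora_iff (fun τ hτ => closed_facet h hd (hsub.subset hτ))
      (fun τ hτ => ((mem_facets h).1 (hsub.subset hτ)).1) ((nodup_facets h).sublist hsub)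
  have h2 := (hM (toSet (facets Δ).length y)).trans (indep_cols h _)
  rw [← sel_set] at h2
  exact h1.trans h2.symm

lemma mem_outL (h : IsComplex Δ d) {y : List Bool} {σ : List ℕ} :
    σ ∈ outL Δ y ↔ σ ∈ Δ ∧ (σ.length ≤ d ∨ σ ∈ sel (facets Δ) y) := by
  unfold outL
  rw [List.mem_filter]
  apply and_congr_right
  intro hσ
  rw [Bool.or_eq_true, Bool.not_eq_true', decide_eq_true_eq]
  apply or_congr_left
  rw [← Bool.not_eq_true, isFacet_iff h hσ]
  have := h.dim_le σ hσ
  omega

lemma outL_facets (h : IsComplex Δ d) (y : List Bool) :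
    {σ | σ ∈ outL Δ y ∧ σ.length = d + 1} = {σ | σ ∈ sel (facets Δ) y} := by
  ext σ
  simp only [Set.mem_ofPred_eq, mem_outL h]
  constructor
  · rintro ⟨⟨_, h1 | h1⟩, h2⟩
    · omega
    · exact h1
  · intro h1
    have h2 := (mem_facets h).1 ((sel_sublist _ _).subset h1)
    exact ⟨⟨h2.1, Or.inr h1⟩, h2.2⟩

/-- the trees are the bases -/
lemma isTree_iff (h : IsComplex Δ d) {r : ℕ} {M : Mat (Fin (facets Δ).length) r}
    (hM : ∀ B : Finset (Fin (facets Δ).length), M.Ind B ↔
      LinearIndepOn ℚ (cols Δ) (B : Set (Fin (facets Δ).length))) (y : List Bool) :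
    IsTree Δ d (outL Δ y) ↔ toSet (facets Δ).length y ∈ M.bases := by
  rw [span_of_basis hM, indep_cols h, ← sel_set]
  have himg : cols Δ '' (toSet (facets Δ).length y : Set (Fin (facets Δ).length)) =
      bd ℚ '' {τ | τ ∈ sel (facets Δ) y} := by
    rw [sel_set, Set.image_image]
    rfl
  rw [himg]
  constructor
  · intro hT
    refine ⟨?_, ?_⟩
    · have := hT.indep
      rwa [outL_facets h] at this
    · intro e
      have h1 := (mem_facets h).1 (List.get_mem (facets Δ) e)
      have := hT.span _ h1.1 h1.2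
      rwa [outL_facets h] at this
  · rintro ⟨h1, h2⟩
    refine ⟨List.filter_sublist, ?_, ?_, ?_⟩
    · intro σ hσ hl
      exact (mem_outL h).2 ⟨hσ, Or.inl hl⟩
    · rw [outL_facets h]
      exact h1
    · intro σ hσ hl
      rw [outL_facets h]
      obtain ⟨i, hi⟩ := List.get_of_mem ((mem_facets h).2 ⟨hσ, hl⟩)
      have := h2 i
      unfold cols at this
      rw [hi] at this
      exact this

lemma filter_sublist_eq {β : Type} [DecidableEq β] {l' l : List β} (h : l'.Sublist l)
    (hn : l.Nodup) : l.filter (fun a => decide (a ∈ l')) = l' := by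
  induction h with
  | slnil => rfl
  | @cons l₁ l₂ a h ih =>
    rw [List.nodup_cons] at hn
    rw [List.filter_cons_of_neg, ih hn.2]
    simp only [decide_eq_true_eq]
    exact fun h1 => hn.1 (h.subset h1)
  | @cons_cons l₁ l₂ a h ih =>
    rw [List.nodup_cons] at hn
    rw [List.filter_cons_of_pos (by simp)]
    congr 1
    refine Eq.trans ?_ (ih hn.2)
    apply List.filter_congr
    intro b hb
    have : b ≠ a := by
      rintro rfl
      exact hn.1 hb
    simp [this]

lemma exists_mask (h : IsComplex Δ d) {Υ : List (List ℕ)} (hT : IsTree Δ d Υ) :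
    ∃ y : List Bool, y.length = (facets Δ).length ∧ outL Δ y = Υ := by
  refine ⟨(facets Δ).map (fun σ => decide (σ ∈ Υ)), by simp, ?_⟩
  refine Eq.trans ?_ (filter_sublist_eq hT.sub h.nodup)
  unfold outL
  apply List.filter_congr
  intro σ hσ
  by_cases h1 : σ ∈ Υ
  · simp only [h1, decide_true, Bool.or_eq_true, Bool.not_eq_true', decide_eq_true_eq]
    by_cases h2 : isFacet Δ σ = true
    · right
      have h3 : σ ∈ facets Δ := by
        unfold facets
        rw [List.mem_filter]
        exact ⟨hσ, h2⟩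
      obtain ⟨i, hi⟩ := List.get_of_mem h3
      rw [mem_sel]
      refine ⟨i, ?_, hi⟩
      rw [List.getD_eq_getElem _ _ (by simp), List.getElem_map]
      rw [← List.get_eq_getElem, hi]
      simpa using h1
    · left
      simpa using h2
  · have h2 : isFacet Δ σ = true := by
      rw [isFacet_iff h hσ]
      by_contra h3
      have h4 := h.dim_le σ hσ
      exact h1 (hT.skeleton σ hσ (by omega))
    have h3 : σ ∉ sel (facets Δ) ((facets Δ).map (fun σ => decide (σ ∈ Υ))) := by
      rw [mem_sel]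
      rintro ⟨i, hi, rfl⟩
      rw [List.getD_eq_getElem _ _ (by simp), List.getElem_map, ← List.get_eq_getElem] at hi
      exact h1 (by simpa using hi)
    simp [h1, h2, h3]

lemma outL_inj (h : IsComplex Δ d) {y z : List Bool} (hy : y.length = (facets Δ).length)
    (hz : z.length = (facets Δ).length) (hyz : outL Δ y = outL Δ z) : y = z := by
  apply toSet_inj hy hz
  have hinj : Function.Injective (facets Δ).get :=
    List.nodup_iff_injective_get.1 (nodup_facets h)
  have h1 : {τ | τ ∈ sel (facets Δ) y} = {τ | τ ∈ sel (facets Δ) z} := by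
    rw [← outL_facets h, ← outL_facets h, hyz]
  rw [sel_set, sel_set] at h1
  have h2 := hinj.image_injective h1
  exact_mod_cast h2

lemma trees_eq (h : IsComplex Δ d) {r : ℕ} {M : Mat (Fin (facets Δ).length) r}
    (hM : ∀ B : Finset (Fin (facets Δ).length), M.Ind B ↔
      LinearIndepOn ℚ (cols Δ) (B : Set (Fin (facets Δ).length))) :
    {Υ | IsTree Δ d Υ} = (fun B => outL Δ (ofSet B)) ''
      (M.bases : Set (Finset (Fin (facets Δ).length))) := by
  ext Υ
  simp only [Set.mem_ofPred_eq, Set.mem_image, mem_coe]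
  constructor
  · intro hT
    obtain ⟨y, hy, rfl⟩ := exists_mask h hT
    refine ⟨toSet (facets Δ).length y, (isTree_iff h hM y).1 hT, ?_⟩
    rw [ofSet_toSet hy]
  · rintro ⟨B, hB, rfl⟩
    rw [isTree_iff h hM, toSet_ofSet]
    exact hB

lemma ncard_trees (h : IsComplex Δ d) {r : ℕ} {M : Mat (Fin (facets Δ).length) r}
    (hM : ∀ B : Finset (Fin (facets Δ).length), M.Ind B ↔
      LinearIndepOn ℚ (cols Δ) (B : Set (Fin (facets Δ).length))) :
    {Υ | IsTree Δ d Υ}.ncard = M.bases.card := by
  rw [trees_eq h hM, Set.ncard_image_of_injective, Set.ncard_coe_finset]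
  intro B B' hBB
  have h1 := outL_inj h (length_ofSet B) (length_ofSet B') hBB
  rw [← toSet_ofSet B, h1, toSet_ofSet]

/-- the encoding of a complex is short -/
lemma sz_cx (h : IsComplex Δ d) :
    sz Δ ≤ Δ.length * (Δ.length * (4 * Δ.length + 2) + 2) + 1 := by
  have h1 : ∀ σ ∈ Δ, sz σ ≤ Δ.length * (4 * Δ.length + 2) + 1 := by
    intro σ hσ
    have h2 : σ.length ≤ Δ.length := by
      have h3 : σ.Nodup := (h.sorted σ hσ).imp (fun h => h.ne)
      have h4 : σ ⊆ List.range Δ.length := by
        intro v hv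
        exact List.mem_range.2 (h.label σ hσ v hv)
      have h5 := (List.subperm_of_subset h3 h4).length_le
      rwa [List.length_range] at h5
    refine (sz_le_length_mul σ (4 * Δ.length + 1) ?_).trans ?_
    · intro v hv
      have h3 := sz_nat_le v
      have h4 := Poly.size_le_self v
      have h5 := h.label σ hσ v hv
      omega
    · exact Nat.add_le_add_right (Nat.mul_le_mul_right _ h2) 1
  exact sz_le_length_mul Δ _ h1

/-- **There is an efficient exact uniform sampler for the spanning trees of simplicial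
complexes.** -/
theorem cx_sampler : ExactSampler (fun Δ : List (List ℕ) => ∃ d, 1 ≤ d ∧ IsComplex Δ d)
    (fun Δ => {Υ | ∃ d, IsComplex Δ d ∧ IsTree Δ d Υ}) List.length cxD := by
  -- the dimension is determined by the complex
  have hdim : ∀ {Δ : List (List ℕ)} {d d' : ℕ}, IsComplex Δ d → IsComplex Δ d' → d = d' := by
    intro Δ d d' h h'
    obtain ⟨σ, h1, h2⟩ := h.dim_eq
    obtain ⟨σ', h3, h4⟩ := h'.dim_eq
    have h5 := h.dim_le σ' h3
    have h6 := h'.dim_le σ h1
    omega
  have htarget : ∀ {Δ : List (List ℕ)} {d : ℕ}, IsComplex Δ d →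
      {Υ | ∃ d, IsComplex Δ d ∧ IsTree Δ d Υ} = {Υ | IsTree Δ d Υ} := by
    intro Δ d h
    ext Υ
    constructor
    · rintro ⟨d', h1, h2⟩
      rw [hdim h h1]
      exact h2
    · intro h1
      exact ⟨d, h, h1⟩
  refine ⟨poly_cxD, ?_, ?_, ?_, ?_, ?_, ?_⟩
  · rintro Δ ⟨d, hd, h⟩
    obtain ⟨r, M, hM⟩ := exists_mat (K := ℚ) (cols Δ)
    rw [htarget h, trees_eq h hM]
    exact (M.bases.finite_toSet).image _
  · rintro Δ ⟨d, hd, h⟩
    obtain ⟨r, M, hM⟩ := exists_mat (K := ℚ) (cols Δ)
    rw [htarget h, trees_eq h hM]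
    have := Finset.card_pos.1 (Sys.card_pos (S := cxSys) (x := Δ) (M := M))
    exact (Finset.coe_nonempty.2 this).image _
  · rintro Δ ⟨d, hd, h⟩ w u Υ hD
    obtain ⟨r, M, hM⟩ := exists_mat (K := ℚ) (cols Δ)
    have hok := cx_ok h hd hM
    unfold cxD at hD ⊢
    simp only [Option.map_eq_some_iff] at hD ⊢
    obtain ⟨y, h1, h2⟩ := hD
    exact ⟨y, Sys.D_mono hok u h1, h2⟩
  · rintro Δ ⟨d, hd, h⟩ w Υ hD
    obtain ⟨r, M, hM⟩ := exists_mat (K := ℚ) (cols Δ)
    have hok := cx_ok h hd hM
    unfold cxD at hD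
    simp only [Option.map_eq_some_iff] at hD
    obtain ⟨y, h1, rfl⟩ := hD
    have h2 := Sys.D_out hok h1
    exact ⟨d, h, (isTree_iff h hM y).2 h2.2⟩
  · rintro Δ ⟨d, hd, h⟩ Υ hΥ
    obtain ⟨r, M, hM⟩ := exists_mat (K := ℚ) (cols Δ)
    have hok := cx_ok h hd hM
    rw [htarget h] at hΥ ⊢
    rw [ncard_trees h hM]
    rw [trees_eq h hM] at hΥ
    obtain ⟨B, hB, rfl⟩ := hΥ
    have h1 := Sys.tendsto hok (B := B) (by exact_mod_cast hB)
    refine h1.congr fun k => ?_
    unfold coinProb
    congr 3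
    ext w
    simp only [Set.mem_ofPred_eq]
    unfold cxD
    simp only [Option.map_eq_some_iff]
    constructor
    · intro h2
      exact ⟨_, h2, rfl⟩
    · rintro ⟨y, h2, h3⟩
      have h4 := Sys.D_out hok h2
      rw [h2, outL_inj h h4.1 (length_ofSet B) h3]
      rfl
  · intro q
    obtain ⟨p, hp⟩ := Sys.expectedCost_le cxSys q
    refine ⟨p.comp (Polynomial.X * (Polynomial.X * (4 * Polynomial.X + 2) + 2) + 1), ?_⟩
    rintro Δ ⟨d, hd, h⟩
    obtain ⟨r, M, hM⟩ := exists_mat (K := ℚ) (cols Δ)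
    have hok := cx_ok h hd hM
    have h1 := hp Δ r M hok
    have h2 : expectedCost (fun w => cxD (Δ, w)) q (bits Δ).length =
        expectedCost (fun w => cxSys.D Δ w) q (bits Δ).length := by
      unfold expectedCost
      congr 2
      funext k
      congr 3
      funext w
      unfold cxD
      simp
    rw [h2]
    refine h1.trans ?_
    have h3 : (bits Δ).length ≤ Δ.length * (Δ.length * (4 * Δ.length + 2) + 2) + 1 := sz_cx h
    have h4 := eval_mono p h3
    simp only [Polynomial.eval_comp, Polynomial.eval_add, Polynomial.eval_mul, Polynomial.eval_X,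
      Polynomial.eval_one, Polynomial.eval_ofNat]
    exact_mod_cast h4

end Cx

end Pool.Agent.Q330.MS
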